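import Mathlib
import Pool.Agent.Lib_MP_394d50_vs.LkZig

/-!
# Homology manifolds with boundary: definitions
-/

namespace SingerCub

open SingerVS
open scoped Pointwise

section

variable {P : Type} [DecidableEq P]

/-- The pair `(K, L)` (two complexes `L ⊆ K` which contain the empty simplex, or `L` is empty) has the
reduced homology over `F₂` of the pair (ball, boundary sphere), or of the pair (sphere, ∅), of dimension
`m - 1`: it is `F₂` in dimension `m - 1` (chains with `m` vertices) and vanishes otherwise. -/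
def RelSph (m : ℕ) (K L : Set (Finset P)) : Prop :=
  (∀ k, k ≠ m → ∀ z ∈ Ch (ZMod 2) (K \ L) k, (∀ ρ ∈ K \ L, bd K z ρ = 0) →
    ∃ w ∈ Ch (ZMod 2) (K \ L) (k + 1), ∀ ρ ∈ K \ L, bd K w ρ = z ρ) ∧
  ∃ z₀ ∈ Ch (ZMod 2) (K \ L) m, (∀ ρ ∈ K \ L, bd K z₀ ρ = 0) ∧
    (∀ w ∈ Ch (ZMod 2) (K \ L) (m + 1), ¬ ∀ ρ ∈ K \ L, bd K w ρ = z₀ ρ) ∧
    ∀ z ∈ Ch (ZMod 2) (K \ L) m, (∀ ρ ∈ K \ L, bd K z ρ = 0) →
      ∃ w ∈ Ch (ZMod 2) (K \ L) (m + 1),
        (∀ ρ ∈ K \ L, bd K w ρ = z ρ) ∨ ∀ ρ ∈ K \ L, bd K w ρ = z ρ + z₀ ρ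

/-- `(Z, W)` is a homology manifold with boundary `W` of dimension `m` over `F₂`: for every simplex of
`Z` with `c` vertices the pair of its links in `Z` and in `W` has the reduced homology of the pair (ball,
sphere) (if the simplex is in `W`) or of a sphere (if it is not) of dimension `m - c`. -/
structure BMfd (m : ℕ) (Z W : Set (Finset P)) : Prop where
  dim : ∀ σ ∈ Z, σ.card ≤ m + 1
  link : ∀ σ ∈ Z, RelSph (m + 1 - σ.card) (lk Z σ) (lk W σ)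

/-- A homology manifold is a homology manifold with empty boundary. -/
theorem BMfd.of_homMfd {m : ℕ} {Z : Set (Finset P)} (h : HomMfd m Z) : BMfd m Z ∅ := by
  refine ⟨h.dim, fun σ hσ => ?_⟩
  have e : lk (∅ : Set (Finset P)) σ = ∅ := by
    ext ρ
    exact ⟨fun h1 => absurd h1.2 (Set.notMem_empty _), fun h1 => absurd h1 (Set.notMem_empty _)⟩
  rw [e]
  unfold RelSph
  rw [Set.sdiff_empty]
  have h1 : ∀ (z w : Finset P → ZMod 2), (∀ ρ ∈ lk Z σ, bd (lk Z σ) w ρ = z ρ) →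
      (∀ ρ, ρ ∉ lk Z σ → z ρ = 0) → bd (lk Z σ) w = z := by
    intro z w h2 h3
    funext ρ
    by_cases h4 : ρ ∈ lk Z σ
    · exact h2 ρ h4
    · rw [bd_apply_not h4, h3 ρ h4]
  obtain ⟨h2, z₀, h3, h4, h5, h6⟩ := h.link σ hσ
  refine ⟨fun k hk z hz hz0 => ?_, z₀, h3, fun ρ _ => congrFun h4 ρ, fun w hw h7 => ?_, ?_⟩
  · obtain ⟨w, hw, hw'⟩ := h2 k hk z hz (h1 0 z hz0 fun _ _ => rfl)
    exact ⟨w, hw, fun ρ _ => congrFun hw' ρ⟩
  · exact h5 w hw (h1 z₀ w h7 fun ρ hρ => h3 ρ fun h8 => hρ h8.1)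
  · intro z hz hz0
    obtain ⟨w, hw, hw'⟩ := h6 z hz (h1 0 z hz0 fun _ _ => rfl)
    refine ⟨w, hw, hw'.imp (fun h8 ρ _ => congrFun h8 ρ) fun h8 ρ _ => ?_⟩
    rw [h8]
    rfl

end

end SingerCub
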