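import Mathlib
import Pool.Agent.Lib_MP_394d50_cub.WDefs
import Pool.Agent.Lib_MP_394d50_vs.LkDefs
import Pool.Agent.Lib_MP_394d50_rn.RDefs
import Pool.Agent.Lib_MP_394d50_cub.Defs
import Pool.Agent.Lib_MP_394d50_vs.LSDefs

/-!
# Hierarchies of walls: definitions

`σ`, `τ`: simplices, `X` the complex, `Y i` the walls, `lv i` the level of the wall `Y i`. A chamber is a
connected component of the complement of the walls. `SubCx`, `ExW` are used in the proofs only.
-/

namespace SingerCub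

open SingerVS SingerRN
open scoped Pointwise

section statement

variable {P ι : Type}

/-- `σ` and `τ` are simplices outside the walls, and one of them is a face of the other. -/
def Adj (X : Set (Finset P)) (Y : ι → Set (Finset P)) (σ τ : Finset P) : Prop :=
  σ ∈ X ∧ τ ∈ X ∧ (∀ i, σ ∉ Y i) ∧ (∀ i, τ ∉ Y i) ∧ (σ ⊆ τ ∨ τ ⊆ σ)

/-- The chamber of `σ`: the (open) simplices which can be joined to `σ` outside the walls. -/
def cham (X : Set (Finset P)) (Y : ι → Set (Finset P)) (σ : Finset P) : Set (Finset P) :=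
  {τ | Relation.ReflTransGen (Adj X Y) σ τ}

/-- The union of the walls of level less than `j`. -/
def low (Y : ι → Set (Finset P)) (lv : ι → ℕ) (j : ℕ) : Set (Finset P) :=
  {σ | ∃ i, lv i < j ∧ σ ∈ Y i}

/-- The locally finite homology over `F₂` of the pair `(X, W)` vanishes below the dimension `n`
(chains with `k ≤ n` vertices). -/
def LfW [DecidableEq P] (n : ℕ) (X W : Set (Finset P)) : Prop :=
  ∀ k, 1 ≤ k → k ≤ n → ∀ c ∈ Ch (ZMod 2) (X \ W) k, (∀ σ ∈ X \ W, bd X c σ = 0) →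
    ∃ b ∈ Ch (ZMod 2) (X \ W) (k + 1), ∀ σ ∈ X \ W, bd X b σ = c σ

/-- `Y i`, `i : ι`, is a `Γ`-equivariant, locally finite hierarchy of walls in the simplicial complex
`X` of dimension `n`. The wall `Y i` has the level `lv i`. Let `Z` be a non-empty intersection of
`j ≥ 1` walls of the same level and `W` the union of the walls of smaller level. Then the pair
`(Z, Z ∩ W)` has vanishing locally finite homology over `F₂` below some dimension `m ≥ n - j` (this is
the case if `Z` is a contractible `m`-manifold with boundary `Z ∩ W`). -/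
structure WallsH (n : ℕ) (Γ : Type) [Group Γ] {P ι : Type} [DecidableEq P] [MulAction Γ P]
    [MulAction Γ ι] (X : Set (Finset P)) (Y : ι → Set (Finset P)) (lv : ι → ℕ) : Prop where
  sub : ∀ i, Y i ⊆ X
  down : ∀ i, ∀ σ ∈ Y i, ∀ τ, τ ⊆ σ → τ.Nonempty → τ ∈ Y i
  smul : ∀ (g : Γ) i, ∀ σ ∈ Y i, g • σ ∈ Y (g • i)
  lv_smul : ∀ (g : Γ) i, lv (g • i) = lv i
  bdd : ∃ N, ∀ i, lv i < N
  locfin : ∀ σ ∈ X, {i | σ ∈ Y i}.Finite
  inter : ∀ (j : ℕ) (t : Finset ι), t.Nonempty → (∀ i ∈ t, lv i = j) →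
    (wi Y t \ low Y lv j).Nonempty →
    ∃ m, n ≤ m + t.card ∧ LfW m (wi Y t) (wi Y t ∩ low Y lv j)

/-- The hypothesis on the intersections `Z` of walls of the same level: one of the walls has a virtually
residually (amenable, left-orderable, residually finite) stabiliser, or there are no harmonic square
summable chains of the pair `(Z, Z ∩ W)` below the middle dimension. -/
def GoodH (n : ℕ) (Γ : Type) [Group Γ] {P ι : Type} [LinearOrder P] [MulAction Γ P]
    [MulAction Γ ι] (Y : ι → Set (Finset P)) (lv : ι → ℕ) : Prop :=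
  ∀ (j : ℕ) (t : Finset ι), t.Nonempty → (∀ i ∈ t, lv i = j) →
    (wi Y t \ low Y lv j).Nonempty → (∃ i ∈ t, VirtRes (MulAction.stabilizer Γ i)) ∨
      ∀ q, 2 * q + t.card < n →
        NH (simpCx (wi Y t \ low Y lv j) (fun x y : P => x < y)) Set.univ q

/-- `Y i`, `i : ι`, is a `Γ`-equivariant, locally finite family of walls in the simplicial complex `X`
of dimension `n`: subcomplexes such that every non-empty intersection of `j ≥ 1` walls is acyclic over
`F₂` and a homology manifold over `F₂` of dimension at least `n - j`. -/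
structure WallsC (n : ℕ) (Γ : Type) [Group Γ] {P ι : Type} [DecidableEq P] [MulAction Γ P]
    [MulAction Γ ι] (X : Set (Finset P)) (Y : ι → Set (Finset P)) : Prop where
  sub : ∀ i, Y i ⊆ X
  down : ∀ i, ∀ σ ∈ Y i, ∀ τ, τ ⊆ σ → τ.Nonempty → τ ∈ Y i
  smul : ∀ (g : Γ) i, ∀ σ ∈ Y i, g • σ ∈ Y (g • i)
  locfin : ∀ σ ∈ X, {i | σ ∈ Y i}.Finite
  inter : ∀ t : Finset ι, t.Nonempty → (wi Y t).Nonempty →
    Acyc (wi Y t) ∧ ∃ m, n ≤ m + t.card ∧ HomMfd m (wi Y t)

/-- The stabiliser of every chamber is virtually residually (amenable, left-orderable, residually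
finite). -/
def GoodC (Γ : Type) [Group Γ] {P ι : Type} [DecidableEq P] [MulAction Γ P]
    (X : Set (Finset P)) (Y : ι → Set (Finset P)) : Prop :=
  ∀ σ ∈ X, (∀ i, σ ∉ Y i) → VirtRes (MulAction.stabilizer Γ (cham X Y σ))

end statement

section proof

variable {H P : Type} [Group H] [DecidableEq P] [MulAction H P]
variable {N : Type} [AddCommGroup N] [Module (ZMod 2) N]

/-- `W` is an invariant subcomplex of `X`. -/
structure SubCx (H : Type) [Group H] {P : Type} [DecidableEq P] [MulAction H P]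
    (X W : Set (Finset P)) : Prop where
  sub : W ⊆ X
  down : ∀ σ ∈ W, ∀ τ, τ ⊆ σ → τ.Nonempty → τ ∈ W
  inv : ∀ h : H, ∀ σ ∈ W, h • σ ∈ W

/-- Exactness of the equivariant cochains of the pair `(X, W)` at the simplices with `k`
vertices. -/
def ExW (ρ : H →* Module.End (ZMod 2) N) (X W : Set (Finset P)) (k : ℕ) : Prop :=
  ∀ c ∈ Co ρ (X \ W) k, dl X c = 0 → ∃ b ∈ Co ρ (X \ W) (k - 1), dl X b = c

variable {X W : Set (Finset P)}

theorem SubCx.inv_iff (hW : SubCx H X W) (h : H) (σ : Finset P) : h • σ ∈ W ↔ σ ∈ W :=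
  ⟨fun h1 => by
    have h2 := hW.inv h⁻¹ _ h1
    rwa [inv_smul_smul] at h2, hW.inv h σ⟩

omit [DecidableEq P] in
/-- A relative chain is a chain. -/
theorem ch_rel {k : ℕ} {c : Finset P → N} (hc : c ∈ Ch N (X \ W) k) : c ∈ Ch N X k :=
  fun σ hσ => hc σ fun h => hσ ⟨h.1.1, h.2⟩

omit [DecidableEq P] in
theorem ch_rel_iff {k : ℕ} {c : Finset P → N} :
    c ∈ Ch N (X \ W) k ↔ c ∈ Ch N X k ∧ ∀ σ ∈ W, c σ = 0 := by
  refine ⟨fun hc => ⟨ch_rel hc, fun σ hσ => hc σ fun h => h.1.2 hσ⟩, fun hc σ hσ => ?_⟩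
  by_cases h : σ ∈ W
  · exact hc.2 σ h
  · exact hc.1 σ fun h1 => hσ ⟨⟨h1.1, h⟩, h1.2⟩

/-- A relative equivariant cochain is an equivariant cochain. -/
theorem co_rel_iff (hW : SubCx H X W) {ρ : H →* Module.End (ZMod 2) N} {k : ℕ}
    {c : Finset P → N} : c ∈ Co ρ (X \ W) k ↔ c ∈ Co ρ X k ∧ ∀ σ ∈ W, c σ = 0 := by
  constructor
  · intro hc
    have h0 : ∀ σ ∈ W, c σ = 0 := fun σ hσ => hc.1 σ fun h => h.1.2 hσ
    refine ⟨⟨fun σ hσ => hc.1 σ fun h => hσ ⟨h.1.1, h.2⟩, fun h σ hσ => ?_⟩, h0⟩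
    by_cases h1 : σ ∈ W
    · rw [h0 σ h1, h0 _ (hW.inv h σ h1), map_zero]
    · exact hc.2 h σ ⟨hσ, h1⟩
  · rintro ⟨hc, h0⟩
    refine ⟨fun σ hσ => ?_, fun h σ hσ => hc.2 h σ hσ.1⟩
    by_cases h1 : σ ∈ W
    · exact h0 σ h1
    · exact hc.1 σ fun h2 => hσ ⟨⟨h2.1, h1⟩, h2.2⟩

/-- The coboundary of a relative cochain vanishes on `W`. -/
theorem dl_rel (hX : FreeCx H X) (hW : SubCx H X W) {k : ℕ} {c : Finset P → N}
    (hc : c ∈ Ch N (X \ W) k) : ∀ σ ∈ W, dl X c σ = 0 := by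
  intro σ hσ
  rw [dl_apply (hW.sub hσ)]
  refine Finset.sum_eq_zero fun p _ => ?_
  by_cases h1 : (σ.erase p).Nonempty
  · exact (ch_rel_iff.mp hc).2 _ (hW.down σ hσ _ (Finset.erase_subset p σ) h1)
  · rw [Finset.not_nonempty_iff_eq_empty.mp h1]
    exact hc ∅ fun h => hX.empty_notMem h.1.1

end proof

end SingerCub
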