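import Mathlib
import Pool.Agent.Lib_MP_394d50_cmb.BDefs
import Pool.Agent.Lib_MP_394d50_cmb.MDefs

/-!
# Piece BCOL: exactness of the columns, relative version (about 100 lines)

This is a relative version of `Lib_MP_394d50_vs/LkCol.lean` (copy the proof of `HomMfd.col`, with
`X = Z`, and change it as follows). Put `K = lk Z σ`, `L = lk W σ`; for `σ ∈ Z`: `ρ ∈ K \ L` iff `ρ` is
disjoint from `σ`, `ρ ∪ σ ∈ Z` and `ρ ∪ σ ∉ W`. If `τ ∈ Z`, `τ ∉ W`, `p ∈ nb Z τ` then `insert p τ ∈ Z`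
and `insert p τ ∉ W` (`hW.down`; `τ` is not empty by `hX.ne`).

If `q < σ.card` then `g = 0` works. Otherwise let `k = q - σ.card`, and let
`z ρ = f (ρ ∪ σ)` if `ρ ∈ K \ L`, `ρ.card = k`, and `0` otherwise. It is in `Ch (K \ L) k` and
`bd K z ρ = bd Z f (ρ ∪ σ) = 0` for `ρ ∈ K \ L` (`mem_nb_lk`; as in `lkTop_pull_bd`, the values for
`insert p ρ` of the wrong cardinality are zero on both sides). `(hM.link σ hσ).1 k`
(`k ≠ m + 1 - σ.card` since `q ≤ m` and `σ.card ≤ m + 1`) gives `w ∈ Ch (K \ L) (k + 1)` with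
`bd K w ρ = z ρ` for `ρ ∈ K \ L`. Put `g τ = w (τ \ σ)` if `τ ∈ Z`, `τ ∉ W`, `τ.card = q + 1`, `σ ⊆ τ`, and
`0` otherwise. For `τ ∈ Z`, `τ ∉ W`, `σ ⊆ τ`, `ρ = τ \ σ`: `bd Z g τ = ∑_{p ∈ nb Z τ} g (insert p τ) =
∑_{p ∈ nb K ρ} w (insert p ρ) = bd K w ρ = z ρ = f τ`.
-/

namespace SingerCub

open SingerVS
open scoped Pointwise

variable {H P : Type} [Group H] [DecidableEq P] [MulAction H P] {Z W : Set (Finset P)} {m : ℕ}

theorem colR (hX : FreeCx H Z) (hW : SubCx H Z W) (hM : BMfd m Z W) {σ : Finset P} (hσ : σ ∈ Z)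
    {q : ℕ} (hq : q ≤ m) {f : Finset P → ZMod 2}
    (hf0 : ∀ τ, ¬ (τ ∈ Z ∧ τ ∉ W ∧ τ.card = q ∧ σ ⊆ τ) → f τ = 0)
    (hf : ∀ τ ∈ Z, τ ∉ W → σ ⊆ τ → bd Z f τ = 0) :
    ∃ g : Finset P → ZMod 2, (∀ τ, ¬ (τ ∈ Z ∧ τ ∉ W ∧ τ.card = q + 1 ∧ σ ⊆ τ) → g τ = 0) ∧
      ∀ τ ∈ Z, τ ∉ W → σ ⊆ τ → bd Z g τ = f τ := by
  classical
  have hf0' : ∀ τ, τ.card ≠ q → f τ = 0 := fun τ hτ => hf0 τ (fun h => hτ h.2.2.1)
  have hcof : ∀ τ ∈ Z, τ ∉ W → ∀ p ∈ nb Z τ, insert p τ ∉ W := by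
    intro τ hτ hτW p _ h
    exact hτW (hW.down _ h τ (Finset.subset_insert p τ) (hX.ne τ hτ))
  rcases lt_or_ge q σ.card with hlt | hge
  · refine ⟨0, fun _ _ => rfl, ?_⟩
    intro τ _ _ hs
    rw [map_zero, hf0 τ]
    · rfl
    rintro ⟨_, _, h2, _⟩
    have := Finset.card_le_card hs
    omega
  have hk : q - σ.card + σ.card = q := by omega
  have hle := hM.dim σ hσ
  have hKL : ∀ ρ ∈ lk Z σ \ lk W σ, ρ ∪ σ ∉ W := fun ρ hρ h => hρ.2 ⟨hρ.1.1, h⟩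
  obtain ⟨z, hz⟩ : ∃ z : Finset P → ZMod 2, z = fun ρ =>
      if ρ ∈ lk Z σ \ lk W σ ∧ ρ.card = q - σ.card then f (ρ ∪ σ) else 0 := ⟨_, rfl⟩
  obtain ⟨w, hw, hwz⟩ := (hM.link σ hσ).1 (q - σ.card) (by omega) z
    (fun ρ hρ => by rw [hz]; exact if_neg hρ) (by
      intro ρ hρ
      have e : bd (lk Z σ) z ρ = bd Z f (ρ ∪ σ) := by
        rw [bd_apply hρ.1, bd_apply hρ.1.2, mem_nb_lk hX hρ.1]
        refine Finset.sum_congr rfl fun p hp => ?_
        have h0 := hcof _ hρ.1.2 (hKL ρ hρ) p hp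
        have h1 := (hX.mem_nb hρ.1.2).mp hp
        rw [Finset.mem_union, not_or] at h1
        have h2 : insert p ρ ∈ lk Z σ := ⟨Finset.disjoint_insert_left.mpr ⟨h1.1.2, hρ.1.1⟩, by
          rw [Finset.insert_union]
          exact h1.2⟩
        have h3 : insert p ρ ∉ lk W σ := fun h => h0 (by rw [← Finset.insert_union]; exact h.2)
        rw [hz]
        by_cases h4 : (insert p ρ).card = q - σ.card
        · simp only
          rw [if_pos ⟨⟨h2, h3⟩, h4⟩, Finset.insert_union]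
        · simp only
          rw [if_neg (fun h => h4 h.2), ← Finset.insert_union]
          refine (hf0' _ ?_).symm
          rw [Finset.card_union_of_disjoint h2.1]
          omega
      rw [e]
      exact hf _ hρ.1.2 (hKL ρ hρ) Finset.subset_union_right)
  refine ⟨fun τ => if τ ∈ Z ∧ τ ∉ W ∧ τ.card = q + 1 ∧ σ ⊆ τ then w (τ \ σ) else 0,
    fun τ hτ => if_neg hτ, ?_⟩
  intro τ hτ hτW hs
  have hρu : τ \ σ ∪ σ = τ := Finset.sdiff_union_of_subset hs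
  have hρ : τ \ σ ∈ lk Z σ := ⟨Finset.sdiff_disjoint, by rw [hρu]; exact hτ⟩
  have hρ' : τ \ σ ∈ lk Z σ \ lk W σ := ⟨hρ, fun h => hτW (by have h1 := h.2; rwa [hρu] at h1)⟩
  have hρc : (τ \ σ).card = τ.card - σ.card := Finset.card_sdiff_of_subset hs
  have hsc := Finset.card_le_card hs
  have e1 : bd Z (fun τ => if τ ∈ Z ∧ τ ∉ W ∧ τ.card = q + 1 ∧ σ ⊆ τ then w (τ \ σ) else 0) τ =
      bd (lk Z σ) w (τ \ σ) := by
    rw [bd_apply hτ, bd_apply hρ, mem_nb_lk hX hρ, hρu]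
    refine Finset.sum_congr rfl fun p hp => ?_
    have h1 := (hX.mem_nb hτ).mp hp
    have h2 : insert p τ \ σ = insert p (τ \ σ) :=
      Finset.insert_sdiff_of_notMem τ (fun h => h1.1 (hs h))
    have h3 : p ∉ τ \ σ := fun h => h1.1 (Finset.mem_sdiff.mp h).1
    by_cases h4 : τ.card = q
    · rw [if_pos ⟨h1.2, hcof τ hτ hτW p hp, by rw [Finset.card_insert_of_notMem h1.1, h4],
        hs.trans (Finset.subset_insert p τ)⟩, h2]
    · rw [if_neg]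
      · refine (hw _ ?_).symm
        rintro ⟨_, h5⟩
        rw [Finset.card_insert_of_notMem h3] at h5
        omega
      · rintro ⟨_, _, h5, _⟩
        rw [Finset.card_insert_of_notMem h1.1] at h5
        omega
  rw [e1, hwz _ hρ', hz]
  simp only
  by_cases h4 : τ.card = q
  · rw [if_pos ⟨hρ', by omega⟩, hρu]
  · rw [if_neg, hf0' τ h4]
    rintro ⟨_, h5⟩
    omega

end SingerCub
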