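import Mathlib
import Pool.Agent.Lib_MP_394d50_cmb.BDefs
import Pool.Agent.Lib_MP_394d50_cmb.MDefs

/-!
# Piece BTOP: the top simplices of a homology manifold with boundary (about 250 lines)

This is a relative version of `Lib_MP_394d50_vs/LkTop.lean` (all the proofs there are short: copy the
file and change it as follows). Notation: `K = lk Z σ`, `L = lk W σ`, `A = Z \ W`. `A` is closed under
going up in `Z`: if `σ ⊆ τ ∈ Z`, `τ ∈ W`, `σ` not empty, then `σ ∈ W` (`hW.down`). For `σ ∈ Z`: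
`ρ ∈ K \ L` iff `ρ` is disjoint from `σ`, `ρ ∪ σ ∈ Z` and `ρ ∪ σ ∉ W`. `mem_nb_lk` (for `X = Z`) is used
unchanged. If `ρ ∈ K \ L` and `p ∈ nb K ρ` then `insert p ρ ∈ K \ L`. The relative cycles of `K \ L` are
the chains `z` with `∀ ρ ∈ K \ L, bd K z ρ = 0`.

* above (`lkTop_above`): a chain in `Ch (K \ L) k` with `m + 1 < k + σ.card` is zero (`hM.dim`).
* cyc (`lkTop_cyc`): for `σ ∈ Z` there is `z₀ ≠ 0` in `Ch (K \ L) (m + 1 - σ.card)`, a relative cycle, and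
  every relative cycle `z` in `Ch (K \ L) (m + 1 - σ.card)` is `0` or `z₀` (for `w = 0` we get
  `z ρ = 0`, or `z ρ + z₀ ρ = 0`, for all `ρ ∈ K \ L`; and `z`, `z₀` are zero outside `K \ L`).
* `pureR`: choose `τ ∈ Z`, `σ ⊆ τ` with the maximal number of vertices (`hX.cof_finite hσ`). Then
  `lk Z τ = {∅}` as in `HomMfd.pure`. If `τ ∈ W` then `∅ ∈ lk W τ` (`lkTop_empty`), `lk Z τ \ lk W τ` is
  empty, so every chain in `Ch (lk Z τ \ lk W τ) k` is zero, against `z₀ ≠ 0` in cyc. So `τ ∉ W`, and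
  `∅ ∉ lk W τ` (`∅ ∪ τ = τ`), and `τ.card = m + 1` as in `HomMfd.pure`: otherwise
  `Pi.single ∅ 1 ∈ Ch (lk Z τ \ lk W τ) 0` is a relative cycle, so it is the boundary (on `{∅}`) of an
  element of `Ch _ 1`, which is zero.
* `topR`: `τ ∈ Z`, `τ.card = m + 1`. `pureR` for `σ = τ` gives `τ' ∉ W` with `τ ⊆ τ'`, `τ'.card = m + 1`,
  so `τ' = τ` (`Finset.eq_of_subset_of_card_le`).
* `nb_twoR`: the proof of `HomMfd.nb_two` (all the simplices which contain `σ ∉ W` are not in `W`, so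
  `L = lk W σ` is empty (`hW.down`; `σ` is not empty by `hX.ne`), `K \ L = K`).
* `top_localR`: the proof of `HomMfd.top_local`, with
  `pull g ρ = if ρ ∈ lk Z σ ∧ ρ ∉ lk W σ ∧ ρ.card = m + 1 - σ.card then g (ρ ∪ σ) else 0`. For
  `ρ ∈ K \ L`, and `g` with `g τ = 0` for `τ.card ≠ m + 1`: `bd K (pull g) ρ = bd Z g (ρ ∪ σ)` as in
  `lkTop_pull_bd` (for `p ∈ nb Z (ρ ∪ σ)` we have `insert p ρ ∈ K \ L`). It is applied to `g = f` and to
  `g = onesT Z m`, for which `bd Z (onesT Z m) τ = 0` for all `τ ∈ Z`, `τ ∉ W` (as in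
  `HomMfd.ones_cycle`, by `nb_twoR`). The simplices with `m + 1` vertices are not in `W` by `topR`.
-/

namespace SingerCub

open SingerVS
open scoped Pointwise

variable {H P : Type} [Group H] [DecidableEq P] [MulAction H P] {Z W : Set (Finset P)} {m : ℕ}

/-- the relative chains of dimension above the top vanish -/
private theorem bTop_above (hM : BMfd m Z W) {σ : Finset P} {k : ℕ} (hk : m + 1 < k + σ.card)
    {w : Finset P → ZMod 2} (hw : w ∈ Ch (ZMod 2) (lk Z σ \ lk W σ) k) : w = 0 := by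
  funext ρ
  refine hw ρ ?_
  rintro ⟨h1, h2⟩
  have h3 := hM.dim _ h1.1.2
  rw [Finset.card_union_of_disjoint h1.1.1] at h3
  omega

private theorem bTop_cyc (hM : BMfd m Z W) {σ : Finset P} (hσ : σ ∈ Z) :
    ∃ z₀ : Finset P → ZMod 2, z₀ ≠ 0 ∧ z₀ ∈ Ch (ZMod 2) (lk Z σ \ lk W σ) (m + 1 - σ.card) ∧
      (∀ ρ ∈ lk Z σ \ lk W σ, bd (lk Z σ) z₀ ρ = 0) ∧
      ∀ z ∈ Ch (ZMod 2) (lk Z σ \ lk W σ) (m + 1 - σ.card),
        (∀ ρ ∈ lk Z σ \ lk W σ, bd (lk Z σ) z ρ = 0) → z = 0 ∨ z = z₀ := by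
  obtain ⟨_, z₀, h1, h2, h3, h4⟩ := hM.link σ hσ
  refine ⟨z₀, ?_, h1, h2, ?_⟩
  · intro h5
    refine h3 0 (Submodule.zero_mem _) fun ρ _ => ?_
    rw [map_zero, h5]
  · intro z hz hz0
    obtain ⟨w, hw, h6⟩ := h4 z hz hz0
    have h7 : w = 0 := bTop_above hM (k := m + 1 - σ.card + 1) (by
      have := hM.dim σ hσ
      omega) hw
    rw [h7, map_zero] at h6
    have h8 : ∀ ρ, ρ ∉ lk Z σ \ lk W σ → z ρ = 0 := fun ρ hρ => hz ρ fun h => hρ h.1
    have h9 : ∀ ρ, ρ ∉ lk Z σ \ lk W σ → z₀ ρ = 0 := fun ρ hρ => h1 ρ fun h => hρ h.1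
    rcases h6 with h6 | h6
    · left
      funext ρ
      by_cases hρ : ρ ∈ lk Z σ \ lk W σ
      · exact (h6 ρ hρ).symm
      · exact h8 ρ hρ
    · right
      funext ρ
      by_cases hρ : ρ ∈ lk Z σ \ lk W σ
      · have h10 : (0 : ZMod 2) = z ρ + z₀ ρ := h6 ρ hρ
        have h11 : z ρ + z₀ ρ + z₀ ρ = 0 + z₀ ρ := by rw [← h10]
        rwa [add_assoc, ZModModule.add_self, add_zero, zero_add] at h11
      · rw [h8 ρ hρ, h9 ρ hρ]

/-- Every simplex is contained in a simplex of dimension `m` outside the boundary. -/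
theorem pureR (hX : FreeCx H Z) (hW : SubCx H Z W) (hM : BMfd m Z W) {σ : Finset P} (hσ : σ ∈ Z) :
    ∃ τ ∈ Z, τ ∉ W ∧ σ ⊆ τ ∧ τ.card = m + 1 := by
  classical
  have _ := hW
  obtain ⟨τ, ⟨hτ, hστ⟩, hmax⟩ := Set.exists_max_image {τ | τ ∈ Z ∧ σ ⊆ τ} Finset.card
    (hX.cof_finite hσ) ⟨σ, hσ, Finset.Subset.refl σ⟩
  have hle := hM.dim τ hτ
  have hK : ∀ ρ ∈ lk Z τ, ρ = ∅ := by
    intro ρ hρ
    have h1 := hmax (ρ ∪ τ) ⟨hρ.2, hστ.trans Finset.subset_union_right⟩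
    rw [Finset.card_union_of_disjoint hρ.1] at h1
    exact Finset.card_eq_zero.mp (by omega)
  have hτW : τ ∉ W := by
    intro h
    obtain ⟨z₀, h1, h2, -, -⟩ := bTop_cyc hM hτ
    apply h1
    funext ρ
    refine h2 ρ ?_
    rintro ⟨⟨h3, h4⟩, -⟩
    rw [hK ρ h3] at h4
    exact h4 ⟨Finset.disjoint_empty_left τ, by rwa [Finset.empty_union]⟩
  refine ⟨τ, hτ, hτW, hστ, ?_⟩
  by_contra hne
  have hE : (∅ : Finset P) ∈ lk Z τ \ lk W τ :=
    ⟨⟨Finset.disjoint_empty_left τ, by rwa [Finset.empty_union]⟩, fun h => hτW (by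
      have := h.2
      rwa [Finset.empty_union] at this)⟩
  have hz : (Pi.single ∅ 1 : Finset P → ZMod 2) ∈ Ch (ZMod 2) (lk Z τ \ lk W τ) 0 := by
    intro ρ hρ
    have h2 : ρ ≠ ∅ := by
      rintro rfl
      exact hρ ⟨hE, Finset.card_empty⟩
    exact Pi.single_eq_of_ne h2 1
  have hb : ∀ ρ ∈ lk Z τ \ lk W τ, bd (lk Z τ) (Pi.single ∅ 1 : Finset P → ZMod 2) ρ = 0 := by
    intro ρ hρ
    rw [bd_apply hρ.1]
    refine Finset.sum_eq_zero fun p _ => ?_
    exact Pi.single_eq_of_ne (Finset.insert_ne_empty p ρ) 1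
  obtain ⟨w, hw, hw'⟩ := (hM.link τ hτ).1 0 (by omega) _ hz hb
  have hw0 : w = 0 := by
    funext ρ
    refine hw ρ ?_
    rintro ⟨h3, h4⟩
    rw [hK ρ h3.1, Finset.card_empty] at h4
    exact absurd h4 (by norm_num)
  have h5 := hw' ∅ hE
  rw [hw0, map_zero, Pi.single_eq_same] at h5
  exact zero_ne_one h5

/-- The simplices of dimension `m` are not in the boundary. -/
theorem topR (hX : FreeCx H Z) (hW : SubCx H Z W) (hM : BMfd m Z W) {τ : Finset P} (hτ : τ ∈ Z)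
    (hc : τ.card = m + 1) : τ ∉ W := by
  obtain ⟨τ', _, h2, h3, h4⟩ := pureR hX hW hM hτ
  rwa [Finset.eq_of_subset_of_card_le h3 (by omega)]

/-- Every simplex of dimension `m - 1` outside the boundary is contained in exactly two simplices of
dimension `m`. -/
theorem nb_twoR (hX : FreeCx H Z) (hW : SubCx H Z W) (hM : BMfd m Z W) {σ : Finset P} (hσ : σ ∈ Z)
    (hσW : σ ∉ W) (hc : σ.card = m) : (nb Z σ).card = 2 := by
  classical
  have hL : lk W σ = ∅ := by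
    ext ρ
    refine ⟨fun h => ?_, fun h => absurd h (Set.notMem_empty _)⟩
    exact absurd (hW.down _ h.2 σ Finset.subset_union_right (hX.ne σ hσ)) hσW
  obtain ⟨z₀, h1, h2, h3, h4⟩ := bTop_cyc hM hσ
  have hm : m + 1 - σ.card = 1 := by omega
  rw [hm] at h2 h4
  rw [hL, Set.sdiff_empty] at h2 h3 h4
  have hK1 : ∀ p ∈ nb Z σ, {p} ∈ lk Z σ := by
    intro p hp
    have h5 := (hX.mem_nb hσ).mp hp
    exact ⟨Finset.disjoint_singleton_left.mpr h5.1, h5.2⟩
  have hch : ∀ p ∈ nb Z σ, (Pi.single {p} 1 : Finset P → ZMod 2) ∈ Ch (ZMod 2) (lk Z σ) 1 := by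
    intro p hp ρ hρ
    refine Pi.single_eq_of_ne ?_ 1
    rintro rfl
    exact hρ ⟨hK1 p hp, Finset.card_singleton p⟩
  have hpair : ∀ p ∈ nb Z σ, ∀ q ∈ nb Z σ, p ≠ q →
      (Pi.single {p} 1 + Pi.single {q} 1 : Finset P → ZMod 2) = z₀ := by
    intro p hp q hq hpq
    rcases h4 _ (Submodule.add_mem _ (hch p hp) (hch q hq)) (by
      intro ρ _
      rw [map_add, lkTop_bd_single hX hσ hp, lkTop_bd_single hX hσ hq, lkTop_char]
      rfl) with h5 | h5
    · exfalso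
      have h6 := congrFun h5 {p}
      rw [Pi.add_apply, Pi.single_eq_same,
        Pi.single_eq_of_ne (fun h => hpq (Finset.singleton_injective h)), add_zero] at h6
      exact one_ne_zero h6
    · exact h5
  have hne : (nb Z σ).Nonempty := by
    obtain ⟨τ, hτ, _, hστ, hτc⟩ := pureR hX hW hM hσ
    obtain ⟨p, hp⟩ := Finset.card_pos.mp (show 0 < (τ \ σ).card by
      rw [Finset.card_sdiff_of_subset hστ]
      omega)
    rw [Finset.mem_sdiff] at hp
    exact ⟨p, (hX.mem_nb hσ).mpr ⟨hp.2, hX.down τ hτ _ (Finset.insert_subset hp.1 hστ)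
      (Finset.insert_nonempty p σ)⟩⟩
  have hpos := Finset.card_pos.mpr hne
  have hn1 : (nb Z σ).card ≠ 1 := by
    intro h5
    obtain ⟨p, hp⟩ := Finset.card_eq_one.mp h5
    apply h1
    have h6 := h3 ∅ (lkTop_empty hσ)
    rw [bd_apply (lkTop_empty hσ), mem_nb_lk hX (lkTop_empty hσ), Finset.empty_union, hp,
      Finset.sum_singleton, insert_empty_eq] at h6
    funext ρ
    by_cases hρ : ρ ∈ lk Z σ ∧ ρ.card = 1
    · obtain ⟨q, hq⟩ := Finset.card_eq_one.mp hρ.2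
      have h7 := hρ.1
      rw [hq] at h7
      have h8 : q ∈ nb Z σ := (hX.mem_nb hσ).mpr
        ⟨Finset.disjoint_singleton_left.mp h7.1, h7.2⟩
      rw [hp, Finset.mem_singleton] at h8
      rw [hq, h8]
      exact h6
    · exact h2 ρ hρ
  have hn3 : ¬ 2 < (nb Z σ).card := by
    intro h5
    obtain ⟨p, q, r, hp, hq, hr, hpq, hpr, hqr⟩ := Finset.two_lt_card_iff.mp h5
    have h6 := (hpair p hp q hq hpq).trans (hpair p hp r hr hpr).symm
    have h7 := congrFun h6 {q}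
    rw [Pi.add_apply, Pi.add_apply, Pi.single_eq_same (M := fun _ : Finset P => ZMod 2) ({q} : Finset P) 1,
      Pi.single_eq_of_ne (fun h => hpq.symm (Finset.singleton_injective h)),
      Pi.single_eq_of_ne (fun h => hqr (Finset.singleton_injective h)), add_zero, zero_add] at h7
    exact one_ne_zero h7
  omega

private theorem bTop_ones (hX : FreeCx H Z) (hW : SubCx H Z W) (hM : BMfd m Z W) {σ : Finset P}
    (hσ : σ ∈ Z) (hσW : σ ∉ W) : bd Z (onesT Z m) σ = 0 := by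
  classical
  rw [bd_apply hσ]
  by_cases hc : σ.card = m
  · rw [Finset.sum_congr rfl (g := fun _ => (1 : ZMod 2))]
    · rw [Finset.sum_const, nb_twoR hX hW hM hσ hσW hc]
      decide
    · intro p hp
      have h1 := (hX.mem_nb hσ).mp hp
      unfold onesT
      rw [if_pos ⟨h1.2, by rw [Finset.card_insert_of_notMem h1.1, hc]⟩]
  · refine Finset.sum_eq_zero fun p hp => ?_
    have h1 := (hX.mem_nb hσ).mp hp
    unfold onesT
    refine if_neg ?_
    rintro ⟨_, h2⟩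
    rw [Finset.card_insert_of_notMem h1.1] at h2
    omega

open scoped Classical in
/-- the restriction of a function to the relative link of `σ` -/
private noncomputable def bTop_pull (Z W : Set (Finset P)) (σ : Finset P) (k : ℕ)
    (g : Finset P → ZMod 2) : Finset P → ZMod 2 :=
  fun ρ => if ρ ∈ lk Z σ \ lk W σ ∧ ρ.card = k then g (ρ ∪ σ) else 0

private theorem bTop_pull_ch (σ : Finset P) (k : ℕ) (g : Finset P → ZMod 2) :
    bTop_pull Z W σ k g ∈ Ch (ZMod 2) (lk Z σ \ lk W σ) k := fun _ hρ => if_neg hρ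

private theorem bTop_pull_bd (hX : FreeCx H Z) (hW : SubCx H Z W) {σ : Finset P} {q k : ℕ}
    (hk : k + σ.card = q) {g : Finset P → ZMod 2} (hg0 : ∀ τ, τ.card ≠ q → g τ = 0) {ρ : Finset P}
    (hρ : ρ ∈ lk Z σ \ lk W σ) : bd (lk Z σ) (bTop_pull Z W σ k g) ρ = bd Z g (ρ ∪ σ) := by
  classical
  have hρ1 := hρ.1
  rw [bd_apply hρ1, bd_apply hρ1.2, mem_nb_lk hX hρ1]
  refine Finset.sum_congr rfl fun p hp => ?_
  have h1 := (hX.mem_nb hρ1.2).mp hp
  rw [Finset.mem_union, not_or] at h1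
  have h2 : insert p ρ ∈ lk Z σ := ⟨Finset.disjoint_insert_left.mpr ⟨h1.1.2, hρ1.1⟩, by
    rw [Finset.insert_union]
    exact h1.2⟩
  have h2' : insert p ρ ∈ lk Z σ \ lk W σ := by
    refine ⟨h2, fun h => hρ.2 ⟨hρ1.1, ?_⟩⟩
    exact hW.down _ h.2 _ (Finset.union_subset_union_left (Finset.subset_insert p ρ))
      (hX.ne _ hρ1.2)
  unfold bTop_pull
  by_cases h3 : (insert p ρ).card = k
  · rw [if_pos ⟨h2', h3⟩, Finset.insert_union]
  · rw [if_neg (fun h => h3 h.2), ← Finset.insert_union]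
    refine (hg0 _ ?_).symm
    rw [Finset.card_union_of_disjoint h2.1]
    omega

private theorem bTop_pull_apply {σ τ : Finset P} (hτ : τ ∈ Z) (hτW : τ ∉ W) (hστ : σ ⊆ τ) {k : ℕ}
    (hk : k + σ.card = τ.card) (g : Finset P → ZMod 2) :
    bTop_pull Z W σ k g (τ \ σ) = g τ := by
  unfold bTop_pull
  rw [if_pos, Finset.sdiff_union_of_subset hστ]
  refine ⟨⟨⟨Finset.sdiff_disjoint, ?_⟩, ?_⟩, ?_⟩
  · rw [Finset.sdiff_union_of_subset hστ]
    exact hτ
  · intro h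
    apply hτW
    have h1 := h.2
    rwa [Finset.sdiff_union_of_subset hστ] at h1
  · rw [Finset.card_sdiff_of_subset hστ]
    omega

/-- A chain of top dimension whose boundary vanishes near `σ`, outside `W`, is constant near `σ`. -/
theorem top_localR (hX : FreeCx H Z) (hW : SubCx H Z W) (hM : BMfd m Z W) {σ : Finset P}
    (hσ : σ ∈ Z) {f : Finset P → ZMod 2} (hf : ∀ τ ∈ Z, τ ∉ W → σ ⊆ τ → bd Z f τ = 0)
    (hf0 : ∀ τ, τ.card ≠ m + 1 → f τ = 0) :
    ∀ τ ∈ Z, ∀ τ' ∈ Z, σ ⊆ τ → σ ⊆ τ' → τ.card = m + 1 → τ'.card = m + 1 → f τ = f τ' := by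
  classical
  obtain ⟨z₀, h1, h2, h3, h4⟩ := bTop_cyc hM hσ
  have hle := hM.dim σ hσ
  have hm : m + 1 - σ.card + σ.card = m + 1 := by omega
  have hout : ∀ ρ ∈ lk Z σ \ lk W σ, ρ ∪ σ ∉ W := fun ρ hρ h => hρ.2 ⟨hρ.1.1, h⟩
  have hone : bTop_pull Z W σ (m + 1 - σ.card) (onesT Z m) = z₀ := by
    rcases h4 _ (bTop_pull_ch σ _ (onesT Z m)) (by
      intro ρ hρ
      rw [bTop_pull_bd hX hW hm _ hρ]
      · exact bTop_ones hX hW hM hρ.1.2 (hout ρ hρ)
      · intro τ hτ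
        exact if_neg (fun h => hτ h.2)) with h5 | h5
    · exfalso
      obtain ⟨τ, hτ, hτW, hστ, hτc⟩ := pureR hX hW hM hσ
      have h6 := congrFun h5 (τ \ σ)
      rw [bTop_pull_apply hτ hτW hστ (by omega)] at h6
      unfold onesT at h6
      rw [if_pos ⟨hτ, hτc⟩] at h6
      exact one_ne_zero h6
    · exact h5
  intro τ hτ τ' hτ' hs hs' hc hc'
  have hw := topR hX hW hM hτ hc
  have hw' := topR hX hW hM hτ' hc'
  rcases h4 _ (bTop_pull_ch σ _ f) (by
      intro ρ hρ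
      rw [bTop_pull_bd hX hW hm hf0 hρ]
      exact hf _ hρ.1.2 (hout ρ hρ) Finset.subset_union_right) with h5 | h5
  · rw [← bTop_pull_apply hτ hw hs (k := m + 1 - σ.card) (by omega) f,
      ← bTop_pull_apply hτ' hw' hs' (k := m + 1 - σ.card) (by omega) f, h5]
    rfl
  · rw [← hone] at h5
    rw [← bTop_pull_apply hτ hw hs (k := m + 1 - σ.card) (by omega) f,
      ← bTop_pull_apply hτ' hw' hs' (k := m + 1 - σ.card) (by omega) f, h5,
      bTop_pull_apply hτ hw hs (by omega), bTop_pull_apply hτ' hw' hs' (by omega)]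
    unfold onesT
    rw [if_pos ⟨hτ, hc⟩, if_pos ⟨hτ', hc'⟩]

end SingerCub
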