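import Mathlib
import Pool.Agent.Lib_MP_394d50_cmb.BTop
import Pool.Agent.Lib_MP_394d50_cmb.BCol

/-!
# Piece BZIG: Lefschetz duality for an acyclic homology manifold with boundary (about 330 lines)

This is a relative version of `Lib_MP_394d50_vs/LkZig.lean` (copy that file with `X = Z`, `n = m` and
change it as follows; only the first half of `HomMfd.lfR`, `k ≤ n`, is needed, not the fundamental
cycle).

Let `PairR p q` be the functions `F ∈ PairL Z p q` with `F σ τ = 0` for all `τ ∈ W` (`σ` may be in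
`W`). Let `D2R F σ τ = if τ ∈ W then 0 else D2L Z F σ τ`. If `τ ∉ W`, `τ ∈ Z`, `x ∈ nb Z τ` then
`insert x τ ∈ Z`, `insert x τ ∉ W` (`hW.down`, `hX.ne`). Facts:

* `D1L Z` maps `PairR p q` to `PairR (p + 1) q` (`D1L_mem`; `D1L Z F σ τ` depends only on the values
  `F s τ`, so it vanishes for `τ ∈ W`), and `D1L Z (D1L Z F) = 0` (`D1L_D1L`).
* `D2R` maps `PairR p (q + 1)` to `PairR p q` (`D2L_mem`); it is additive.
* `D2R (D2R F) = 0`: at `τ ∉ W` the value is `∑_{x ∈ nb Z τ} D2R F σ (insert x τ)`, and this is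
  `∑ D2L Z F σ (insert x τ) = D2L Z (D2L Z F) σ τ = 0` (`D2L_D2L`).
* `D1L Z (D2R F) = D2R (D1L Z F)`: at `τ ∉ W` by `D1L_D2L` (`D1L Z (D2R F) σ τ` is a sum over the
  values `D2R F s τ = D2L Z F s τ` for this `τ`), at `τ ∈ W` both are zero.
* rows: for `2 ≤ p`, `F ∈ PairR p q`, `D1L Z F = 0` there is `G ∈ PairR (p - 1) q` with `D1L Z G = F`: take
  `G₀` from `rowL` and `G σ τ = if τ ∈ W then 0 else G₀ σ τ`.
* columns (`lz_col`): for `q ≤ m`, `F ∈ PairR p q`, `D2R F = 0` there is `G ∈ PairR p (q + 1)` with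
  `D2R G = F`, by `colR` (for every `σ ∈ Z` with `p` vertices).
* top (`lz_top`): for `F ∈ PairR p (m + 1)`, `D2R F = 0` there is `c ∈ Ch (ZMod 2) Z p` with
  `F σ τ = c σ` for all `σ ∈ Z` with `p` vertices and `τ ∈ Z`, `σ ⊆ τ`, `τ.card = m + 1` (`pureR`,
  `top_localR`).
* `lz_T_top`: for `2 ≤ p`, `F ∈ PairR p (m + 1)`, `D1L Z F = 0`, `D2R F = 0` there is
  `u ∈ PairR (p - 1) (m + 1)` with `D1L Z u = F` and `D2R u = 0`: as there, with `c` from top, `dl Z c = 0`,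
  `b ∈ Ch (ZMod 2) Z (p - 1)` with `dl Z b = c` (`hac.co_exact`, unchanged: `b`, `c` are absolute
  cochains of `Z`), `u σ τ = b σ` if `σ ∈ Z`, `σ.card = p - 1`, `τ ∈ Z`, `τ.card = m + 1`, `σ ⊆ τ`, and `0`
  otherwise (it vanishes for `τ ∈ W` by `topR`). `D2R u σ τ = 0`: for `τ ∈ W` by definition, for `τ ∉ W`
  by `nb_twoR`.
* the zigzag `lz_S`: for `q + d = m`, `1 ≤ p`, `F ∈ PairR p q`, `D1L Z F = 0`, `D2R F = 0` there is
  `y ∈ PairR p (q + 1)` with `D1L Z y = 0`, `D2R y = F`: unchanged.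

Conclusion. Let `1 ≤ k ≤ m`, `c ∈ Ch (ZMod 2) (Z \ W) k` with `bd Z c σ = 0` for `σ ∈ Z \ W`. Put
`E σ τ = c τ` if `σ ∈ Z`, `σ.card = 1`, `σ ⊆ τ` and `0` otherwise (`lzE`). It is in `PairR 1 k`,
`D1L Z E = 0`, `D2R E = 0`. The zigzag gives `y ∈ PairR 1 (k + 1)`, `D1L Z y = 0`, `D2R y = E`. Choose a
vertex `v τ` of every `τ ∈ Z` and put `b τ = y {v τ} τ` if `τ ∈ Z`, `τ ∉ W`, `τ.card = k + 1`, and `0`
otherwise. Then `bd Z b τ = c τ` for all `τ ∈ Z \ W` as in the proof of `HomMfd.lfR` (`row_zero`).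
-/

namespace SingerCub

open SingerVS
open scoped Pointwise

variable {H P : Type} [Group H] [DecidableEq P] [MulAction H P] {Z W : Set (Finset P)} {m : ℕ}

private theorem bz_two {M : Type} [AddCommGroup M] [Module (ZMod 2) M] (x : M) : x + x = 0 :=
  ZModModule.add_self x

/-- Relative pairs. -/
private def PairR (Z W : Set (Finset P)) (p q : ℕ) (F : Finset P → Finset P → ZMod 2) : Prop :=
  F ∈ PairL Z p q ∧ ∀ σ, ∀ τ ∈ W, F σ τ = 0

open scoped Classical in
/-- The relative boundary in `τ`. -/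
private noncomputable def D2R (Z W : Set (Finset P)) (F : Finset P → Finset P → ZMod 2) :
    Finset P → Finset P → ZMod 2 := fun σ τ => if τ ∈ W then 0 else D2L Z F σ τ

private theorem D2R_in {F : Finset P → Finset P → ZMod 2} {σ τ : Finset P} (h : τ ∈ W) :
    D2R Z W F σ τ = 0 := if_pos h

private theorem D2R_out {F : Finset P → Finset P → ZMod 2} {σ τ : Finset P} (h : τ ∉ W) :
    D2R Z W F σ τ = D2L Z F σ τ := if_neg h

private theorem D2R_add (F G : Finset P → Finset P → ZMod 2) :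
    D2R Z W (F + G) = D2R Z W F + D2R Z W G := by
  funext σ τ
  rw [Pi.add_apply, Pi.add_apply]
  by_cases h : τ ∈ W
  · rw [D2R_in h, D2R_in h, D2R_in h, add_zero]
  · rw [D2R_out h, D2R_out h, D2R_out h, map_add]
    rfl

private theorem bz_cof (hX : FreeCx H Z) (hW : SubCx H Z W) {τ : Finset P} (hτ : τ ∈ Z)
    (hτW : τ ∉ W) (p : P) : insert p τ ∉ W := fun h =>
  hτW (hW.down _ h τ (Finset.subset_insert p τ) (hX.ne τ hτ))

private theorem PairR.add {p q : ℕ} {F G : Finset P → Finset P → ZMod 2}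
    (hF : PairR Z W p q F) (hG : PairR Z W p q G) : PairR Z W p q (F + G) := by
  refine ⟨add_mem hF.1 hG.1, fun σ τ hτ => ?_⟩
  rw [Pi.add_apply, Pi.add_apply, hF.2 σ τ hτ, hG.2 σ τ hτ, add_zero]

private theorem D1R_mem (hX : FreeCx H Z) {p q : ℕ} {F : Finset P → Finset P → ZMod 2}
    (hF : PairR Z W p q F) : PairR Z W (p + 1) q (D1L Z F) := by
  classical
  refine ⟨D1L_mem hX hF.1, fun σ τ hτ => ?_⟩
  rw [D1L_apply]
  have e : (fun s => F s τ) = (0 : Finset P → ZMod 2) := by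
    funext s
    exact hF.2 s τ hτ
  rw [e, map_zero]
  split_ifs
  · rfl
  · rfl

private theorem D2R_mem (hX : FreeCx H Z) {p q : ℕ} {F : Finset P → Finset P → ZMod 2}
    (hF : PairR Z W p (q + 1) F) : PairR Z W p q (D2R Z W F) := by
  refine ⟨fun σ τ h => ?_, fun σ τ hτ => D2R_in hτ⟩
  by_cases hτ : τ ∈ W
  · exact D2R_in hτ
  · rw [D2R_out hτ]
    exact D2L_mem hX hF.1 σ τ h

private theorem D2R_D2R (hX : FreeCx H Z) (hW : SubCx H Z W) {p q : ℕ}
    {F : Finset P → Finset P → ZMod 2} (hF : PairR Z W p q F) :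
    D2R Z W (D2R Z W F) = 0 := by
  classical
  funext σ τ
  by_cases hτW : τ ∈ W
  · exact D2R_in hτW
  · rw [D2R_out hτW]
    have h1 := congrFun (congrFun (D2L_D2L hX hF.1) σ) τ
    rw [D2L_apply] at h1 ⊢
    split_ifs with hs
    · rw [if_pos hs] at h1
      by_cases hτ : τ ∈ Z
      · rw [bd_apply hτ] at h1 ⊢
        refine Eq.trans (Finset.sum_congr rfl fun x _ => ?_) h1
        exact D2R_out (bz_cof hX hW hτ hτW x)
      · exact bd_apply_not hτ
    · rfl

private theorem D1L_D2R (hX : FreeCx H Z) {p q : ℕ}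
    {F : Finset P → Finset P → ZMod 2} (hF : PairR Z W p q F) :
    D1L Z (D2R Z W F) = D2R Z W (D1L Z F) := by
  classical
  funext σ τ
  by_cases hτW : τ ∈ W
  · rw [D2R_in hτW, D1L_apply]
    have e : (fun s => D2R Z W F s τ) = (0 : Finset P → ZMod 2) := by
      funext s
      exact D2R_in hτW
    rw [e, map_zero]
    split_ifs
    · rfl
    · rfl
  · rw [D2R_out hτW, ← D1L_D2L hX hF.1, D1L_apply, D1L_apply]
    have e : (fun s => D2R Z W F s τ) = fun s => D2L Z F s τ := by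
      funext s
      exact D2R_out hτW
    rw [e]

private theorem bz_row (hX : FreeCx H Z) {p q : ℕ} (hp : 2 ≤ p)
    {F : Finset P → Finset P → ZMod 2} (hF : PairR Z W p q F) (h0 : D1L Z F = 0) :
    ∃ G, PairR Z W (p - 1) q G ∧ D1L Z G = F := by
  classical
  obtain ⟨G, hG, hGF⟩ := rowL hX hp hF.1 h0
  refine ⟨fun σ τ => if τ ∈ W then 0 else G σ τ, ⟨fun σ τ h => ?_, fun σ τ hτ => if_pos hτ⟩, ?_⟩
  · show (if τ ∈ W then 0 else G σ τ) = 0
    split_ifs
    · rfl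
    · exact hG σ τ h
  · funext σ τ
    by_cases hτW : τ ∈ W
    · rw [hF.2 σ τ hτW, D1L_apply]
      have e : (fun s => (fun σ τ => if τ ∈ W then 0 else G σ τ) s τ) =
          (0 : Finset P → ZMod 2) := by
        funext s
        exact if_pos hτW
      rw [e, map_zero]
      split_ifs
      · rfl
      · rfl
    · rw [← hGF, D1L_apply, D1L_apply]
      have e : (fun s => (fun σ τ => if τ ∈ W then 0 else G σ τ) s τ) = fun s => G s τ := by
        funext s
        exact if_neg hτW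
      rw [e]

/-- Exactness of the columns. -/
private theorem bz_col (hX : FreeCx H Z) (hW : SubCx H Z W) (hM : BMfd m Z W) {p q : ℕ}
    (hq : q ≤ m) {F : Finset P → Finset P → ZMod 2} (hF : PairR Z W p q F)
    (h0 : D2R Z W F = 0) : ∃ G, PairR Z W p (q + 1) G ∧ D2R Z W G = F := by
  classical
  have h1 : ∀ σ, ∃ g : Finset P → ZMod 2, σ ∈ Z ∧ σ.card = p →
      (∀ τ, ¬ (τ ∈ Z ∧ τ ∉ W ∧ τ.card = q + 1 ∧ σ ⊆ τ) → g τ = 0) ∧
      ∀ τ ∈ Z, τ ∉ W → σ ⊆ τ → bd Z g τ = F σ τ := by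
    intro σ
    by_cases hσ : σ ∈ Z ∧ σ.card = p
    · obtain ⟨g, hg1, hg2⟩ := colR hX hW hM hσ.1 hq (f := F σ)
        (fun τ hτ => by
          by_cases hτW : τ ∈ W
          · exact hF.2 σ τ hτW
          · exact hF.1 σ τ fun h => hτ ⟨h.2.2.1, hτW, h.2.2.2.1, h.2.2.2.2⟩)
        (fun τ hτ hτW hs => by
          have h2 := congrFun (congrFun h0 σ) τ
          rw [D2R_out hτW, D2L_apply, if_pos hs] at h2
          exact h2)
      exact ⟨g, fun _ => ⟨hg1, hg2⟩⟩
    · exact ⟨0, fun h => absurd h hσ⟩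
  choose g hg using h1
  refine ⟨fun σ τ => if σ ∈ Z ∧ σ.card = p then g σ τ else 0, ⟨?_, ?_⟩, ?_⟩
  · intro σ τ h
    show (if σ ∈ Z ∧ σ.card = p then g σ τ else 0) = 0
    by_cases hσ : σ ∈ Z ∧ σ.card = p
    · rw [if_pos hσ]
      exact (hg σ hσ).1 τ fun h2 => h ⟨hσ.1, hσ.2, h2.1, h2.2.2.1, h2.2.2.2⟩
    · rw [if_neg hσ]
  · intro σ τ hτW
    show (if σ ∈ Z ∧ σ.card = p then g σ τ else 0) = 0
    by_cases hσ : σ ∈ Z ∧ σ.card = p
    · rw [if_pos hσ]
      exact (hg σ hσ).1 τ fun h2 => h2.2.1 hτW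
    · rw [if_neg hσ]
  · funext σ τ
    by_cases hτW : τ ∈ W
    · rw [D2R_in hτW, hF.2 σ τ hτW]
    rw [D2R_out hτW, D2L_apply]
    by_cases hσ : σ ∈ Z ∧ σ.card = p
    · by_cases hs : σ ⊆ τ
      · rw [if_pos hs]
        have e : (fun τ => if σ ∈ Z ∧ σ.card = p then g σ τ else 0) = g σ := by
          funext t
          rw [if_pos hσ]
        show bd Z (fun τ => if σ ∈ Z ∧ σ.card = p then g σ τ else 0) τ = F σ τ
        rw [e]
        by_cases hτ : τ ∈ Z
        · exact (hg σ hσ).2 τ hτ hτW hs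
        · rw [bd_apply_not hτ, hF.1 σ τ fun h => hτ h.2.2.1]
      · rw [if_neg hs, hF.1 σ τ fun h => hs h.2.2.2.2]
    · rw [hF.1 σ τ fun h => hσ ⟨h.1, h.2.1⟩]
      by_cases hs : σ ⊆ τ
      · have e : (fun τ => if σ ∈ Z ∧ σ.card = p then g σ τ else 0) =
            (0 : Finset P → ZMod 2) := by
          funext t
          rw [if_neg hσ]
          rfl
        rw [if_pos hs]
        show bd Z (fun τ => if σ ∈ Z ∧ σ.card = p then g σ τ else 0) τ = 0
        rw [e, map_zero]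
        rfl
      · rw [if_neg hs]

/-- The kernel in the top row. -/
private theorem bz_top (hX : FreeCx H Z) (hW : SubCx H Z W) (hM : BMfd m Z W) {p : ℕ}
    {F : Finset P → Finset P → ZMod 2} (hF : PairR Z W p (m + 1) F) (h0 : D2R Z W F = 0) :
    ∃ c ∈ Ch (ZMod 2) Z p, ∀ σ ∈ Z, σ.card = p → ∀ τ ∈ Z, σ ⊆ τ → τ.card = m + 1 →
      F σ τ = c σ := by
  classical
  have h1 : ∀ σ, ∃ τ, σ ∈ Z → τ ∈ Z ∧ σ ⊆ τ ∧ τ.card = m + 1 := by
    intro σ
    by_cases hσ : σ ∈ Z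
    · obtain ⟨τ, h1, _, h3, h4⟩ := pureR hX hW hM hσ
      exact ⟨τ, fun _ => ⟨h1, h3, h4⟩⟩
    · exact ⟨∅, fun h => absurd h hσ⟩
  choose t ht using h1
  refine ⟨fun σ => if σ ∈ Z ∧ σ.card = p then F σ (t σ) else 0, fun σ hσ => if_neg hσ, ?_⟩
  intro σ hσ hc τ hτ hs hcτ
  show F σ τ = if σ ∈ Z ∧ σ.card = p then F σ (t σ) else 0
  rw [if_pos ⟨hσ, hc⟩]
  refine top_localR hX hW hM hσ (f := F σ) ?_ ?_ τ hτ (t σ) (ht σ hσ).1 hs (ht σ hσ).2.1 hcτ
    (ht σ hσ).2.2
  · intro τ' _ hτW hs'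
    have h2 := congrFun (congrFun h0 σ) τ'
    rw [D2R_out hτW, D2L_apply, if_pos hs'] at h2
    exact h2
  · intro τ' hτ'
    exact hF.1 σ τ' fun h => hτ' h.2.2.2.1

private theorem bz_T_top (hX : FreeCx H Z) (hW : SubCx H Z W) (hac : Acyc Z) (hM : BMfd m Z W)
    {p : ℕ} (hp : 2 ≤ p) {F : Finset P → Finset P → ZMod 2} (hF : PairR Z W p (m + 1) F)
    (h1 : D1L Z F = 0) (h2 : D2R Z W F = 0) :
    ∃ u, PairR Z W (p - 1) (m + 1) u ∧ D1L Z u = F ∧ D2R Z W u = 0 := by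
  classical
  obtain ⟨c, hc, hcF⟩ := bz_top hX hW hM hF h2
  have hdc : dl Z c = 0 := by
    funext σ
    by_cases hσ : σ ∈ Z
    · by_cases hσc : σ.card = p + 1
      · obtain ⟨τ, hτ, _, hs, hcτ⟩ := pureR hX hW hM hσ
        have h3 := congrFun (congrFun h1 σ) τ
        rw [D1L_apply, if_pos hs, dl_apply hσ] at h3
        rw [dl_apply hσ]
        refine Eq.trans (Finset.sum_congr rfl fun x hx => ?_) h3
        have hxX : σ.erase x ∈ Z := hX.down σ hσ _ (Finset.erase_subset x σ) (by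
          rw [← Finset.card_pos, Finset.card_erase_of_mem hx]
          omega)
        exact (hcF _ hxX (by rw [Finset.card_erase_of_mem hx]; omega) τ hτ
          ((Finset.erase_subset x σ).trans hs) hcτ).symm
      · exact (hX.ch_dl hc) σ fun h => hσc h.2
    · exact dl_apply_not hσ
  obtain ⟨b, hb, hbc⟩ := hac.co_exact hX hp hc hdc
  refine ⟨fun σ τ => if σ ∈ Z ∧ σ.card = p - 1 ∧ τ ∈ Z ∧ τ.card = m + 1 ∧ σ ⊆ τ then b σ else 0,
    ⟨fun σ τ h => if_neg h, fun σ τ hτW => if_neg fun h => topR hX hW hM h.2.2.1 h.2.2.2.1 hτW⟩,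
    ?_, ?_⟩
  · funext σ τ
    rw [D1L_apply]
    by_cases hall : σ ∈ Z ∧ σ.card = p ∧ τ ∈ Z ∧ τ.card = m + 1 ∧ σ ⊆ τ
    · obtain ⟨hσ, hσc, hτ, hτc, hs⟩ := hall
      rw [if_pos hs, dl_apply hσ, hcF σ hσ hσc τ hτ hs hτc, ← hbc, dl_apply hσ]
      refine Finset.sum_congr rfl fun x hx => ?_
      have hxc : (σ.erase x).card = p - 1 := by rw [Finset.card_erase_of_mem hx, hσc]
      have hxX : σ.erase x ∈ Z := hX.down σ hσ _ (Finset.erase_subset x σ) (by
        rw [← Finset.card_pos, hxc]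
        omega)
      exact if_pos ⟨hxX, hxc, hτ, hτc, (Finset.erase_subset x σ).trans hs⟩
    · rw [hF.1 σ τ hall]
      split_ifs with hs
      · by_cases hσ : σ ∈ Z
        · rw [dl_apply hσ]
          refine Finset.sum_eq_zero fun x hx => if_neg ?_
          rintro ⟨_, hxc, hτ, hτc, _⟩
          rw [Finset.card_erase_of_mem hx] at hxc
          exact hall ⟨hσ, by omega, hτ, hτc, hs⟩
        · exact dl_apply_not hσ
      · rfl
  · funext σ τ
    by_cases hτW : τ ∈ W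
    · exact D2R_in hτW
    rw [D2R_out hτW, D2L_apply]
    split_ifs with hs
    · by_cases hall : σ ∈ Z ∧ σ.card = p - 1 ∧ τ ∈ Z ∧ τ.card = m
      · obtain ⟨hσ, hσc, hτ, hτc⟩ := hall
        rw [bd_apply hτ]
        have e : ∀ x ∈ nb Z τ, (if σ ∈ Z ∧ σ.card = p - 1 ∧ insert x τ ∈ Z ∧
            (insert x τ).card = m + 1 ∧ σ ⊆ insert x τ then b σ else 0) = b σ := by
          intro x hx
          obtain ⟨hx1, hx2⟩ := (hX.mem_nb hτ).mp hx
          exact if_pos ⟨hσ, hσc, hx2, by rw [Finset.card_insert_of_notMem hx1, hτc],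
            hs.trans (Finset.subset_insert x τ)⟩
        rw [Finset.sum_congr rfl e, Finset.sum_const, nb_twoR hX hW hM hτ hτW hτc, two_smul]
        exact bz_two _
      · by_cases hτ : τ ∈ Z
        · rw [bd_apply hτ]
          refine Finset.sum_eq_zero fun x hx => if_neg ?_
          rintro ⟨h3, h4, _, h6, _⟩
          rw [Finset.card_insert_of_notMem ((hX.mem_nb hτ).mp hx).1] at h6
          exact hall ⟨h3, h4, hτ, by omega⟩
        · exact bd_apply_not hτ
    · rfl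

/-- The zigzag. -/
private theorem bz_S (hX : FreeCx H Z) (hW : SubCx H Z W) (hac : Acyc Z) (hM : BMfd m Z W) :
    ∀ (d p q : ℕ), q + d = m → 1 ≤ p → ∀ F, PairR Z W p q F → D1L Z F = 0 → D2R Z W F = 0 →
      ∃ y, PairR Z W p (q + 1) y ∧ D1L Z y = 0 ∧ D2R Z W y = F := by
  intro d
  induction d with
  | zero =>
    intro p q hq hp F hF h1 h2
    obtain ⟨y, hy, hyF⟩ := bz_col hX hW hM (by omega) hF h2
    have hy1 : PairR Z W (p + 1) (q + 1) (D1L Z y) := D1R_mem hX hy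
    have hq' : q + 1 = m + 1 := by omega
    have hy2 : D2R Z W (D1L Z y) = 0 := by rw [← D1L_D2R hX hy, hyF, h1]
    rw [hq'] at hy1
    obtain ⟨u, hu, hu1, hu2⟩ := bz_T_top hX hW hac hM (p := p + 1) (by omega) hy1
      (D1L_D1L hX hy.1) hy2
    rw [← hq'] at hu
    refine ⟨y + u, hy.add hu, ?_, ?_⟩
    · rw [map_add, hu1]
      exact bz_two _
    · rw [D2R_add, hyF, hu2, add_zero]
  | succ d ih =>
    intro p q hq hp F hF h1 h2
    obtain ⟨y, hy, hyF⟩ := bz_col hX hW hM (by omega) hF h2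
    have hy1 : PairR Z W (p + 1) (q + 1) (D1L Z y) := D1R_mem hX hy
    have hy2 : D2R Z W (D1L Z y) = 0 := by rw [← D1L_D2R hX hy, hyF, h1]
    obtain ⟨z, hz, hz1, hz2⟩ := ih (p + 1) (q + 1) (by omega) (by omega) _ hy1
      (D1L_D1L hX hy.1) hy2
    obtain ⟨w, hw, hwz⟩ := bz_row hX (by omega) hz hz1
    have hp1 : p + 1 - 1 = p := by omega
    rw [hp1] at hw
    have hu : PairR Z W p (q + 1) (D2R Z W w) := D2R_mem hX hw
    refine ⟨y + D2R Z W w, hy.add hu, ?_, ?_⟩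
    · rw [map_add, D1L_D2R hX hw, hwz, hz2]
      exact bz_two _
    · rw [D2R_add, hyF, D2R_D2R hX hW hw, add_zero]

open scoped Classical in
/-- The function `({v}, τ) ↦ z τ` for `v ∈ τ`. -/
private noncomputable def bzE (X : Set (Finset P)) (z : Finset P → ZMod 2) :
    Finset P → Finset P → ZMod 2 := fun σ τ => if σ ∈ X ∧ σ.card = 1 ∧ σ ⊆ τ then z τ else 0

private theorem bzE_mem {q : ℕ} {z : Finset P → ZMod 2} (hz : z ∈ Ch (ZMod 2) (Z \ W) q) :
    PairR Z W 1 q (bzE Z z) := by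
  refine ⟨fun σ τ h => ?_, fun σ τ hτW => ?_⟩
  · unfold bzE
    split_ifs with h1
    · exact hz τ fun h2 => h ⟨h1.1, h1.2.1, h2.1.1, h2.2, h1.2.2⟩
    · rfl
  · unfold bzE
    rw [hz τ fun h2 => h2.1.2 hτW, ite_self]

private theorem bzE_D1 (hX : FreeCx H Z) {q : ℕ} {z : Finset P → ZMod 2}
    (hz : z ∈ Ch (ZMod 2) (Z \ W) q) : D1L Z (bzE Z z) = 0 := by
  classical
  funext σ τ
  rw [D1L_apply]
  split_ifs with hs
  · by_cases hσ : σ ∈ Z
    · rw [dl_apply hσ]
      by_cases hc : σ.card = 2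
      · by_cases hτ : τ ∈ Z
        · have e : ∀ x ∈ σ, bzE Z z (σ.erase x) τ = z τ := by
            intro x hx
            have hxc : (σ.erase x).card = 1 := by rw [Finset.card_erase_of_mem hx, hc]
            have hxX : σ.erase x ∈ Z := hX.down σ hσ _ (Finset.erase_subset x σ) (by
              rw [← Finset.card_pos, hxc]
              omega)
            exact if_pos ⟨hxX, hxc, (Finset.erase_subset x σ).trans hs⟩
          rw [Finset.sum_congr rfl e, Finset.sum_const, hc, two_smul]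
          exact bz_two _
        · refine Finset.sum_eq_zero fun x _ => ?_
          unfold bzE
          rw [hz τ fun h => hτ h.1.1, ite_self]
      · refine Finset.sum_eq_zero fun x hx => if_neg ?_
        rintro ⟨_, h2, _⟩
        rw [Finset.card_erase_of_mem hx] at h2
        have := Finset.card_pos.mpr (hX.ne σ hσ)
        omega
    · exact dl_apply_not hσ
  · rfl

private theorem bzE_D2 {z : Finset P → ZMod 2} {v : P}
    (hv : {v} ∈ Z) {τ : Finset P} (hvτ : v ∈ τ) : bd Z (bzE Z z {v}) τ = bd Z z τ := by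
  classical
  by_cases hτ : τ ∈ Z
  · rw [bd_apply hτ, bd_apply hτ]
    refine Finset.sum_congr rfl fun x _ => ?_
    exact if_pos ⟨hv, Finset.card_singleton v, Finset.singleton_subset_iff.mpr
      (Finset.mem_insert_of_mem hvτ)⟩
  · rw [bd_apply_not hτ, bd_apply_not hτ]

private theorem bzE_D2' {z : Finset P → ZMod 2} (h0 : ∀ σ ∈ Z \ W, bd Z z σ = 0) :
    D2R Z W (bzE Z z) = 0 := by
  classical
  funext σ τ
  by_cases hτW : τ ∈ W
  · exact D2R_in hτW
  rw [D2R_out hτW, D2L_apply]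
  split_ifs with hs
  · by_cases hσ : σ ∈ Z ∧ σ.card = 1
    · obtain ⟨v, rfl⟩ := Finset.card_eq_one.mp hσ.2
      rw [bzE_D2 hσ.1 (Finset.singleton_subset_iff.mp hs)]
      by_cases hτ : τ ∈ Z
      · exact h0 τ ⟨hτ, hτW⟩
      · exact bd_apply_not hτ
    · have e : bzE Z z σ = 0 := by
        funext t
        exact if_neg fun h => hσ ⟨h.1, h.2.1⟩
      rw [e, map_zero]
      rfl
  · rfl

/-- Lefschetz duality: the pair `(Z, W)`, `Z` an acyclic homology manifold of dimension `m` with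
boundary `W`, has no locally finite homology below the dimension `m`. -/
theorem BMfd.lfW (hX : FreeCx H Z) (hW : SubCx H Z W) (hac : Acyc Z) (hM : BMfd m Z W) :
    LfW m Z W := by
  classical
  intro k hk1 hkn c hc hbc
  obtain ⟨d, hd⟩ : ∃ d, k + d = m := ⟨m - k, by omega⟩
  obtain ⟨y, hy, hy1, hy2⟩ := bz_S hX hW hac hM d 1 k hd le_rfl _ (bzE_mem hc) (bzE_D1 hX hc)
    (bzE_D2' hbc)
  -- a vertex of every simplex
  have hv : ∀ τ, ∃ v : P, τ ∈ Z → v ∈ τ := by
    intro τ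
    by_cases hτ : τ ∈ Z
    · obtain ⟨v, hv⟩ := hX.ne τ hτ
      exact ⟨v, fun _ => hv⟩
    · obtain ⟨v, _⟩ := hac.pt
      exact ⟨v, fun h => absurd h hτ⟩
  choose v hv using hv
  refine ⟨fun τ => if τ ∈ Z \ W ∧ τ.card = k + 1 then y {v τ} τ else 0, fun τ hτ => if_neg hτ, ?_⟩
  intro τ hτ
  by_cases hτk : τ.card = k
  · have hvX : {v τ} ∈ Z := hX.single_mem hτ.1 (hv τ hτ.1)
    have h3 := congrFun (congrFun hy2 {v τ}) τ
    rw [D2R_out hτ.2, D2L_apply, if_pos (Finset.singleton_subset_iff.mpr (hv τ hτ.1)),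
      bd_apply hτ.1] at h3
    have h4 : bzE Z c {v τ} τ = c τ := if_pos ⟨hvX, Finset.card_singleton _,
      Finset.singleton_subset_iff.mpr (hv τ hτ.1)⟩
    rw [← h4, ← h3, bd_apply hτ.1]
    refine Finset.sum_congr rfl fun x hx => ?_
    obtain ⟨hx1, hx2⟩ := (hX.mem_nb hτ.1).mp hx
    have h5 : (insert x τ).card = k + 1 := by rw [Finset.card_insert_of_notMem hx1, hτk]
    show (if insert x τ ∈ Z \ W ∧ (insert x τ).card = k + 1 then
      y {v (insert x τ)} (insert x τ) else 0) = y {v τ} (insert x τ)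
    rw [if_pos ⟨⟨hx2, bz_cof hX hW hτ.1 hτ.2 x⟩, h5⟩]
    exact row_zero hX hy.1 hy1 hx2 (hv _ hx2) (Finset.mem_insert_of_mem (hv τ hτ.1))
  · rw [hc τ fun h => hτk h.2, bd_apply hτ.1]
    refine Finset.sum_eq_zero fun x hx => if_neg ?_
    rintro ⟨_, h2⟩
    rw [Finset.card_insert_of_notMem ((hX.mem_nb hτ.1).mp hx).1] at h2
    omega

end SingerCub
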