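import Mathlib
import Pool.Agent.Lib_MP_394d50_cub.CMain
import Pool.Agent.Lib_MP_394d50_cub.EFil

/-!
# Piece CCECH: the Čech reduction inside a convex set of cells

Let `I'` be the cell complex on the subtype `{c // c ∈ S}`: `dim c = I.dim c.1`, `inc p q = I.inc p.1 q.1`, with the
action of `H` (`hSi`). `FC H I'`: `faces`, `cofaces`: preimages of finite sets; `sq`: for `p, r ∈ S`,
`∑ᶠ q : {c // c ∈ S}, inc p q * inc q r = ∑ᶠ q : C, ...`, because `inc p q * inc q r ≠ 0` implies `q ∈ S` (`hS`)
(`finsum_eq_of_bijective` or `finsum_mem`-lemmas, see `CMain`/`CFc` for the style); `cofin`: the map of orbits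
`Orb H {c // c ∈ S} → Orb H C` is injective. `Y' i = {c : {c // c ∈ S} | c.1 ∈ Y i}`, `Fam H I' Y'`.
`cech_reduction` for `I'`, `Y'` gives `NH I' univ k`: `hrest`: the set `{c | ∀ i, c ∉ Y' i}` is empty by `hcov`
(`nh_empty`); `hcol`: `nh_map` with `φ = Subtype.val` (`s = 1`, `e = 1`, `a = b = 0`): the image of
`{c | ∀ i ∈ t, c ∈ Y' i}` is `{c | c ∈ S ∧ ∀ i ∈ t, c ∈ Y i}`. Finally `nh_map` again for `univ`, whose image is `S`.
-/

namespace SingerCub

open SingerVS

theorem cech_sub {H C ι : Type} [Group H] [MulAction H C] [MulAction H ι] {I : CellCx C}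
    (hF : FC H I) {S : Set C} (hS : Cvx I S) (hSi : ∀ (h : H), ∀ c ∈ S, h • c ∈ S)
    {Y : ι → Set C} (hd : ∀ i, ∀ q ∈ Y i, ∀ p, I.inc p q ≠ 0 → p ∈ Y i)
    (hm : ∀ (h : H) i, ∀ c ∈ Y i, h • c ∈ Y (h • i)) (hl : ∀ c, {i | c ∈ Y i}.Finite)
    (hcov : ∀ c ∈ S, ∃ i, c ∈ Y i) (k : ℕ)
    (hcol : ∀ t : List ι, t ≠ [] → t.length ≤ k + 1 →
      NH I {c | c ∈ S ∧ ∀ i ∈ t, c ∈ Y i} (k + 1 - t.length)) : NH I S k := by
  classical
  let act : MulAction H {c // c ∈ S} :=
    { smul := fun h c => ⟨h • c.1, hSi h c.1 c.2⟩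
      one_smul := fun c => Subtype.ext (one_smul H c.1)
      mul_smul := fun g h c => Subtype.ext (mul_smul g h c.1) }
  have hval : ∀ (h : H) (c : {c // c ∈ S}), (h • c).1 = h • c.1 := fun _ _ => rfl
  let I' : CellCx {c // c ∈ S} := ⟨fun c => I.dim c.1, fun p q => I.inc p.1 q.1⟩
  have hF' : FC H I' :=
    { dim_smul := fun h c => hF.dim_smul h c.1
      inc_smul := fun h p q => hF.inc_smul h p.1 q.1
      inc_dim := fun p q h => hF.inc_dim p.1 q.1 h
      faces := fun q => (hF.faces q.1).preimage Subtype.val_injective.injOn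
      cofaces := fun p => (hF.cofaces p.1).preimage Subtype.val_injective.injOn
      sq := by
        intro p r
        have h1 : ∑ᶠ q : {c // c ∈ S}, I.inc p.1 q.1 * I.inc q.1 r.1 =
            ∑ᶠ q ∈ S, I.inc p.1 q * I.inc q r.1 :=
          finsum_set_coe_eq_finsum_mem (f := fun q => I.inc p.1 q * I.inc q r.1) S
        have h2 : ∑ᶠ q ∈ S, I.inc p.1 q * I.inc q r.1 =
            ∑ᶠ q ∈ (Set.univ : Set C), I.inc p.1 q * I.inc q r.1 := by
          apply finsum_mem_inter_support_eq
          ext q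
          simp only [Set.mem_inter_iff, Function.mem_support, Set.mem_univ, true_and,
            and_iff_right_iff_imp]
          intro hq
          exact hS p.1 q r.1 p.2 r.2 (left_ne_zero_of_mul hq) (right_ne_zero_of_mul hq)
        show ∑ᶠ q : {c // c ∈ S}, I.inc p.1 q.1 * I.inc q.1 r.1 = 0
        rw [h1, h2, finsum_mem_univ]
        exact hF.sq p.1 r.1
      free := fun h c hc => hF.free h c.1 (congrArg Subtype.val hc)
      cofin := by
        have := hF.cofin
        let g : Orb H {c // c ∈ S} → Orb H C := Quotient.map' Subtype.val (by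
          rintro a b ⟨h, hh⟩
          exact ⟨h, congrArg Subtype.val hh⟩)
        refine Finite.of_injective g ?_
        intro x y
        induction x using Quotient.inductionOn' with
        | h a =>
          induction y using Quotient.inductionOn' with
          | h b =>
            intro hxy
            obtain ⟨h, hh⟩ := Quotient.exact' hxy
            exact Quotient.sound' ⟨h, Subtype.ext hh⟩ }
  let Y' : ι → Set {c // c ∈ S} := fun i => {c | c.1 ∈ Y i}
  have hY' : Fam H I' Y' :=
    { down := fun i q hq p hp => hd i q.1 hq p.1 hp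
      smul := fun h i c hc => hm h i c.1 hc
      locfin := fun c => hl c.1 }
  have hmap : ∀ (S' : Set {c // c ∈ S}) (j : ℕ), NH I' S' j ↔ NH I (Subtype.val '' S') j := by
    intro S' j
    exact nh_map (I := I') (I' := I) (S := S') Subtype.val Subtype.val_injective.injOn
      (fun _ => 1) (fun _ => Or.inl rfl) 1 (Or.inl rfl)
      (by intro p _ q _; simp [I']) 0 0 (by intro p _; rfl) j
  have h1 : NH I' Set.univ k := by
    refine cech_reduction hF' hY' k ?_ ?_
    · intro t ht htl
      rw [hmap]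
      have h2 : (Subtype.val '' {c : {c // c ∈ S} | ∀ i ∈ t, c ∈ Y' i}) =
          {c | c ∈ S ∧ ∀ i ∈ t, c ∈ Y i} := by
        ext c
        constructor
        · rintro ⟨⟨c', hc'⟩, h3, rfl⟩
          exact ⟨hc', h3⟩
        · rintro ⟨h3, h4⟩
          exact ⟨⟨c, h3⟩, h4, rfl⟩
      rw [h2]
      exact hcol t ht htl
    · have h2 : {c : {c // c ∈ S} | ∀ i, c ∉ Y' i} = ∅ := by
        rw [Set.eq_empty_iff_forall_notMem]
        intro c hc
        obtain ⟨i, hi⟩ := hcov c.1 c.2
        exact hc i hi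
      rw [h2]
      exact nh_empty _ _
  rw [hmap, Set.image_univ, Subtype.range_coe] at h1
  exact h1

end SingerCub
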