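import Mathlib
import Pool.Agent.Lib_MP_394d50_cmb.MDefs

/-!
# Piece CCHAM: basic facts on chambers

`hY` says that the `Y i` are closed under faces, `hs` that the family is invariant. All facts are proved by
induction on `Relation.ReflTransGen`.
* `cham_mem`: all members of the chamber of `σ` (a simplex outside the walls) are simplices outside the
  walls.
* `cham_eq`: `Adj` is symmetric, so chambers are equivalence classes.
* `cham_up`: `τ ∈ cham σ`, `τ ⊆ τ'`, `τ' ∈ X`: `τ'` is outside the walls (`hY`, `τ` is not empty), so `Adj τ τ'`.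
* `cham_dn`: similarly.
* `cham_smul`: `τ ∈ cham (g • σ)` iff `g⁻¹ • τ ∈ cham σ`: `Adj X Y τ τ' → Adj X Y (g • τ) (g • τ')` for every `g`
  (`τ ∉ Y i` for all `i` implies `g • τ ∉ Y i` for all `i`, because `g • τ ∈ Y i` gives
  `τ = g⁻¹ • (g • τ) ∈ Y (g⁻¹ • i)`; `Finset.smul_finset_subset_smul_finset_iff`), and `Relation.ReflTransGen.lift`.
* `stab_of_mem`: `τ ∈ cham σ`, `g • τ ∈ cham σ` imply `g • cham σ = g • cham τ = cham (g • τ) = cham σ`.
-/

namespace SingerCub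

open SingerVS
open scoped Pointwise

section

variable {P ι : Type} [DecidableEq P] {X : Set (Finset P)} {Y : ι → Set (Finset P)}

theorem mem_cham_self (σ : Finset P) : σ ∈ cham X Y σ := Relation.ReflTransGen.refl

theorem cham_mem {σ τ : Finset P} (hσ : σ ∈ X) (h0 : ∀ i, σ ∉ Y i) (h : τ ∈ cham X Y σ) :
    τ ∈ X ∧ ∀ i, τ ∉ Y i := by
  rcases Relation.ReflTransGen.cases_tail h with h1 | ⟨ρ, _, h2⟩
  · rw [h1]
    exact ⟨hσ, h0⟩
  · exact ⟨h2.2.1, h2.2.2.2.1⟩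

theorem cham_eq {σ τ : Finset P} (h : τ ∈ cham X Y σ) : cham X Y τ = cham X Y σ := by
  have hsymm : ∀ a b : Finset P, Adj X Y a b → Adj X Y b a :=
    fun a b hab => ⟨hab.2.1, hab.1, hab.2.2.2.1, hab.2.2.1, hab.2.2.2.2.symm⟩
  have hs : Relation.ReflTransGen (Adj X Y) τ σ := by
    induction h with
    | refl => exact Relation.ReflTransGen.refl
    | tail _ h2 ih => exact Relation.ReflTransGen.head (hsymm _ _ h2) ih
  ext ρ
  exact ⟨fun h1 => Relation.ReflTransGen.trans h h1, fun h1 => Relation.ReflTransGen.trans hs h1⟩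

theorem cham_up (hne : ∀ σ ∈ X, σ.Nonempty)
    (hY : ∀ i, ∀ σ ∈ Y i, ∀ τ, τ ⊆ σ → τ.Nonempty → τ ∈ Y i) {σ τ τ' : Finset P} (hσ : σ ∈ X)
    (h0 : ∀ i, σ ∉ Y i) (h : τ ∈ cham X Y σ) (h1 : τ ⊆ τ') (h2 : τ' ∈ X) :
    τ' ∈ cham X Y σ := by
  obtain ⟨h3, h4⟩ := cham_mem hσ h0 h
  refine Relation.ReflTransGen.tail h ⟨h3, h2, h4, fun i hi => h4 i ?_, Or.inl h1⟩
  exact hY i τ' hi τ h1 (hne τ h3)

theorem cham_dn {σ τ τ' : Finset P} (hσ : σ ∈ X) (h0 : ∀ i, σ ∉ Y i) (h : τ' ∈ cham X Y σ)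
    (h1 : τ ⊆ τ') (h2 : τ ∈ X) (h3 : ∀ i, τ ∉ Y i) : τ ∈ cham X Y σ := by
  obtain ⟨h5, h6⟩ := cham_mem hσ h0 h
  exact Relation.ReflTransGen.tail h ⟨h5, h2, h6, h3, Or.inr h1⟩

end

section

variable {Γ P ι : Type} [Group Γ] [DecidableEq P] [MulAction Γ P] [MulAction Γ ι]
  {X : Set (Finset P)} {Y : ι → Set (Finset P)}

theorem cham_smul (hX : ∀ g : Γ, ∀ σ ∈ X, g • σ ∈ X)
    (hs : ∀ (g : Γ) i, ∀ σ ∈ Y i, g • σ ∈ Y (g • i)) (g : Γ) (σ : Finset P) :
    g • cham X Y σ = cham X Y (g • σ) := by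
  have key : ∀ (k : Γ) (a b : Finset P), Adj X Y a b → Adj X Y (k • a) (k • b) := by
    intro k a b hab
    have hno : ∀ c : Finset P, (∀ i, c ∉ Y i) → ∀ i, k • c ∉ Y i := by
      intro c hc i hi
      have := hs k⁻¹ i _ hi
      rw [inv_smul_smul] at this
      exact hc _ this
    exact ⟨hX k a hab.1, hX k b hab.2.1, hno a hab.2.2.1, hno b hab.2.2.2.1,
      hab.2.2.2.2.imp (fun h => Finset.smul_finset_subset_smul_finset_iff.mpr h)
        (fun h => Finset.smul_finset_subset_smul_finset_iff.mpr h)⟩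
  ext ρ
  rw [Set.mem_smul_set_iff_inv_smul_mem]
  constructor
  · intro h
    have h1 : Relation.ReflTransGen (Adj X Y) (g • σ) (g • (g⁻¹ • ρ)) :=
      Relation.ReflTransGen.lift (fun a => g • a) (key g) _ _ h
    rw [smul_inv_smul] at h1
    exact h1
  · intro h
    have h1 : Relation.ReflTransGen (Adj X Y) (g⁻¹ • (g • σ)) (g⁻¹ • ρ) :=
      Relation.ReflTransGen.lift (fun a => g⁻¹ • a) (key g⁻¹) _ _ h
    rw [inv_smul_smul] at h1
    exact h1

theorem stab_of_mem (hX : ∀ g : Γ, ∀ σ ∈ X, g • σ ∈ X)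
    (hs : ∀ (g : Γ) i, ∀ σ ∈ Y i, g • σ ∈ Y (g • i)) {g : Γ} {σ τ : Finset P}
    (h1 : τ ∈ cham X Y σ) (h2 : g • τ ∈ cham X Y σ) :
    g ∈ MulAction.stabilizer Γ (cham X Y σ) := by
  rw [MulAction.mem_stabilizer_iff]
  calc g • cham X Y σ = g • cham X Y τ := by rw [cham_eq h1]
    _ = cham X Y (g • τ) := cham_smul hX hs g τ
    _ = cham X Y σ := cham_eq h2

end

end SingerCub
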