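import Mathlib
import Pool.Agent.Lib_MP_394d50_cmb.CCham

/-!
# Piece CCLO: the closed chamber and its boundary

`clo`: all non-empty faces of the simplices of the chamber `C = cham X Y σ` (`σ ∈ X` outside the walls, as in
`CCham`), `bdy = clo \ C`. `K` = the stabiliser of `C`.
* `clo_sdiff`: `clo \ bdy = C`.
* `clo_freeCx`: `ne`, `down`, `inv`, `free` are clear (`clo ⊆ X`). `fin`: let `R` be the finite set of
  `hX.fin`. For `r ∈ R` such that some `g • r` is in `C` choose one, `g_r`. If `τ ∈ C`, `τ = g • r`, then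
  `τ = (g * g_r⁻¹) • (g_r • r)` and `g * g_r⁻¹ ∈ K` by `stab_of_mem`. So the `g_r • r` represent the orbits of `K` in
  `C`, and their non-empty faces (finitely many: `Finset.powerset`) represent the orbits in `clo`.
* `bdy_sub`: `down`: let `τ ∈ bdy`, `τ' ⊆ τ` not empty. `τ' ∈ clo`, and `τ' ∈ C` would give `τ ∈ C` by `cham_up`.
* `lfW_clo`: let `c ∈ Ch (clo \ bdy) k = Ch C k`, `bd clo c = 0` on `C`. Then `c ∈ Ch (X \ U) k`, `U = ⋃ i, Y i`, and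
  `bd X c = 0` on `X \ U`: let `τ ∈ X \ U`. If `τ ∈ C`, the `p ∉ τ` with `insert p τ ∈ X` are those with
  `insert p τ ∈ clo` (`cham_up`), so `nb X τ = nb clo τ` and `bd X c τ = bd clo c τ = 0`. If `τ ∉ C`, then
  `insert p τ ∉ C` for all `p` (`cham_dn`), so `bd X c τ = 0`. `LfW` gives `b' ∈ Ch (X \ U) (k + 1)` with
  `bd X b' = c` on `X \ U`; let `b` be `b'` on `C` and `0` outside `C`. For `τ ∈ C`: `bd clo b τ = bd X b' τ = c τ`
  (`insert p τ ∈ C` for all `p ∈ nb X τ`).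
-/

namespace SingerCub

open SingerVS
open scoped Pointwise

section

variable {P ι : Type} {X : Set (Finset P)} {Y : ι → Set (Finset P)}

/-- The closed chamber. -/
def clo (X : Set (Finset P)) (Y : ι → Set (Finset P)) (σ : Finset P) : Set (Finset P) :=
  {τ | τ.Nonempty ∧ ∃ ρ ∈ cham X Y σ, τ ⊆ ρ}

/-- The boundary of the chamber. -/
def bdy (X : Set (Finset P)) (Y : ι → Set (Finset P)) (σ : Finset P) : Set (Finset P) :=
  clo X Y σ \ cham X Y σ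

end

section

variable {Γ P ι : Type} [Group Γ] [DecidableEq P] [MulAction Γ P] [MulAction Γ ι]
  {X : Set (Finset P)} {Y : ι → Set (Finset P)}

omit [Group Γ] [MulAction Γ P] [MulAction Γ ι] [DecidableEq P] in
theorem clo_sdiff (hne : ∀ σ ∈ X, σ.Nonempty) {σ : Finset P} (hσ : σ ∈ X)
    (h0 : ∀ i, σ ∉ Y i) : clo X Y σ \ bdy X Y σ = cham X Y σ := by
  classical
  ext τ
  constructor
  · rintro ⟨h1, h2⟩
    by_contra h3
    exact h2 ⟨h1, h3⟩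
  · intro h
    exact ⟨⟨hne τ (cham_mem hσ h0 h).1, τ, h, Finset.Subset.refl τ⟩, fun h1 => h1.2 h⟩

omit [MulAction Γ ι] in
theorem clo_sub (hX : FreeCx Γ X) {σ : Finset P} (hσ : σ ∈ X) (h0 : ∀ i, σ ∉ Y i) :
    clo X Y σ ⊆ X := by
  rintro τ ⟨h1, ρ, h2, h3⟩
  exact hX.down ρ (cham_mem hσ h0 h2).1 τ h3 h1

omit [MulAction Γ ι] in
theorem cham_clo (hX : FreeCx Γ X) {σ : Finset P} (hσ : σ ∈ X) (h0 : ∀ i, σ ∉ Y i) :
    cham X Y σ ⊆ clo X Y σ := fun τ h =>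
  ⟨hX.ne τ (cham_mem hσ h0 h).1, τ, h, Finset.Subset.refl τ⟩

omit [MulAction Γ ι] in
theorem stab_cham_mem {σ τ : Finset P} {g : Γ} (hg : g ∈ MulAction.stabilizer Γ (cham X Y σ))
    (h : τ ∈ cham X Y σ) : g • τ ∈ cham X Y σ := by
  rw [MulAction.mem_stabilizer_iff] at hg
  have h1 : g • τ ∈ g • cham X Y σ := Set.smul_mem_smul_set h
  rwa [hg] at h1

theorem clo_freeCx (hX : FreeCx Γ X)
    (hs : ∀ (g : Γ) i, ∀ σ ∈ Y i, g • σ ∈ Y (g • i)) {σ : Finset P} (hσ : σ ∈ X)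
    (h0 : ∀ i, σ ∉ Y i) : FreeCx (MulAction.stabilizer Γ (cham X Y σ)) (clo X Y σ) := by
  refine ⟨fun τ h => h.1, ?_, ?_, ?_, ?_⟩
  · rintro τ ⟨h1, ρ, h2, h3⟩ τ' h4 h5
    exact ⟨h5, ρ, h2, h4.trans h3⟩
  · rintro ⟨g, hg⟩ τ ⟨h1, ρ, h2, h3⟩
    refine ⟨?_, g • ρ, stab_cham_mem hg h2, ?_⟩
    · exact h1.smul_finset
    · exact Finset.smul_finset_subset_smul_finset_iff.mpr h3
  · rintro ⟨g, hg⟩ τ h h1
    exact Subtype.ext (hX.free g τ (clo_sub hX hσ h0 h) h1)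
  · classical
    obtain ⟨R, hR, hR'⟩ := hX.fin
    let f : Finset P → Finset P := fun r =>
      if h : ∃ g : Γ, g • r ∈ cham X Y σ then h.choose • r else ∅
    let S : Finset (Finset P) := (R.biUnion fun r => (f r).powerset).filter
      fun τ => τ.Nonempty ∧ ∃ ρ ∈ cham X Y σ, τ ⊆ ρ
    refine ⟨S, ?_, ?_⟩
    · intro r hr
      exact (Finset.mem_filter.mp hr).2
    · rintro τ ⟨h1, ρ, h2, h3⟩
      obtain ⟨g, r, hr, rfl⟩ := hR' ρ (cham_mem hσ h0 h2).1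
      have hex : ∃ g : Γ, g • r ∈ cham X Y σ := ⟨g, h2⟩
      have hf : f r = hex.choose • r := dif_pos hex
      have hc : hex.choose • r ∈ cham X Y σ := hex.choose_spec
      have hk : g * (hex.choose)⁻¹ ∈ MulAction.stabilizer Γ (cham X Y σ) := by
        refine stab_of_mem hX.inv hs hc ?_
        rw [mul_smul, inv_smul_smul]
        exact h2
      have e1 : (g * (hex.choose)⁻¹) • (f r) = g • r := by
        rw [hf, mul_smul, inv_smul_smul]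
      refine ⟨⟨_, hk⟩, (g * (hex.choose)⁻¹)⁻¹ • τ, ?_, ?_⟩
      · refine Finset.mem_filter.mpr ⟨?_, ?_, f r, ?_, ?_⟩
        · refine Finset.mem_biUnion.mpr ⟨r, hr, Finset.mem_powerset.mpr ?_⟩
          rw [← Finset.smul_finset_subset_smul_finset_iff (a := g * (hex.choose)⁻¹),
            smul_inv_smul, e1]
          exact h3
        · exact h1.smul_finset
        · rw [hf]
          exact hc
        · rw [← Finset.smul_finset_subset_smul_finset_iff (a := g * (hex.choose)⁻¹),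
            smul_inv_smul, e1]
          exact h3
      · show τ = (g * (hex.choose)⁻¹) • ((g * (hex.choose)⁻¹)⁻¹ • τ)
        rw [smul_inv_smul]

theorem bdy_sub (hX : FreeCx Γ X)
    (hY : ∀ i, ∀ σ ∈ Y i, ∀ τ, τ ⊆ σ → τ.Nonempty → τ ∈ Y i)
    (hs : ∀ (g : Γ) i, ∀ σ ∈ Y i, g • σ ∈ Y (g • i)) {σ : Finset P} (hσ : σ ∈ X)
    (h0 : ∀ i, σ ∉ Y i) :
    SubCx (MulAction.stabilizer Γ (cham X Y σ)) (clo X Y σ) (bdy X Y σ) := by
  have hF := clo_freeCx hX hs hσ h0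
  refine ⟨fun τ h => h.1, ?_, ?_⟩
  · rintro τ ⟨h1, h2⟩ τ' h3 h4
    exact ⟨hF.down τ h1 τ' h3 h4,
      fun h5 => h2 (cham_up hX.ne hY hσ h0 h5 h3 (clo_sub hX hσ h0 h1))⟩
  · rintro ⟨g, hg⟩ τ ⟨h1, h2⟩
    refine ⟨hF.inv ⟨g, hg⟩ τ h1, fun h3 => h2 ?_⟩
    have h4 := stab_cham_mem (Subgroup.inv_mem _ hg) h3
    have h5 : g⁻¹ • ((⟨g, hg⟩ : MulAction.stabilizer Γ (cham X Y σ)) • τ) = τ := by
      show g⁻¹ • (g • τ) = τ
      rw [inv_smul_smul]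
    rwa [h5] at h4

theorem lfW_clo (hX : FreeCx Γ X)
    (hY : ∀ i, ∀ σ ∈ Y i, ∀ τ, τ ⊆ σ → τ.Nonempty → τ ∈ Y i)
    (hs : ∀ (g : Γ) i, ∀ σ ∈ Y i, g • σ ∈ Y (g • i)) {n : ℕ} (hL : LfW n X (⋃ i, Y i))
    {σ : Finset P} (hσ : σ ∈ X) (h0 : ∀ i, σ ∉ Y i) : LfW n (clo X Y σ) (bdy X Y σ) := by
  classical
  have hF := clo_freeCx hX hs hσ h0
  intro k hk1 hk2 c hc hz
  rw [clo_sdiff hX.ne hσ h0] at hc hz ⊢
  have hcl : ∀ τ ∈ cham X Y σ, nb (clo X Y σ) τ = nb X τ := by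
    intro τ hτ
    have h1 := (cham_mem hσ h0 hτ).1
    ext p
    rw [hX.mem_nb h1, hF.mem_nb (cham_clo hX hσ h0 hτ)]
    refine and_congr Iff.rfl ⟨fun h => clo_sub hX hσ h0 h, fun h => ?_⟩
    exact cham_clo hX hσ h0 (cham_up hX.ne hY hσ h0 hτ (Finset.subset_insert p τ) h)
  have hin : ∀ τ ∈ cham X Y σ, ∀ p ∈ nb X τ, insert p τ ∈ cham X Y σ := by
    intro τ hτ p hp
    have h1 := (cham_mem hσ h0 hτ).1
    exact cham_up hX.ne hY hσ h0 hτ (Finset.subset_insert p τ) ((hX.mem_nb h1).mp hp).2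
  have hsub : ∀ τ ∈ cham X Y σ, τ ∈ X \ ⋃ i, Y i := by
    intro τ hτ
    obtain ⟨h1, h2⟩ := cham_mem hσ h0 hτ
    refine ⟨h1, fun h3 => ?_⟩
    obtain ⟨i, hi⟩ := Set.mem_iUnion.mp h3
    exact h2 i hi
  have hc' : c ∈ Ch (ZMod 2) (X \ ⋃ i, Y i) k := by
    intro τ hτ
    exact hc τ fun h => hτ ⟨hsub τ h.1, h.2⟩
  obtain ⟨b, hb, hb'⟩ := hL k hk1 hk2 c hc' (by
    intro τ hτ
    by_cases h1 : τ ∈ cham X Y σ
    · have h2 := hz τ h1
      rw [bd_apply (cham_clo hX hσ h0 h1), hcl τ h1] at h2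
      rw [bd_apply hτ.1]
      exact h2
    · rw [bd_apply hτ.1]
      refine Finset.sum_eq_zero fun p hp => hc _ ?_
      rintro ⟨h2, _⟩
      exact h1 (cham_dn hσ h0 h2 (Finset.subset_insert p τ) hτ.1
        fun i hi => hτ.2 (Set.mem_iUnion.mpr ⟨i, hi⟩)))
  refine ⟨fun τ => if τ ∈ cham X Y σ then b τ else 0, ?_, ?_⟩
  · intro τ hτ
    by_cases h1 : τ ∈ cham X Y σ
    · show (if τ ∈ cham X Y σ then b τ else 0) = 0
      rw [if_pos h1]
      exact hb τ fun h => hτ ⟨h1, h.2⟩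
    · exact if_neg h1
  · intro τ hτ
    rw [bd_apply (cham_clo hX hσ h0 hτ), hcl τ hτ, ← hb' τ (hsub τ hτ), bd_apply (hsub τ hτ).1]
    refine Finset.sum_congr rfl fun p hp => ?_
    exact if_pos (hin τ hτ p hp)

end

end SingerCub
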