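import Mathlib
import Pool.Agent.Lib_MP_394d50_vs.LDefs
import Pool.Agent.Lib_MP_394d50_vs.LSDefs
import Pool.Agent.Lib_MP_394d50_cmb.MDefs

/-!
# Equivariant cochains on the cells with values in a division ring
-/

namespace SingerCub

open SingerVS
open scoped Pointwise

/-- Exactness of the equivariant cochains with values in `D` at the `k`-cells. -/
def ExC {H C D : Type} [Group H] [MulAction H C] [DivisionRing D] (I : CellCx C) (j : H →* Dˣ)
    (k : ℕ) : Prop :=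
  ∀ x : C → D, (∀ c, x c ≠ 0 → I.dim c = k) →
    (∀ (h : H) (c : C), x (h • c) = x c * (((j h)⁻¹ : Dˣ) : D)) →
    (∀ q, ∑ᶠ p, ((I.inc p q : ℤ) : D) * x p = 0) →
    ∃ y : C → D, (∀ c, y c ≠ 0 → I.dim c + 1 = k) ∧
      (∀ (h : H) (c : C), y (h • c) = y c * (((j h)⁻¹ : Dˣ) : D)) ∧
      ∀ q, ∑ᶠ p, ((I.inc p q : ℤ) : D) * y p = x q

/-- `X \ W` is invariant. -/
theorem relInv {H P : Type} [Group H] [DecidableEq P] [MulAction H P] {X W : Set (Finset P)}
    (hX : FreeCx H X) (hW : SubCx H X W) : ∀ h : H, ∀ σ ∈ X \ W, h • σ ∈ X \ W :=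
  fun h σ hσ => ⟨hX.inv h σ hσ.1, fun h1 => hσ.2 ((hW.inv_iff h σ).mp h1)⟩

end SingerCub
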