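import Mathlib
import Pool.Agent.Lib_MP_394d50_cmb.GDefs
import Pool.Agent.Lib_MP_394d50_vs.LSim
import Pool.Agent.Lib_MP_394d50_vs.VCoef

/-!
# Piece RBR: the cells of a pair

`freeCell_rel`: the complex `simpCx (X \ W) r` (cells: the simplices in `X \ W`). Copy the proof of
`freeCell_simp` (`Lib_MP_394d50_vs/LSim.lean`). For `sq`: if `p` and `t` are in `X \ W`, and
`p = (t.erase v).erase w`, then `t.erase v`, `t.erase w` are in `X` and not in `W`, because `p` is a face of them,
`p` is not empty and `p ∉ W` (`hW.down`). `cofin`: the orbits are represented by the finite set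
`hX.fin` of representatives (those in `X \ W`).

`exC_of_exW`: let `x : {σ // σ ∈ X \ W} → D` be as in `ExC` (degree `k`: the cells with `k + 1` vertices). Put
`c σ = x ⟨σ, _⟩` for `σ ∈ X \ W`, `0` otherwise. `c ∈ Co (rhoD j) (X \ W) (k + 1)`. `dl X c = 0`: it vanishes on `W`
(`dl_rel`), and for `σ ∈ X \ W`, `dl X c σ = ∑ p ∈ σ, c (σ.erase p)`, which is
`∑ᶠ q, (simpInc r q σ : D) * x q` because the incidence number of a facet is `±1`, which is `1` in `D`
(`2 = 0` in `D`), and `0` otherwise (`simpInc_erase`/`simpInc_ne` in LSim, or `simpInc_mod2`); the facets which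
are in `W` or empty give `0` on both sides. `ExW` gives `b`; put `y q = b q.1`. If `y q ≠ 0` then
`q.1.card = k + 1 - 1 = k`, and `q.1` is not empty, so `I.dim q + 1 = (q.1.card - 1) + 1 = k`. The last
condition: the same formula for `b`.
-/

namespace SingerCub

open SingerVS
open scoped Pointwise

private theorem rbr_mem {H P : Type} [Group H] [DecidableEq P] [MulAction H P]
    {X W : Set (Finset P)} (hX : FreeCx H X) (hW : SubCx H X W) {p t m : Finset P}
    (hp : p ∈ X \ W) (ht : t ∈ X \ W) (hpm : p ⊆ m) (hmt : m ⊆ t) : m ∈ X \ W :=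
  ⟨hX.down _ ht.1 _ hmt ((hX.ne _ hp.1).mono hpm),
    fun h => hp.2 (hW.down _ h _ hpm (hX.ne _ hp.1))⟩

theorem freeCell_rel {H P : Type} [Group H] [DecidableEq P] [MulAction H P]
    {X W : Set (Finset P)} (hX : FreeCx H X) (hW : SubCx H X W) {r : P → P → Prop}
    (hr : ∀ σ ∈ X, TotOn r σ)
    (hinv : ∀ h : H, ∀ σ ∈ X, ∀ x ∈ σ, ∀ y ∈ σ, r x y → r (h • x) (h • y)) :
    letI := simpAct (X := X \ W) (relInv hX hW)
    FreeCell H (simpCx (X \ W) r) := by
  let _ := simpAct (X := X \ W) (relInv hX hW)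
  have hsm : ∀ (h : H) (c : {σ : Finset P // σ ∈ X \ W}), (h • c).1 = h • c.1 := fun _ _ => rfl
  show FreeCell H (simpCx (X \ W) r)
  exact
  { dim_smul := fun h c => by
      show (h • c).1.card - 1 = c.1.card - 1
      rw [hsm, card_smul]
    inc_smul := fun h p q => by
      show simpInc r (h • p).1 (h • q).1 = simpInc r p.1 q.1
      rw [hsm, hsm]
      refine simpInc_smul (fun x hx y hy => ⟨fun h1 => ?_, hinv h _ q.2.1 x hx y hy⟩) _
      have h2 := hinv h⁻¹ _ (hX.inv h _ q.2.1) _ (Finset.smul_mem_smul_finset hx) _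
        (Finset.smul_mem_smul_finset hy) h1
      rwa [inv_smul_smul, inv_smul_smul] at h2
    inc_dim := fun p q h => by
      obtain ⟨v, hv, e⟩ := simpInc_ne h
      show q.1.card - 1 = p.1.card - 1 + 1
      have h1 := Finset.card_pos.mpr (hX.ne _ p.2.1)
      have h2 : p.1.card = q.1.card - 1 := by rw [e, Finset.card_erase_of_mem hv]
      omega
    abs_inc := fun p q => abs_simpInc_le r _ _
    faces := fun q => by
      refine Set.Finite.of_finite_image (f := Subtype.val) ?_ Subtype.val_injective.injOn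
      refine (q.1.image (fun v => q.1.erase v)).finite_toSet.subset ?_
      rintro _ ⟨p, hp, rfl⟩
      obtain ⟨v, hv, e⟩ := simpInc_ne hp
      exact Finset.mem_coe.mpr (Finset.mem_image.mpr ⟨v, hv, e.symm⟩)
    cofaces := fun p => by
      refine Set.Finite.of_finite_image (f := Subtype.val) ?_ Subtype.val_injective.injOn
      refine (hX.cof_finite p.2.1).subset ?_
      rintro _ ⟨q, hq, rfl⟩
      obtain ⟨v, hv, e⟩ := simpInc_ne hq
      exact ⟨q.2.1, by rw [e]; exact Finset.erase_subset v q.1⟩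
    sq := fun p t => by
      classical
      by_cases h1 : ∃ v ∈ t.1, ∃ w ∈ t.1, v ≠ w ∧ p.1 = (t.1.erase v).erase w
      · obtain ⟨v, hv, w, hw, hvw, hp⟩ := h1
        have m1 : t.1.erase v ∈ X \ W := by
          refine rbr_mem hX hW p.2 t.2 ?_ (Finset.erase_subset v _)
          rw [hp]
          exact Finset.erase_subset w _
        have m2 : t.1.erase w ∈ X \ W := by
          refine rbr_mem hX hW p.2 t.2 ?_ (Finset.erase_subset w _)
          rw [hp, Finset.erase_right_comm]
          exact Finset.erase_subset v _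
        have hne : (⟨t.1.erase v, m1⟩ : {σ : Finset P // σ ∈ X \ W}) ≠ ⟨t.1.erase w, m2⟩ := by
          intro e
          have e1 : t.1.erase v = t.1.erase w := congrArg Subtype.val e
          have h2 : v ∈ t.1.erase w := Finset.mem_erase.mpr ⟨hvw, hv⟩
          rw [← e1] at h2
          exact (Finset.mem_erase.mp h2).1 rfl
        rw [finsum_eq_sum_of_support_subset (s := {⟨t.1.erase v, m1⟩, ⟨t.1.erase w, m2⟩}),
          Finset.sum_pair hne]
        · show simpInc r p.1 (t.1.erase v) * simpInc r (t.1.erase v) t.1 +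
            simpInc r p.1 (t.1.erase w) * simpInc r (t.1.erase w) t.1 = 0
          rw [hp]
          exact simpInc_sq (hr _ t.2.1) hv hw hvw
        · intro q hq
          have hq' : simpInc r p.1 q.1 * simpInc r q.1 t.1 ≠ 0 := hq
          obtain ⟨x, hx, ex⟩ := simpInc_ne (right_ne_zero_of_mul hq')
          obtain ⟨y, hy, ey⟩ := simpInc_ne (left_ne_zero_of_mul hq')
          have h3 : x ∉ p.1 := by
            rw [ey, ex]
            intro h4
            exact (Finset.mem_erase.mp (Finset.mem_erase.mp h4).2).1 rfl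
          have h5 : x = v ∨ x = w := by
            by_contra h6
            push Not at h6
            apply h3
            rw [hp]
            exact Finset.mem_erase.mpr ⟨h6.2, Finset.mem_erase.mpr ⟨h6.1, hx⟩⟩
          rw [Finset.coe_insert, Finset.coe_singleton]
          rcases h5 with h5 | h5
          · left
            exact Subtype.ext (by rw [ex, h5])
          · right
            exact Subtype.ext (by rw [ex, h5])
      · refine finsum_eq_zero_of_forall_eq_zero fun q => ?_
        by_contra hq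
        have hq' : simpInc r p.1 q.1 * simpInc r q.1 t.1 ≠ 0 := hq
        obtain ⟨x, hx, ex⟩ := simpInc_ne (right_ne_zero_of_mul hq')
        obtain ⟨y, hy, ey⟩ := simpInc_ne (left_ne_zero_of_mul hq')
        rw [ex] at hy ey
        exact h1 ⟨x, hx, y, (Finset.mem_erase.mp hy).2, (Finset.mem_erase.mp hy).1.symm, ey⟩
    free := fun h c e => by
      refine hX.free h c.1 c.2.1 ?_
      rw [← hsm, e]
    cofin := by
      classical
      obtain ⟨R, hR, hR'⟩ := hX.fin
      have hfin : Finite {z // z ∈ R.filter (fun z => z ∉ W)} := inferInstance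
      have hm : ∀ z ∈ R.filter (fun z => z ∉ W), z ∈ X \ W := fun z hz =>
        ⟨hR z (Finset.mem_filter.mp hz).1, (Finset.mem_filter.mp hz).2⟩
      refine Finite.of_surjective (fun z : {z // z ∈ R.filter (fun z => z ∉ W)} =>
        (Quotient.mk'' ⟨z.1, hm z.1 z.2⟩ : MulAction.orbitRel.Quotient H
          {σ : Finset P // σ ∈ X \ W})) ?_
      intro o
      induction o using Quotient.inductionOn' with
      | h c =>
        obtain ⟨h, z, hz, e⟩ := hR' c.1 c.2.1
        have hzW : z ∉ W := fun h1 => c.2.2 (by rw [e]; exact hW.inv h z h1)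
        have hz' : z ∈ R.filter (fun z => z ∉ W) := Finset.mem_filter.mpr ⟨hz, hzW⟩
        refine ⟨⟨z, hz'⟩, ?_⟩
        refine (Quotient.sound' ?_ : Quotient.mk'' c = Quotient.mk'' _).symm
        refine ⟨h, ?_⟩
        apply Subtype.ext
        show (h • (⟨z, hm z hz'⟩ : {σ : Finset P // σ ∈ X \ W})).1 = c.1
        rw [hsm, e] }

private theorem rbr_one {D : Type} [DivisionRing D] [Algebra (ZMod 2) D] (n : ℕ) :
    (((-1 : ℤ) ^ n : ℤ) : D) = 1 := by
  have h : (-1 : D) = 1 := by
    have h1 : (-1 : ZMod 2) = 1 := by decide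
    have h2 := congrArg (algebraMap (ZMod 2) D) h1
    rwa [map_neg, map_one] at h2
  rw [Int.cast_pow, Int.cast_neg, Int.cast_one, h, one_pow]

/-- The coboundary in terms of the incidence numbers. -/
private theorem rbr_sum {P : Type} [DecidableEq P] {Z : Set (Finset P)} (r : P → P → Prop)
    {D : Type} [DivisionRing D] [Algebra (ZMod 2) D] (c : Finset P → D)
    (hc : ∀ σ, σ ∉ Z → c σ = 0) (q : {σ : Finset P // σ ∈ Z}) :
    ∑ᶠ p : {σ : Finset P // σ ∈ Z}, ((simpInc r p.1 q.1 : ℤ) : D) * c p.1 =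
      ∑ v ∈ q.1, c (q.1.erase v) := by
  classical
  have h1 : ∀ p : {σ : Finset P // σ ∈ Z}, ((simpInc r p.1 q.1 : ℤ) : D) * c p.1 =
      ∑ v ∈ q.1, if p.1 = q.1.erase v then c p.1 else 0 := by
    intro p
    unfold simpInc
    rw [Int.cast_sum, Finset.sum_mul]
    refine Finset.sum_congr rfl fun v _ => ?_
    split_ifs with h
    · rw [rbr_one, one_mul]
    · rw [Int.cast_zero, zero_mul]
  rw [finsum_congr h1, finsum_sum_comm]
  · refine Finset.sum_congr rfl fun v _ => ?_
    by_cases hv : q.1.erase v ∈ Z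
    · rw [finsum_eq_single _ (⟨q.1.erase v, hv⟩ : {σ : Finset P // σ ∈ Z})]
      · exact if_pos rfl
      · intro p hp
        exact if_neg fun h => hp (Subtype.ext h)
    · rw [hc _ hv]
      refine finsum_eq_zero_of_forall_eq_zero fun p => ?_
      exact if_neg fun h => hv (by rw [← h]; exact p.2)
  · intro v _
    refine Set.Subsingleton.finite ?_
    intro a ha b hb
    have ha' : (if a.1 = q.1.erase v then c a.1 else 0) ≠ 0 := ha
    have hb' : (if b.1 = q.1.erase v then c b.1 else 0) ≠ 0 := hb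
    have ea : a.1 = q.1.erase v := by
      by_contra h
      exact ha' (if_neg h)
    have eb : b.1 = q.1.erase v := by
      by_contra h
      exact hb' (if_neg h)
    exact Subtype.ext (ea.trans eb.symm)

theorem exC_of_exW {H P : Type} [Group H] [DecidableEq P] [MulAction H P]
    {X W : Set (Finset P)} (hX : FreeCx H X) (hW : SubCx H X W) {r : P → P → Prop} {D : Type}
    [DivisionRing D] [Algebra (ZMod 2) D] (j : H →* Dˣ) (k : ℕ)
    (h : ExW (rhoD j) X W (k + 1)) :
    letI := simpAct (X := X \ W) (relInv hX hW)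
    ExC (simpCx (X \ W) r) j k := by
  classical
  let _ := simpAct (X := X \ W) (relInv hX hW)
  show ExC (simpCx (X \ W) r) j k
  intro x hx1 hx2 hx3
  obtain ⟨c, hc⟩ : ∃ c : Finset P → D, ∀ σ, c σ = if hσ : σ ∈ X \ W then x ⟨σ, hσ⟩ else 0 :=
    ⟨_, fun _ => rfl⟩
  have hcx : ∀ q : {σ : Finset P // σ ∈ X \ W}, c q.1 = x q := fun q => by
    rw [hc, dif_pos q.2]
  have hc0 : ∀ σ, σ ∉ X \ W → c σ = 0 := fun σ hσ => by rw [hc, dif_neg hσ]
  have hco : c ∈ Co (rhoD j) (X \ W) (k + 1) := by
    refine ⟨fun σ hσ => ?_, fun g σ hσ => ?_⟩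
    · by_cases h1 : σ ∈ X \ W
      · by_contra h2
        have h3 : x ⟨σ, h1⟩ ≠ 0 := by
          rw [← hcx]
          exact h2
        have h4 : σ.card - 1 = k := hx1 _ h3
        have h5 := Finset.card_pos.mpr (hX.ne σ h1.1)
        exact hσ ⟨h1, by omega⟩
      · exact hc0 σ h1
    · have h1 : c (g • σ) = x (g • (⟨σ, hσ⟩ : {σ : Finset P // σ ∈ X \ W})) :=
        hcx (g • (⟨σ, hσ⟩ : {σ : Finset P // σ ∈ X \ W}))
      rw [h1, hx2, rhoD_apply, ← hcx]
  have hdl : dl X c = 0 := by
    funext σ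
    by_cases hσ : σ ∈ X
    · by_cases hσW : σ ∈ W
      · exact dl_rel hX hW (co_le_ch hco) σ hσW
      · have h1 := rbr_sum (Z := X \ W) r c hc0 ⟨σ, hσ, hσW⟩
        rw [dl_apply hσ]
        have h2 : ∑ v ∈ σ, c (σ.erase v) = ∑ᶠ p : {σ : Finset P // σ ∈ X \ W},
            ((simpInc r p.1 σ : ℤ) : D) * c p.1 := h1.symm
        rw [h2]
        have h3 := hx3 ⟨σ, hσ, hσW⟩
        have h4 : ∀ p : {σ : Finset P // σ ∈ X \ W}, ((simpInc r p.1 σ : ℤ) : D) * c p.1 =
            (((simpCx (X \ W) r).inc p ⟨σ, hσ, hσW⟩ : ℤ) : D) * x p := fun p => by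
          rw [hcx]
          rfl
        rw [finsum_congr h4, h3]
        rfl
    · exact dl_apply_not hσ
  obtain ⟨b, hb, hbc⟩ := h c hco hdl
  have hb0 : ∀ σ, σ ∉ X \ W → b σ = 0 := fun σ hσ => hb.1 σ fun h1 => hσ h1.1
  refine ⟨fun q => b q.1, fun q hq => ?_, fun g q => ?_, fun q => ?_⟩
  · have h1 : q.1 ∈ X \ W ∧ q.1.card = k + 1 - 1 := by
      by_contra h2
      exact hq (hb.1 q.1 h2)
    have h2 := Finset.card_pos.mpr (hX.ne q.1 q.2.1)
    show q.1.card - 1 + 1 = k
    omega
  · have h1 := hb.2 g q.1 q.2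
    rw [rhoD_apply] at h1
    exact h1
  · have h1 := rbr_sum (Z := X \ W) r b hb0 q
    have h2 : dl X b q.1 = ∑ v ∈ q.1, b (q.1.erase v) := dl_apply q.2.1
    rw [hbc, hcx] at h2
    rw [h2, ← h1]
    rfl

end SingerCub
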