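import Mathlib
import Pool.Agent.Lib_MP_394d50_cmb.MDefs
import Pool.Agent.Lib_MP_394d50_rn.PDC

/-!
# Piece RPD: finitely supported relative cochains

Copy `pdc_core` and `pd_fin_dl` of `Lib_MP_394d50_rn/PDC.lean` (`pdc_solve`, `pdc_adj`, `pdc_form`, `pdc_dlfin`,
`pdc_ch`, `pdc_suppfin` can be cited; `pdc_solve`, `pdc_ch` are stated for any set, so also for `X \ W`).

`pdc_core_w`: let `c` be finitely supported in `Ch (X \ W) (k + 1)` and not of the form `dl X b` with `b` finitely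
supported in `Ch (X \ W) k`. There is a linear functional `f` which vanishes on all these `dl X b` and with
`f c ≠ 0` (`Submodule.exists_le_ker_of_notMem`). Put `z σ = f (Pi.single σ 1)` for `σ ∈ X \ W` with `k + 1`
vertices, `z σ = 0` otherwise; `z ∈ Ch (X \ W) (k + 1)`. For `σ ∈ X \ W` with `k` vertices `bd X z σ = 0`:
`single σ ∈ Ch (X \ W) k`, so `0 = f (dl X (single σ))`, and `dl X (single σ) ∈ Ch (X \ W) (k + 1)` (`dl_rel` and
`ch_rel_iff`), so `f (dl X (single σ)) = ∑ᶠ τ, z τ * dl X (single σ) τ = bd X z σ` (`pdc_form` with the set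
`X \ W`, and `pdc_adj hX` for `b = single σ`). If `σ ∈ X \ W` has not `k` vertices, `bd X z σ = 0` by
`hX.ch_bd`. Hence `hz` applies: `∑ᶠ σ, z σ * c σ = 0`, and this is `f c` (`pdc_form`), a contradiction.

`pd_fin_w`: `p = 0`: `c = 0`, take `b = 0`. `p = k + 1`: `pdc_solve (dl X) (dl X)` with the set `X \ W` reduces to
`N = ZMod 2`, `ψ ∘ c`. Use `pdc_core_w`. Let `z ∈ Ch (X \ W) (k + 1)`, `bd X z = 0` on `X \ W`. `hL` gives
`w ∈ Ch (X \ W) (k + 2)` with `bd X w = z` on `X \ W`. As `c = 0` outside `X \ W`: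
`∑ᶠ σ, z σ * ψ (c σ) = ∑ᶠ σ, bd X w σ * ψ (c σ) = ∑ᶠ τ, w τ * dl X (ψ ∘ c) τ = 0` (`pdc_adj`, `dl_map`).
-/

namespace SingerCub

open SingerVS SingerRN
open scoped Pointwise

variable {H P : Type} [Group H] [DecidableEq P] [MulAction H P] {X W : Set (Finset P)}
variable {N : Type} [AddCommGroup N] [Module (ZMod 2) N]

theorem pdc_core_w (hX : FreeCx H X) (hW : SubCx H X W) {k : ℕ} {c : Finset P → ZMod 2}
    (hc : c ∈ Ch (ZMod 2) (X \ W) (k + 1)) (hfin : (Function.support c).Finite)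
    (hz : ∀ z ∈ Ch (ZMod 2) (X \ W) (k + 1), (∀ σ ∈ X \ W, bd X z σ = 0) →
      ∑ᶠ σ, z σ * c σ = 0) :
    ∃ b ∈ Ch (ZMod 2) (X \ W) k, (Function.support b).Finite ∧ dl X b = c := by
  classical
  let FS : Submodule (ZMod 2) (Finset P → ZMod 2) :=
    { carrier := {b | (Function.support b).Finite}
      add_mem' := fun {a b} ha hb => (ha.union hb).subset (Function.support_add a b)
      zero_mem' := by
        show (Function.support (0 : Finset P → ZMod 2)).Finite
        rw [Function.support_zero]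
        exact Set.finite_empty
      smul_mem' := fun r b hb => Set.Finite.subset hb (Function.support_const_smul_subset r b) }
  by_contra hno
  have hB : c ∉ Submodule.map (dl X) (Ch (ZMod 2) (X \ W) k ⊓ FS) := by
    rintro ⟨b, ⟨hb1, hb2⟩, hb3⟩
    exact hno ⟨b, hb1, hb2, hb3⟩
  obtain ⟨f, hf1, hf2⟩ := Submodule.exists_le_ker_of_notMem hB
  set z : Finset P → ZMod 2 :=
    fun σ => if σ ∈ X \ W ∧ σ.card = k + 1 then f (Pi.single σ 1) else 0 with hzdef
  have hz1 : ∀ σ, σ ∈ X \ W ∧ σ.card = k + 1 → z σ = f (Pi.single σ 1) := fun σ hσ => if_pos hσ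
  have hz2 : z ∈ Ch (ZMod 2) (X \ W) (k + 1) := fun σ hσ => if_neg hσ
  have hz3 : ∀ σ ∈ X \ W, bd X z σ = 0 := by
    intro σ hσW
    by_cases hσ : σ.card = k
    · have hb : (Pi.single σ 1 : Finset P → ZMod 2) ∈ Ch (ZMod 2) (X \ W) k := by
        intro τ hτ
        exact Pi.single_eq_of_ne (fun h1 : τ = σ => hτ (by rw [h1]; exact ⟨hσW, hσ⟩)) 1
      have hb' : (Pi.single σ 1 : Finset P → ZMod 2) ∈ Ch (ZMod 2) X k := ch_rel hb
      have hbf : (Function.support (Pi.single σ 1 : Finset P → ZMod 2)).Finite :=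
        (Set.finite_singleton σ).subset Pi.support_single_subset
      have h1 := pdc_adj hX hb' hbf z
      have h2 : (Function.support (dl X (Pi.single σ 1 : Finset P → ZMod 2))).Finite :=
        (Finset.finite_toSet _).subset (pdc_dlfin hX hb' hbf)
      have hdl : dl X (Pi.single σ 1 : Finset P → ZMod 2) ∈ Ch (ZMod 2) (X \ W) (k + 1) :=
        ch_rel_iff.mpr ⟨hX.ch_dl hb', dl_rel hX hW hb⟩
      rw [← pdc_form f hz1 hdl h2] at h1
      have h3 : f (dl X (Pi.single σ 1 : Finset P → ZMod 2)) = 0 :=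
        hf2 (Submodule.mem_map_of_mem ⟨hb, hbf⟩)
      rw [h3, finsum_eq_single (fun τ => bd X z τ * (Pi.single σ 1 : Finset P → ZMod 2) τ) σ
        (fun τ hτ => by rw [Pi.single_eq_of_ne hτ, mul_zero]), Pi.single_eq_same, mul_one] at h1
      exact h1
    · exact hX.ch_bd (ch_rel hz2) σ (fun h => hσ h.2)
  apply hf1
  rw [pdc_form f hz1 hc hfin]
  exact hz z hz2 hz3

/-- Finitely supported relative cocycles below the dimension `n` are coboundaries. -/
theorem pd_fin_w (hX : FreeCx H X) (hW : SubCx H X W) {n : ℕ} (hL : LfW n X W) {p : ℕ}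
    (hp : p ≤ n) {c : Finset P → N} (hc : c ∈ Ch N (X \ W) p)
    (hfin : (Function.support c).Finite) (h0 : dl X c = 0) :
    ∃ b ∈ Ch N (X \ W) (p - 1), (Function.support b).Finite ∧ dl X b = c := by
  rcases Nat.eq_zero_or_pos p with rfl | hp0
  · have hc0 : c = 0 := by
      funext σ
      refine hc σ ?_
      rintro ⟨h1, h2⟩
      exact (Finset.card_pos.mpr (hX.ne σ h1.1)).ne' h2
    refine ⟨0, Submodule.zero_mem _, ?_, ?_⟩
    · rw [Function.support_zero]
      exact Set.finite_empty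
    · rw [map_zero, hc0]
  · obtain ⟨k, rfl⟩ : ∃ k, p = k + 1 := ⟨p - 1, by omega⟩
    rw [Nat.add_sub_cancel]
    refine pdc_solve (dl X) (dl X) (fun φ b σ => dl_map φ b σ) hfin (fun ψ => ?_)
    refine pdc_core_w hX hW (pdc_ch hc ψ) (pdc_suppfin hfin ψ) ?_
    intro z hz1 hz2
    obtain ⟨w, _, hw2⟩ := hL (k + 1) (by omega) hp z hz1 hz2
    have e1 : ∀ σ, z σ * ψ (c σ) = bd X w σ * ψ (c σ) := by
      intro σ
      by_cases hσ : σ ∈ X \ W
      · rw [hw2 σ hσ]
      · rw [hc σ (fun h => hσ h.1), map_zero, mul_zero, mul_zero]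
    rw [finsum_congr e1, pdc_adj hX (ch_rel (pdc_ch hc ψ)) (pdc_suppfin hfin ψ) w]
    refine finsum_eq_zero_of_forall_eq_zero fun τ => ?_
    rw [dl_map ψ c τ, h0]
    show w τ * ψ 0 = 0
    rw [map_zero, mul_zero]

end SingerCub
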