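import Mathlib
import Pool.Agent.Lib_MP_394d50_cmb.RPd
import Pool.Agent.Lib_MP_394d50_rn.FCX

/-!
# Piece RFREE: relative cochains with values in a free permutation module

Copy the proof of `exCo_free` (`Lib_MP_394d50_rn/FCX.lean`; `FCX_inj`, `FCX_orb`, `FCX_fin` can be cited) with the
following changes. `c ∈ Co (rhoF a) (X \ W) p` is in `Co (rhoF a) X p` and vanishes on `W` (`co_rel_iff hW`);
use this for `FCX_fin` and for the equivariance. The slices `fun σ => c σ y` are in `Ch (ZMod 2) (X \ W) p`, and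
`pd_fin_w` (RPd) replaces `pd_fin_dl`, so `β y ∈ Ch (ZMod 2) (X \ W) (p - 1)`. At the end `b` is in
`Co (rhoF a) (X \ W) (p - 1)`: by `co_rel_iff` it is enough to have `b ∈ Co (rhoF a) X (p - 1)` (as in the
original proof) and `b σ = 0` for `σ ∈ W`: `b σ y = β (o y) ((e y)⁻¹ • σ) = 0` because `(e y)⁻¹ • σ ∈ W`.
-/

namespace SingerCub

open SingerRA SingerVS SingerRN
open scoped Pointwise

theorem exW_free {H P Y : Type} [Group H] [DecidableEq P] [MulAction H P]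
    {X W : Set (Finset P)} (hX : FreeCx H X) (hW : SubCx H X W) {n : ℕ} (hL : LfW n X W)
    (a : H →* Equiv.Perm Y) (hfree : ∀ h y, a h y = y → h = 1) {p : ℕ} (hp : p ≤ n) :
    ExW (rhoF a) X W p := by
  classical
  intro c hcw h0
  obtain ⟨hc, hcW⟩ := (co_rel_iff hW).mp hcw
  obtain ⟨R, hR⟩ := hX.exists_reps
  obtain ⟨o, e, hoe, ho, he⟩ := FCX_orb a hfree
  -- the slices
  have hcy : ∀ y : Y, (fun σ => c σ y) ∈ Ch (ZMod 2) (X \ W) p := by
    intro y σ hσ
    show c σ y = 0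
    rw [hcw.1 σ hσ]
    rfl
  have hdl : ∀ y : Y, dl X (fun σ => c σ y) = 0 := by
    intro y
    funext σ
    have h1 := dl_map (X := X) (Finsupp.lapply y : (Y →₀ ZMod 2) →ₗ[ZMod 2] ZMod 2) c σ
    rw [h0] at h1
    exact h1.trans (map_zero _)
  have hex : ∀ y : Y, ∃ b : Finset P → ZMod 2, b ∈ Ch (ZMod 2) (X \ W) (p - 1) ∧
      (Function.support b).Finite ∧ dl X b = (fun σ => c σ y) ∧
      ((fun σ => c σ y) = (0 : Finset P → ZMod 2) → b = 0) := by
    intro y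
    by_cases hz : (fun σ => c σ y) = (0 : Finset P → ZMod 2)
    · refine ⟨0, Submodule.zero_mem _, ?_, ?_, fun _ => rfl⟩
      · rw [Function.support_zero]
        exact Set.finite_empty
      · rw [hz, map_zero]
    · obtain ⟨b, hb1, hb2, hb3⟩ := pd_fin_w hX hW hL hp (hcy y) (FCX_fin hfree hR hc y) (hdl y)
      exact ⟨b, hb1, hb2, hb3, fun h1 => absurd h1 hz⟩
  choose β hβ1 hβ2 hβ3 hβ4 using hex
  have hoo : ∀ y, o (o y) = o y := by
    intro y
    conv_rhs => rw [← hoe y, ho]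
  -- finitely many orbits
  have hWf : {y₀ : Y | ∃ y, o y = y₀ ∧ β y₀ ≠ 0}.Finite := by
    refine Set.Finite.subset ((Set.Finite.biUnion R.finite_toSet fun r _ =>
      (c r).support.finite_toSet).image o) ?_
    rintro _ ⟨y, rfl, hy⟩
    have h1 : (fun σ => c σ (o y)) ≠ (0 : Finset P → ZMod 2) := fun h2 => hy (hβ4 _ h2)
    obtain ⟨σ, hσ⟩ := Function.ne_iff.mp h1
    have h2 : c σ (o y) ≠ 0 := hσ
    have hσX : σ ∈ X := by
      by_contra h3
      apply h2
      rw [hc.1 σ (fun h4 => h3 h4.1)]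
      rfl
    obtain ⟨h, r, hr, rfl⟩ := hR.cov σ hσX
    rw [hc.2 h r (hR.mem r hr), rhoF_apply] at h2
    refine ⟨a h⁻¹ (o y), Set.mem_iUnion₂.mpr ⟨r, hr, ?_⟩, ?_⟩
    · exact Finset.mem_coe.mpr (Finsupp.mem_support_iff.mpr h2)
    · rw [ho, hoo]
  have hfin : ∀ σ : Finset P, (Function.support fun y => β (o y) ((e y)⁻¹ • σ)).Finite := by
    intro σ
    by_cases hσ : σ ∈ X
    · refine Set.Finite.subset (Set.Finite.biUnion hWf fun y₀ _ =>
        (?_ : {y : Y | o y = y₀ ∧ β y₀ ((e y)⁻¹ • σ) ≠ 0}.Finite)) ?_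
      · refine Set.Finite.of_finite_image (f := fun y => (e y)⁻¹ • σ) ((hβ2 y₀).subset ?_) ?_
        · rintro _ ⟨y, hy, rfl⟩
          exact hy.2
        · intro y hy y' hy' h1
          have h2 : (e y)⁻¹ = (e y')⁻¹ := hX.smul_inj hσ h1
          have h3 : e y = e y' := inv_injective h2
          rw [← hoe y, ← hoe y', h3, hy.1, hy'.1]
      · intro y hy
        have h1 : β (o y) ((e y)⁻¹ • σ) ≠ 0 := hy
        refine Set.mem_iUnion₂.mpr ⟨o y, ⟨y, rfl, ?_⟩, rfl, h1⟩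
        intro h2
        apply h1
        rw [h2]
        rfl
    · have h1 : (Function.support fun y => β (o y) ((e y)⁻¹ • σ)) = ∅ := by
        rw [Function.support_eq_empty_iff]
        funext y
        exact hβ1 (o y) _ (fun h2 => hσ ((hX.smul_mem_iff _ σ).mp h2.1.1))
      rw [h1]
      exact Set.finite_empty
  set b : Finset P → (Y →₀ ZMod 2) := fun σ =>
    Finsupp.ofSupportFinite (fun y => β (o y) ((e y)⁻¹ • σ)) (hfin σ) with hb
  have hbv : ∀ σ y, b σ y = β (o y) ((e y)⁻¹ • σ) := fun σ y => rfl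
  refine ⟨b, (co_rel_iff hW).mpr ⟨⟨?_, ?_⟩, ?_⟩, ?_⟩
  · intro σ hσ
    ext y
    rw [hbv]
    refine hβ1 (o y) _ (fun h1 => hσ ⟨(hX.smul_mem_iff _ σ).mp h1.1.1, ?_⟩)
    rw [← h1.2, card_smul]
  · intro h σ hσ
    ext y
    rw [hbv, rhoF_apply, hbv, ho, he, mul_inv_rev, inv_inv, mul_smul]
  · intro σ hσ
    ext y
    rw [hbv]
    exact hβ1 (o y) _ (fun h1 => h1.1.2 ((hW.inv_iff _ σ).mpr hσ))
  · funext σ
    by_cases hσ : σ ∈ X
    · ext y
      rw [dl_apply hσ, Finsupp.finsetSum_apply]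
      simp only [hbv]
      have h1 := congrFun (hβ3 (o y)) ((e y)⁻¹ • σ)
      rw [dl_apply ((hX.smul_mem_iff _ σ).mpr hσ)] at h1
      have h2 : (e y)⁻¹ • σ = σ.image (fun x => (e y)⁻¹ • x) := rfl
      have h3 : ∑ q ∈ (e y)⁻¹ • σ, β (o y) (((e y)⁻¹ • σ).erase q) =
          ∑ q ∈ σ, β (o y) ((e y)⁻¹ • σ.erase q) := by
        conv_lhs => rw [h2]
        rw [Finset.sum_image (fun x _ y _ e => MulAction.injective _ e)]
        refine Finset.sum_congr rfl fun q _ => ?_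
        rw [← h2, ← smul_erase]
      rw [← h3, h1]
      show c ((e y)⁻¹ • σ) (o y) = c σ y
      rw [hc.2 _ σ hσ, rhoF_apply, inv_inv, hoe]
    · rw [dl_apply_not hσ, hc.1 σ (fun h1 => hσ h1.1)]

end SingerCub
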