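import Mathlib
import Pool.Agent.Lib_MP_394d50_cub.Defs
import Pool.Agent.Lib_MP_394d50_vs.LTr

/-!
# Piece RNH: small gradients and harmonic chains

`locDim_eq_zero_of_rk hF k hS` gives `locDim I c = 0` for all `c` with `I.dim c = k`. Then argue as in
`nh_of_betti` (second half) in `Lib_MP_394d50_cub/ABet.lean`, copying its private lemmas `abet_chain` and
`abet_harm` (`z ∈ harm I` iff both sums vanish, using `hF.faces`, `hF.cofaces`): `locDim I c = ‖P δ_c‖²`, so
`P δ_c = 0`; a chain `z` as in `NH` (with `S = univ`) is in `harm I`, so `z c = ⟨δ_c, z⟩ = ⟨P δ_c, z⟩ = 0` for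
`dim c = k`, and `z c = 0` otherwise.
-/

namespace SingerCub

open SingerVS

private theorem rnh_chain {C : Type} (g : C → ℤ) (hg : {p | g p ≠ 0}.Finite) :
    ∃ w : L2 C, (∀ p, w p = (g p : ℝ)) ∧ ∀ z : L2 C, inner ℝ w z = ∑ᶠ p, (g p : ℝ) * z p := by
  classical
  refine ⟨∑ p ∈ hg.toFinset, (g p : ℝ) • (delta p : L2 C), ?_, ?_⟩
  · intro c
    rw [l2_sum_apply]
    by_cases hc : g c = 0
    · rw [hc, Int.cast_zero]
      refine Finset.sum_eq_zero fun p hp => ?_
      have hne : c ≠ p := by
        rintro rfl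
        exact (hg.mem_toFinset.1 hp) hc
      show (g p : ℝ) * (delta p : L2 C) c = 0
      rw [delta_ne hne, mul_zero]
    · rw [Finset.sum_eq_single c]
      · show (g c : ℝ) * (delta c : L2 C) c = g c
        rw [delta_self, mul_one]
      · intro p _ hp
        show (g p : ℝ) * (delta p : L2 C) c = 0
        rw [delta_ne (Ne.symm hp), mul_zero]
      · intro h
        exact absurd (hg.mem_toFinset.2 hc) h
  · intro z
    rw [sum_inner, finsum_eq_sum_of_support_subset (s := hg.toFinset)]
    · refine Finset.sum_congr rfl fun p _ => ?_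
      rw [real_inner_smul_left, delta_inner]
    · intro p hp
      rw [Finset.mem_coe, hg.mem_toFinset]
      intro h0
      apply hp
      show (g p : ℝ) * z p = 0
      rw [h0, Int.cast_zero, zero_mul]

private theorem rnh_harm {C : Type} {I : CellCx C} (hf : ∀ q, {p | I.inc p q ≠ 0}.Finite)
    (hc : ∀ p, {q | I.inc p q ≠ 0}.Finite) (z : L2 C) :
    z ∈ harm I ↔ (∀ p, ∑ᶠ q, (I.inc p q : ℝ) * z q = 0) ∧
      (∀ q, ∑ᶠ p, (I.inc p q : ℝ) * z p = 0) := by
  unfold harm
  rw [Submodule.mem_orthogonal]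
  constructor
  · intro h
    constructor
    · intro p
      obtain ⟨w, hw, hi⟩ := rnh_chain (fun q => I.inc p q) (hc p)
      rw [← hi z]
      exact h _ (Submodule.subset_span (Or.inr ⟨p, hw⟩))
    · intro q
      obtain ⟨w, hw, hi⟩ := rnh_chain (fun p => I.inc p q) (hf q)
      rw [← hi z]
      exact h _ (Submodule.subset_span (Or.inl ⟨q, hw⟩))
  · rintro ⟨h1, h2⟩ u hu
    induction hu using Submodule.span_induction with
    | mem x hx =>
      rcases hx with ⟨q, hq⟩ | ⟨p, hp⟩
      · obtain ⟨w, hw, hi⟩ := rnh_chain (fun p => I.inc p q) (hf q)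
        have hx : x = w := l2_ext _ _ fun p => by rw [hq, hw]
        rw [hx, hi, h2]
      · obtain ⟨w, hw, hi⟩ := rnh_chain (fun q => I.inc p q) (hc p)
        have hx : x = w := l2_ext _ _ fun q => by rw [hp, hw]
        rw [hx, hi, h1]
    | zero => rw [inner_zero_left]
    | add a b _ _ ha hb => rw [inner_add_left, ha, hb, add_zero]
    | smul r a _ ha => rw [inner_smul_left, ha, mul_zero]

theorem nh_of_smallH {H C : Type} [Group H] [MulAction H C] {I : CellCx C}
    (hF : FreeCell H I) (k : ℕ) (hS : SmallH H I k) : NH I Set.univ k := by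
  intro z h1 h2 h3
  have hz : z ∈ harm I :=
    (rnh_harm hF.faces hF.cofaces z).2
      ⟨fun p => h2 p (Set.mem_univ p), fun q => h3 q (Set.mem_univ q)⟩
  apply l2_ext
  intro c
  show z c = 0
  by_contra hc
  have h5 := locDim_eq_zero_of_rk hF k hS c (h1 c hc).2
  unfold locDim at h5
  rw [le_self, sq_eq_zero_iff, norm_eq_zero] at h5
  have h6 : (harm I).starProjection z = z := Submodule.starProjection_eq_self_iff.2 hz
  apply hc
  rw [← delta_inner c z, ← h6, ← Submodule.inner_starProjection_left_eq_right, h5,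
    inner_zero_left]

end SingerCub
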