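import Mathlib
import Pool.Agent.Lib_MP_394d50_cmb.GDefs
import Pool.Agent.Lib_MP_394d50_vs.VRank
import Pool.Agent.Lib_MP_394d50_vs.LMat

/-!
# Piece RMAT: exactness of matrices from exactness of equivariant cochains on cells

Let `x : Ob H I k → D`, `x ᵥ* B = 0` (`B` the second matrix). Every cell is `c = h • o.out` for unique `h : H`,
`o : Orb H C` (`exists_rep (H := H)`, `rep_inj hF.free`, see `LMat`/`LErg`). Put
`x' c = if hk : I.dim o.out = k then x ⟨o, hk⟩ * (j h)⁻¹ else 0`. `x'` is equivariant and supported on the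
`k`-cells (`hF.dim_smul`).

Key formula. For an equivariant `x' : C → D`, supported on the `k`-cells, and `o' : Orb H C`:
`∑ᶠ p, inc p o'.out * x' p = ∑ o : Ob H I k, x' o.1.out * φ (incM (ZMod 2) H I o.1 o')`.
Proof: `φ (incM o o') = ∑ h ∈ support, (inc o.out (h • o'.out) : D) * j h` (`coeff_incM`; write the element
of the group ring as the sum of its `single h a = a • gN h`; `φ (a • gN h) = a • j h` for `a : ZMod 2`, by the
cases `a = 0`, `a = 1`; in `D` an integer equals its image mod 2 because `2 = 0` in `D`). The sum over `p` is the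
sum over the pairs `(o, h)`, `p = h⁻¹ • o.out` (a bijection `Orb H C × H ≃ C`), with
`inc (h⁻¹ • o.out) o'.out = inc o.out (h • o'.out)` (`hF.inc_smul`) and
`x' (h⁻¹ • o.out) = x' o.out * j h`.
For `q = g • o'.out`: `∑ᶠ p, inc p q * x' p = (∑ᶠ p, inc p o'.out * x' p) * (j g)⁻¹` (substitute `g • p`).
If `I.dim q ≠ k + 1` all terms are zero (`hF.inc_dim`).

So `x'` is a cocycle, `ExC` gives `y'`, and `y o = y' o.1.out` satisfies `y ᵥ* A = x` by the key formula with
`k - 1` (if `k = 0` then `y' = 0` by its support, so `x = 0`, `y = 0`; if `k = m + 1`, `y'` is supported on the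
`m`-cells). `dm _ _ _ _ _ o o' = incM _ _ _ o.1 o'.1` by definition.
-/

namespace SingerCub

open SingerVS SingerRA Matrix
open scoped Pointwise

section rmat

variable {H C D : Type} [Group H] [MulAction H C] [DivisionRing D] {I : CellCx C}

/-- the value of `φ` at an entry of the matrix -/
private theorem rmat_phi [Algebra (ZMod 2) D] (hF : FreeCell H I) (j : H →* Dˣ)
    (φ : MonoidAlgebra (ZMod 2) H →+* D) (hφ : ∀ h : H, φ (gN h) = ((j h : Dˣ) : D))
    (o o' : Orb H C) :
    φ (incM (ZMod 2) H I o o') =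
      ∑ᶠ h : H, ((I.inc o.out (h • o'.out) : ℤ) : D) * ((j h : Dˣ) : D) := by
  unfold incM
  have hfin : Function.HasFiniteSupport (fun h : H =>
      MonoidAlgebra.single h ((I.inc o.out (h • o'.out) : ℤ) : ZMod 2)) := by
    refine (finite_inc hF o o').subset fun h hh => ?_
    intro h0
    apply hh
    show MonoidAlgebra.single h ((I.inc o.out (h • o'.out) : ℤ) : ZMod 2) = 0
    rw [h0, Int.cast_zero, MonoidAlgebra.single_zero]
  have h1 := AddMonoidHom.map_finsum (φ : MonoidAlgebra (ZMod 2) H →+ D) hfin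
  refine h1.trans (finsum_congr fun h => ?_)
  have h2 : (MonoidAlgebra.single h ((I.inc o.out (h • o'.out) : ℤ) : ZMod 2) :
      MonoidAlgebra (ZMod 2) H) = (I.inc o.out (h • o'.out) : ℤ) • gN h := by
    have h3 : gN h = (MonoidAlgebra.single h (1 : ZMod 2) : MonoidAlgebra (ZMod 2) H) := rfl
    rw [h3, MonoidAlgebra.smul_single, zsmul_one]
  show φ (MonoidAlgebra.single h ((I.inc o.out (h • o'.out) : ℤ) : ZMod 2)) = _
  rw [h2, map_zsmul, hφ, zsmul_eq_mul]

/-- the cells are the pairs (orbit, group element) -/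
private theorem rmat_bij (hF : FreeCell H I) :
    Function.Bijective (fun z : Orb H C × H => z.2⁻¹ • z.1.out) := by
  constructor
  · rintro ⟨o, h⟩ ⟨o', h'⟩ e
    obtain ⟨h1, h2⟩ := rep_inj hF.free e
    exact Prod.ext h2 (inv_injective h1)
  · intro c
    obtain ⟨h, o, rfl⟩ := exists_rep (H := H) c
    refine ⟨(o, h⁻¹), ?_⟩
    show (h⁻¹)⁻¹ • o.out = h • o.out
    rw [inv_inv]

/-- The key formula. -/
private theorem rmat_key [Algebra (ZMod 2) D] (hF : FreeCell H I) [Fintype (Orb H C)]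
    (j : H →* Dˣ) (φ : MonoidAlgebra (ZMod 2) H →+* D)
    (hφ : ∀ h : H, φ (gN h) = ((j h : Dˣ) : D)) {x : C → D}
    (hx : ∀ (h : H) (c : C), x (h • c) = x c * (((j h)⁻¹ : Dˣ) : D)) (o' : Orb H C) :
    ∑ᶠ p, ((I.inc p o'.out : ℤ) : D) * x p =
      ∑ o : Orb H C, x o.out * φ (incM (ZMod 2) H I o o') := by
  have hbij := rmat_bij (H := H) hF
  rw [← finsum_comp (g := fun p => ((I.inc p o'.out : ℤ) : D) * x p) _ hbij]
  have hfin : Function.HasFiniteSupport (fun z : Orb H C × H =>
      ((I.inc (z.2⁻¹ • z.1.out) o'.out : ℤ) : D) * x (z.2⁻¹ • z.1.out)) := by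
    refine ((hF.faces o'.out).preimage hbij.1.injOn).subset fun z hz => ?_
    intro h0
    apply hz
    show ((I.inc (z.2⁻¹ • z.1.out) o'.out : ℤ) : D) * x (z.2⁻¹ • z.1.out) = 0
    rw [h0, Int.cast_zero, zero_mul]
  rw [finsum_curry _ hfin, finsum_eq_sum_of_fintype]
  refine Finset.sum_congr rfl fun o _ => ?_
  rw [rmat_phi hF j φ hφ, mul_finsum]
  refine finsum_congr fun h => ?_
  show ((I.inc (h⁻¹ • o.out) o'.out : ℤ) : D) * x (h⁻¹ • o.out) = _
  have h1 : I.inc (h⁻¹ • o.out) o'.out = I.inc o.out (h • o'.out) := by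
    rw [← hF.inc_smul h (h⁻¹ • o.out), smul_inv_smul]
  rw [h1, hx, map_inv, inv_inv, ← mul_assoc, ← mul_assoc]
  congr 1
  exact Int.cast_commute _ _

/-- equivariance of the coboundary -/
private theorem rmat_smul (hF : FreeCell H I) (j : H →* Dˣ) {x : C → D}
    (hx : ∀ (h : H) (c : C), x (h • c) = x c * (((j h)⁻¹ : Dˣ) : D)) (g : H) (q : C) :
    ∑ᶠ p, ((I.inc p (g • q) : ℤ) : D) * x p =
      (∑ᶠ p, ((I.inc p q : ℤ) : D) * x p) * (((j g)⁻¹ : Dˣ) : D) := by
  rw [finsum_mul, ← finsum_comp (g := fun p => ((I.inc p (g • q) : ℤ) : D) * x p) (fun p => g • p)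
    (MulAction.bijective g)]
  refine finsum_congr fun p => ?_
  show ((I.inc (g • p) (g • q) : ℤ) : D) * x (g • p) = _
  rw [hF.inc_smul, hx, mul_assoc]

/-- sums over the orbits of dimension `m` -/
private theorem rmat_sum [Fintype (Orb H C)] (m : ℕ) (f : Orb H C → D)
    (hf : ∀ o, f o ≠ 0 → I.dim o.out = m) :
    ∑ o : Orb H C, f o = ∑ o : Ob H I m, f o.1 := by
  classical
  rw [← Finset.sum_filter_of_ne (p := fun o : Orb H C => I.dim o.out = m) fun o _ ho => hf o ho]
  exact Finset.sum_subtype _ (fun o => by simp) f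

end rmat

theorem exMat_of_exC {H C D : Type} [Group H] [MulAction H C] [DivisionRing D]
    [Algebra (ZMod 2) D] {I : CellCx C} (hF : FreeCell H I) [Fintype (Orb H C)] (j : H →* Dˣ)
    (φ : MonoidAlgebra (ZMod 2) H →+* D) (hφ : ∀ h : H, φ (gN h) = ((j h : Dˣ) : D)) (k : ℕ)
    (h : ExC I j k) :
    ExMat (Matrix.of fun a b => φ (dm (ZMod 2) H I (k - 1) k a b))
      (Matrix.of fun a b => φ (dm (ZMod 2) H I k (k + 1) a b)) := by
  classical
  intro x hx
  choose hc oc hco using fun c : C => exists_rep (H := H) c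
  set X : Orb H C → D := fun o => if hk : I.dim o.out = k then x ⟨o, hk⟩ else 0 with hX
  have hX0 : ∀ o, X o ≠ 0 → I.dim o.out = k := fun o ho => by
    by_contra hk
    exact ho (dif_neg hk)
  have hX1 : ∀ o : Ob H I k, X o.1 = x o := fun o => dif_pos o.2
  set x' : C → D := fun c => X (oc c) * (((j (hc c))⁻¹ : Dˣ) : D) with hx'
  have hval : ∀ (g : H) (o : Orb H C), x' (g • o.out) = X o * (((j g)⁻¹ : Dˣ) : D) := by
    intro g o
    obtain ⟨h1, h2⟩ := rep_inj hF.free (hco (g • o.out))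
    show X (oc (g • o.out)) * (((j (hc (g • o.out)))⁻¹ : Dˣ) : D) = _
    rw [← h1, ← h2]
  have hout : ∀ o : Orb H C, x' o.out = X o := by
    intro o
    have h1 := hval 1 o
    rw [one_smul, map_one, inv_one, Units.val_one, mul_one] at h1
    exact h1
  have heq : ∀ (g : H) (c : C), x' (g • c) = x' c * (((j g)⁻¹ : Dˣ) : D) := by
    intro g c
    have h1 : x' c = X (oc c) * (((j (hc c))⁻¹ : Dˣ) : D) := rfl
    have h2 : g • c = (g * hc c) • (oc c).out := by
      rw [mul_smul, ← hco c]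
    rw [h2, hval, h1, map_mul, _root_.mul_inv_rev, Units.val_mul, mul_assoc]
  have hsupp : ∀ c, x' c ≠ 0 → I.dim c = k := by
    intro c hc0
    have h1 : X (oc c) ≠ 0 := fun h0 => hc0 (by
      show X (oc c) * (((j (hc c))⁻¹ : Dˣ) : D) = 0
      rw [h0, zero_mul])
    have h2 := hX0 _ h1
    rw [hco c, hF.dim_smul]
    exact h2
  have hcoc : ∀ q, ∑ᶠ p, ((I.inc p q : ℤ) : D) * x' p = 0 := by
    intro q
    obtain ⟨g, o', rfl⟩ := exists_rep (H := H) q
    rw [rmat_smul hF j heq, rmat_key hF j φ hφ heq]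
    have h0 : ∑ o : Orb H C, x' o.out * φ (incM (ZMod 2) H I o o') = 0 := by
      by_cases hd : I.dim o'.out = k + 1
      · rw [rmat_sum (I := I) k _ fun o ho => ?_]
        · have h1 := congrFun hx ⟨o', hd⟩
          refine Eq.trans ?_ h1
          rw [Matrix.vecMul, dotProduct]
          refine Finset.sum_congr rfl fun o _ => ?_
          rw [hout, hX1]
          rfl
        · rw [hout] at ho
          exact hX0 o fun h2 => ho (by rw [h2, zero_mul])
      · refine Finset.sum_eq_zero fun o _ => ?_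
        rw [hout]
        by_cases hk : I.dim o.out = k
        · rw [incM_eq_zero hF, map_zero, mul_zero]
          rw [hk]
          exact hd
        · have h2 : X o = 0 := dif_neg hk
          rw [h2, zero_mul]
    rw [h0, zero_mul]
  obtain ⟨y, hy1, hy2, hy3⟩ := h x' hsupp heq hcoc
  refine ⟨fun o => y o.1.out, ?_⟩
  funext o'
  have h1 := hy3 o'.1.out
  rw [rmat_key hF j φ hφ hy2, hout, hX1, rmat_sum (I := I) (k - 1) _ fun o ho => ?_] at h1
  · rw [← h1, Matrix.vecMul, dotProduct]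
    rfl
  · have h2 : y o.out ≠ 0 := fun h3 => ho (by rw [h3, zero_mul])
    have h3 := hy1 _ h2
    omega

end SingerCub
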