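import Mathlib
import Pool.Agent.Lib_MP_394d50_cmb.RMat
import Pool.Agent.Lib_MP_394d50_rn.MNR

/-!
# Piece RSM: small gradients from exactness over the division rings

As `smallH_rn` (MNR) and `ranks_rn` (EXU) in `Lib_MP_394d50_rn`. `intro iF S ε hε`; `exists_seq hres`,
`exists_tord`, `isOreG_of_amen`, `noZeroDiv` as in `smallH_rn` give the tower `T = towPi A` and an injective
`j : H →* U`. `hex` and `exMat_of_exC` (RMat; `φ = phiD T j`, `phiD_gN T j`) give `ExMat`; `exMat_map
(DF T).subtype`, the equality `key` in the proof of `ranks_rn` (`phiU_eq`), and `ranks_of_up_amen` give `Q, g` and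
the inequality for `regM ((dm ..).map (mapDomainRingHom (ZMod 2) g))`, which is `dQ I g ..` by definition
(`rgM` and `regM` agree: `Matrix.ext`, `rfl`). `hfaith` as in `ranks_rn` (`prV_ne_one`).
-/

namespace SingerCub

open SingerVS SingerRA SingerRN Matrix Filter
open scoped Pointwise

theorem smallH_of_exC {H C : Type} [Group H] [MulAction H C] {I : CellCx C}
    (hF : FreeCell H I) [Countable H] (hres : ResLOA H) (k : ℕ)
    (hex : ∀ (U : Type) [Group U] (T : Tow U) [∀ c, NoZeroDivisors (FN (T.V c))]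
      [∀ c, IsOreG (T.V c)], (∀ i, Amen (T.V i)) → (∃ r, TOrd T r) → ∀ j : H →* U,
      Function.Injective j → ExC I ((tD T).comp j) k) : SmallH H I k := by
  classical
  intro iF S ε hε
  obtain ⟨A, iA, hA, hO, hRF, j, hj⟩ := exists_seq hres
  obtain ⟨r, hr⟩ := exists_tord A hO
  have i1 : ∀ c, NoZeroDivisors (FN ((towPi A).V c)) := fun c => (hr.rV c).noZeroDiv (ZMod 2)
  have i2 : ∀ c, IsOreG ((towPi A).V c) := fun c => isOreG_of_amen (amen_towPi A hA c) (hr.rV c)
  have hx := hex (∀ c, A c) (towPi A) (amen_towPi A hA) ⟨r, hr⟩ j hj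
  have hfaith : ∀ h : H, h ≠ 1 →
      ∀ᶠ c in (hyperfilter ℕ : Filter ℕ), (prV (towPi A) c).comp j h ≠ 1 := by
    intro h hne
    exact prV_ne_one (towPi A) (fun h1 => hne (hj (by rw [h1, map_one])))
  have key : ∀ {a b : Type} (M : Matrix a b (MonoidAlgebra (ZMod 2) H)),
      (Matrix.of fun x y => phiD (towPi A) j (M x y)).map (DF (towPi A)).subtype =
        Matrix.of fun x y => upm (fun c => DN ((towPi A).V c)) (fun c => io ((towPi A).V c)
          (MonoidAlgebra.mapDomainRingHom (ZMod 2) ((prV (towPi A) c).comp j) (M x y))) := by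
    intro a b M
    apply Matrix.ext
    intro x y
    exact phiU_eq (towPi A) j (M x y)
  have h1 := exMat_map (DF (towPi A)).subtype (exMat_of_exC hF ((tD (towPi A)).comp j)
    (phiD (towPi A) j) (phiD_gN (towPi A) j) k hx)
  rw [key, key] at h1
  obtain ⟨Q, i3, i4, g, h2, h3⟩ := ranks_of_up_amen (fun c => (towPi A).V c)
    (fun c => DN ((towPi A).V c)) (fun c => io ((towPi A).V c))
    (fun c => io_inj ((towPi A).V c)) (amen_towPi A hA) (resFin_towPi A hRF)
    (fun c => (prV (towPi A) c).comp j) hfaith _ _ h1 S ε hε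
  refine ⟨Q, i3, i4, g, h2, ?_⟩
  rw [← Nat.card_eq_fintype_card (α := Q)]
  exact h3

end SingerCub
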