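import Mathlib
import Pool.Agent.Lib_MP_394d50_cmb.MDefs
import Pool.Agent.Lib_MP_394d50_vs.TDescV

/-!
# Piece RTATE: the Tate argument for relative cochains

Copy the four proofs of `Lib_MP_394d50_vs/TDescV.lean` (`sym_decompV`, `tate_climbV`, `tate_descV`, `tateV`), and
carry along that everything vanishes on `W`. All lemmas of `TTateV.lean` (`xc_mem`, `xc_dl`, `xc_low`,
`xc_high`, `xc_eq`, `co_NT`, ...) are cited for `X`; with `co_rel_iff hW` one passes between
`Co ρ (X \ W) k` and `Co ρ X k` together with `∀ σ ∈ W, c σ = 0`.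
* `xc_rel`: if `a` vanishes on `W` then `xc X a j` vanishes on `W`: for `σ ∈ W`, `xiS a σ` is the sum over
  `A, B ⊆ σ`, `A ∪ B = σ`, of terms with the factor `a A ⊗ star (a B)`, and `a A = 0` for every `A ⊆ σ`
  (`A ∈ W` or `A = ∅ ∉ X`).
* `sym_decompW`: in the proof of `sym_decompV` choose `z σ = 0`, `e σ = 0` when `w σ = 0`
  (`by_cases`); then `coE _ hR m z` and `coE _ hR m e` vanish on `W`, because for `σ ∈ W` also
  `hR.rep σ ∈ W` (`hR.el_rep`, `hW.inv_iff`) and `w (hR.rep σ) = 0`.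
* `dl X` of a relative cochain vanishes on `W` (`dl_rel`), `NT` is linear.
* In `tate_climbW`, `hE` gives `y ∈ Co (rhoT t) (X \ W) (m0 - 1)`.
-/

namespace SingerCub

open SingerRA SingerVS SingerRN
open scoped TensorProduct Pointwise

variable {H : Type} [Group H] {P : Type} [LinearOrder P] [MulAction H P] {X W : Set (Finset P)}
  {D : Type} [DivisionRing D] [Algebra (ZMod 2) D] [StarRing D]
  (t : H →* Dˣ) (ht : ∀ h, star ((t h : Dˣ) : D) = (((t h)⁻¹ : Dˣ) : D))

private theorem xc_rel (hX : FreeCx H X) (hW : SubCx H X W) {k : ℕ} {a : Finset P → D}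
    (haw : a ∈ Co (rhoD t) (X \ W) k) (j : ℕ) : ∀ σ ∈ W, xc X a j σ = 0 := by
  classical
  obtain ⟨ha, haW⟩ := (co_rel_iff hW).mp haw
  intro σ hσ
  unfold xc
  split_ifs with h
  · unfold xiS
    refine Finset.sum_eq_zero fun A hA => Finset.sum_eq_zero fun B _ => ?_
    have h0 : a A = 0 := by
      by_cases h1 : A.Nonempty
      · exact haW A (hW.down σ hσ A (Finset.mem_powerset.mp hA) h1)
      · rw [Finset.not_nonempty_iff_eq_empty.mp h1]
        exact ha.1 ∅ fun h2 => hX.empty_notMem h2.1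
    rw [h0, TensorProduct.zero_tmul, smul_zero, ite_self]
  · rfl

include ht in
private theorem xcW_mem (hX : FreeCx H X) (hW : SubCx H X W) (ho : OrdInv H X) {k : ℕ}
    {a : Finset P → D} (haw : a ∈ Co (rhoD t) (X \ W) k) (j : ℕ) :
    xc X a j ∈ Co (rhoT t) (X \ W) j :=
  (co_rel_iff hW).mpr ⟨xc_mem t ht hX ho ((co_rel_iff hW).mp haw).1 j, xc_rel t hX hW haw j⟩

include ht in
private theorem sym_decompW (hX : FreeCx H X) (hW : SubCx H X W) {m : ℕ} {w : Finset P → TT D}
    (hww : w ∈ Co (rhoT t) (X \ W) m) (h0 : ∀ σ, NT (w σ) = 0) :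
    ∃ β ∈ Co (rhoD t) (X \ W) m, ∃ u ∈ Co (rhoT t) (X \ W) m,
      ∀ σ, w σ = β σ ⊗ₜ[ZMod 2] star (β σ) + NT (u σ) := by
  classical
  obtain ⟨hw, hwW⟩ := (co_rel_iff hW).mp hww
  obtain ⟨R, hR⟩ := hX.exists_reps
  have h1 : ∀ σ, ∃ (z : D) (e : TT D), w σ = z ⊗ₜ[ZMod 2] star z + NT e ∧
      (w σ = 0 → z = 0 ∧ e = 0) := by
    intro σ
    by_cases h3 : w σ = 0
    · exact ⟨0, 0, by rw [h3]; simp, fun _ => ⟨rfl, rfl⟩⟩
    · have h2 : tau (w σ) = w σ := (tt_eq_of_add (h0 σ)).symm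
      obtain ⟨z, e, h4⟩ := tens_inv (w σ) h2
      exact ⟨z, e, h4, fun h5 => absurd h5 h3⟩
  choose z e hze hze0 using h1
  have hrW : ∀ σ ∈ W, w (hR.rep σ) = 0 := by
    intro σ hσ
    apply hwW
    rw [← hW.inv_iff (hR.el σ), hR.el_rep (hW.sub hσ)]
    exact hσ
  refine ⟨coE (rhoD t) hR m z, (co_rel_iff hW).mpr ⟨hX.coE_mem hR m z, fun σ hσ => ?_⟩,
    coE (rhoT t) hR m e, (co_rel_iff hW).mpr ⟨hX.coE_mem hR m e, fun σ hσ => ?_⟩,
    fun σ => ?_⟩
  · unfold coE
    rw [(hze0 _ (hrW σ hσ)).1, map_zero, ite_self]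
  · unfold coE
    rw [(hze0 _ (hrW σ hσ)).2, map_zero, ite_self]
  by_cases hσ : σ ∈ X ∧ σ.card = m
  · unfold coE
    rw [if_pos hσ, if_pos hσ, NT_rhoT t ht]
    have h2 := hze (hR.rep σ)
    have h3 := hw.2 (hR.el σ) (hR.rep σ) (hR.mem _ (hR.rep_mem hσ.1))
    rw [hR.el_rep hσ.1] at h3
    rw [h3, h2, map_add, rhoT_tmul, rhoD_apply, star_mul]
    have h5 : star ((((t (hR.el σ))⁻¹ : Dˣ) : D)) = ((t (hR.el σ) : Dˣ) : D) := by
      rw [← ht, star_star]
    rw [h5]
  · rw [hw.1 σ hσ]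
    unfold coE
    rw [if_neg hσ, if_neg hσ]
    simp

include ht in
private theorem tate_climbW (hX : FreeCx H X) (hW : SubCx H X W) (ho : OrdInv H X) {n : ℕ}
    (hE : ∀ i, 1 ≤ i → i ≤ n → ExW (rhoT (D := D) t) X W i) {k : ℕ} (hk : 1 ≤ k)
    (hkn : 2 * k - 1 ≤ n) {a : Finset P → D} (haw : a ∈ Co (rhoD t) (X \ W) k) (hd : dl X a = 0)
    (i : ℕ) (hi : i ≤ 2 * k - 1) :
    ∃ w : ℕ → Finset P → TT D, (∀ m, w m ∈ Co (rhoT t) (X \ W) m) ∧
      ∀ m, 2 * k - i ≤ m → m ≤ 2 * k →
        dl X (w (m - 1)) = fun σ => xc X a m σ + NT (w m σ) := by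
  have ha := ((co_rel_iff hW).mp haw).1
  induction i with
  | zero =>
    refine ⟨fun _ => 0, fun m => Submodule.zero_mem _, fun m h1 h2 => ?_⟩
    have h3 : m = 2 * k := by omega
    subst h3
    rw [xc_high t hk ha le_rfl, map_zero]
    funext σ
    simp
  | succ i ih =>
    obtain ⟨w, hw, hE'⟩ := ih (by omega)
    obtain ⟨m0, hm0⟩ : ∃ m0, m0 + 1 + i = 2 * k := ⟨2 * k - 1 - i, by omega⟩
    have hc : (fun σ => xc X a m0 σ + NT (w m0 σ)) ∈ Co (rhoT t) (X \ W) m0 :=
      Submodule.add_mem _ (xcW_mem t ht hX hW ho haw m0) (co_NT t ht (hw m0))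
    have hcoc : dl X (fun σ => xc X a m0 σ + NT (w m0 σ)) = 0 := by
      have e1 : (fun σ => xc X a m0 σ + NT (w m0 σ)) =
          xc X a m0 + fun σ => NT (w m0 σ) := rfl
      rw [e1, map_add, xc_dl t hX ha hd, dl_comp]
      have h2 := hE' (m0 + 1) (by omega) (by omega)
      rw [Nat.add_sub_cancel] at h2
      rw [h2]
      funext σ
      show NT (xc X a (m0 + 1) σ) + NT (xc X a (m0 + 1) σ + NT (w (m0 + 1) σ)) = 0
      rw [map_add, NT_NT, add_zero]
      exact tt_two _
    obtain ⟨y, hy, hy'⟩ := hE m0 (by omega) (by omega) _ hc hcoc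
    refine ⟨Function.update w (m0 - 1) y, fun m => ?_, fun m h1 h2 => ?_⟩
    · by_cases hm : m = m0 - 1
      · subst hm
        rw [Function.update_self]
        exact hy
      · rw [Function.update_of_ne hm]
        exact hw m
    · by_cases hm : m = m0
      · subst hm
        rw [Function.update_self, Function.update_of_ne (by omega)]
        exact hy'
      · rw [Function.update_of_ne (by omega), Function.update_of_ne (by omega)]
        exact hE' m (by omega) h2

include ht in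
private theorem tate_descW (hX : FreeCx H X) (hW : SubCx H X W) (ho : OrdInv H X) {k : ℕ}
    {a : Finset P → D} (haw : a ∈ Co (rhoD t) (X \ W) k)
    (h : ∃ w : ℕ → Finset P → TT D, (∀ m, w m ∈ Co (rhoT t) (X \ W) m) ∧
      ∀ m, 1 ≤ m → m ≤ k → dl X (w (m - 1)) = fun σ => xc X a m σ + NT (w m σ))
    (m : ℕ) (hm : m + 2 ≤ k) :
    ∃ w : ℕ → Finset P → TT D, (∀ m, w m ∈ Co (rhoT t) (X \ W) m) ∧
      (∀ m, 1 ≤ m → m ≤ k → dl X (w (m - 1)) = fun σ => xc X a m σ + NT (w m σ)) ∧
      ∀ j, j ≤ m → w j = 0 := by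
  classical
  have ha := ((co_rel_iff hW).mp haw).1
  induction m with
  | zero =>
    obtain ⟨w, h1, h2⟩ := h
    refine ⟨w, h1, h2, fun j hj => ?_⟩
    have h3 : j = 0 := by omega
    subst h3
    exact hX.co_zero ((co_rel_iff hW).mp (h1 0)).1
  | succ m ih =>
    obtain ⟨w, h1, h2, h3⟩ := ih (by omega)
    -- `w (m+1)` is symmetric
    have h4 : ∀ σ, NT (w (m + 1) σ) = 0 := by
      intro σ
      have h5 := congrFun (h2 (m + 1) (by omega) (by omega)) σ
      rw [Nat.add_sub_cancel, h3 m le_rfl, map_zero, xc_low t ha (by omega : m + 1 < k)] at h5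
      simpa using h5.symm
    obtain ⟨β, hβw, u, hu, hw⟩ := sym_decompW t ht hX hW (h1 (m + 1)) h4
    have hβ := ((co_rel_iff hW).mp hβw).1
    -- `β` is a cocycle
    have hdw : dl X (w (m + 1)) = fun σ => dl X (fun τ => β τ ⊗ₜ[ZMod 2] star (β τ)) σ +
        NT (dl X u σ) := by
      have e1 : w (m + 1) = (fun τ => β τ ⊗ₜ[ZMod 2] star (β τ)) + fun τ => NT (u τ) :=
        funext hw
      rw [e1, map_add, dl_comp]
      rfl
    have h6' : dl X (w (m + 1)) = fun σ => NT (w (m + 2) σ) := by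
      have h6 := h2 (m + 2) (by omega) (by omega)
      have h7 : m + 2 - 1 = m + 1 := rfl
      rw [h7, xc_low t ha (by omega : m + 2 < k)] at h6
      rw [h6]
      funext σ
      simp
    have hβd : dl X β = 0 := by
      funext σ
      obtain ⟨e, he⟩ := sq_dl (X := X) β σ
      have h8 : dl X (fun τ => β τ ⊗ₜ[ZMod 2] star (β τ)) σ =
          NT (w (m + 2) σ + dl X u σ) := by
        have h9 := congrFun (hdw.symm.trans h6') σ
        rw [map_add, ← h9, add_assoc, tt_two, add_zero]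
      rw [h8, ← map_add] at he
      exact sq_zero he
    have hκ : (fun τ => β τ ⊗ₜ[ZMod 2] star (β τ)) = xc X β (m + 1) :=
      funext fun τ => (xc_eq t hβ τ).symm
    have hdκ : dl X (xc X β (m + 1)) = fun σ => NT (xc X β (m + 2) σ) :=
      xc_dl t hX hβ hβd (m + 1)
    refine ⟨fun j => if j ≤ m + 1 then 0 else w j + xc X β j +
      (if j = m + 2 then dl X u else 0), fun j => ?_, fun j hj1 hj2 => ?_, fun j hj => if_pos hj⟩
    · beta_reduce
      by_cases hj : j ≤ m + 1
      · rw [if_pos hj]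
        exact Submodule.zero_mem _
      · rw [if_neg hj]
        refine Submodule.add_mem _ (Submodule.add_mem _ (h1 j) (xcW_mem t ht hX hW ho hβw j)) ?_
        by_cases hj' : j = m + 2
        · rw [if_pos hj']
          subst hj'
          exact (co_rel_iff hW).mpr ⟨hX.co_dl ((co_rel_iff hW).mp hu).1, dl_rel hX hW hu.1⟩
        · rw [if_neg hj']
          exact Submodule.zero_mem _
    · beta_reduce
      by_cases hj : j ≤ m + 1
      · rw [if_pos hj, if_pos (by omega : j - 1 ≤ m + 1), xc_low t ha (by omega : j < k),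
          map_zero]
        funext σ
        simp
      · rw [if_neg hj]
        by_cases hj' : j = m + 2
        · subst hj'
          have h7 : m + 2 - 1 = m + 1 := rfl
          rw [h7, if_pos le_rfl, if_pos rfl, map_zero, xc_low t ha (by omega : m + 2 < k)]
          funext σ
          have h9 := congrFun (hdw.symm.trans h6') σ
          rw [hκ] at h9
          have h10 := congrFun hdκ σ
          show (0 : TT D) = 0 + NT (w (m + 2) σ + xc X β (m + 2) σ + dl X u σ)
          rw [zero_add, map_add, map_add, ← h10, ← h9]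
          have h11 : ∀ x y : TT D, 0 = x + y + x + y := by
            intro x y
            have : x + y + x + y = (x + x) + (y + y) := by abel
            rw [this, tt_two, tt_two, add_zero]
          exact h11 _ _
        · rw [if_neg hj', if_neg (by omega : ¬ j - 1 ≤ m + 1), add_zero]
          have hE := h2 j hj1 hj2
          have hb := xc_dl t hX hβ hβd (j - 1)
          rw [show j - 1 + 1 = j by omega] at hb
          have hu0 : dl X (if j - 1 = m + 2 then dl X u else 0) = 0 := by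
            split_ifs
            · exact hX.dl_dl u
            · exact map_zero _
          rw [map_add, map_add, hu0, add_zero, hE, hb]
          funext σ
          show xc X a j σ + NT (w j σ) + NT (xc X β j σ) =
            xc X a j σ + NT (w j σ + xc X β j σ)
          rw [map_add, add_assoc]

include ht in
/-- The Tate argument for the pair `(X, W)`. -/
theorem tateW (hX : FreeCx H X) (hW : SubCx H X W) (ho : OrdInv H X) {n : ℕ}
    (hE : ∀ i, 1 ≤ i → i ≤ n → ExW (rhoT (D := D) t) X W i) (k : ℕ) (hk : 1 ≤ k)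
    (hkn : 2 * (k - 1) < n) : ExW (rhoD (D := D) t) X W k := by
  classical
  intro a haw hd
  have ha := ((co_rel_iff hW).mp haw).1
  obtain ⟨w, hw1, hw2⟩ := tate_climbW t ht hX hW ho hE hk (by omega) haw hd (2 * k - 1) le_rfl
  have h0 : ∃ w : ℕ → Finset P → TT D, (∀ m, w m ∈ Co (rhoT t) (X \ W) m) ∧
      ∀ m, 1 ≤ m → m ≤ k → dl X (w (m - 1)) = fun σ => xc X a m σ + NT (w m σ) :=
    ⟨w, hw1, fun m h1 h2 => hw2 m (by omega) (by omega)⟩
  -- a sequence with `NT (w (k-1)) = 0`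
  obtain ⟨w, h1, h2, h4⟩ : ∃ w : ℕ → Finset P → TT D, (∀ m, w m ∈ Co (rhoT t) (X \ W) m) ∧
      (∀ m, 1 ≤ m → m ≤ k → dl X (w (m - 1)) = fun σ => xc X a m σ + NT (w m σ)) ∧
      ∀ σ, NT (w (k - 1) σ) = 0 := by
    by_cases hk1 : k = 1
    · subst hk1
      obtain ⟨w, h1, h2⟩ := h0
      refine ⟨w, h1, h2, fun σ => ?_⟩
      rw [hX.co_zero ((co_rel_iff hW).mp (h1 0)).1]
      exact map_zero _
    · obtain ⟨w, h1, h2, h3⟩ := tate_descW t ht hX hW ho haw h0 (k - 2) (by omega)
      refine ⟨w, h1, h2, fun σ => ?_⟩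
      have h5 := congrFun (h2 (k - 1) (by omega) (by omega)) σ
      rw [show k - 1 - 1 = k - 2 by omega, h3 (k - 2) le_rfl, map_zero,
        xc_low t ha (by omega : k - 1 < k)] at h5
      simpa using h5.symm
  obtain ⟨β, hβw, u, hu, hw⟩ := sym_decompW t ht hX hW (h1 (k - 1)) h4
  refine ⟨β, hβw, ?_⟩
  have hdw : dl X (w (k - 1)) = fun σ => dl X (fun τ => β τ ⊗ₜ[ZMod 2] star (β τ)) σ +
      NT (dl X u σ) := by
    have e1 : w (k - 1) = (fun τ => β τ ⊗ₜ[ZMod 2] star (β τ)) + fun τ => NT (u τ) :=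
      funext hw
    rw [e1, map_add, dl_comp]
    rfl
  have h6 := h2 k hk le_rfl
  funext σ
  obtain ⟨e, he⟩ := sq_dl (X := X) β σ
  obtain ⟨e', he'⟩ := sq_add (dl X β σ) (a σ)
  have h7 := congrFun (hdw.symm.trans h6) σ
  beta_reduce at h7
  rw [xc_eq t ha σ] at h7
  have h8 : dl X (fun τ => β τ ⊗ₜ[ZMod 2] star (β τ)) σ =
      a σ ⊗ₜ[ZMod 2] star (a σ) + NT (w k σ + dl X u σ) := by
    rw [map_add, ← add_assoc, ← h7, add_assoc, tt_two, add_zero]
  rw [he, h8] at he'
  have h9 : (dl X β σ + a σ) ⊗ₜ[ZMod 2] star (dl X β σ + a σ) =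
      NT (w k σ + dl X u σ + e + e') := by
    rw [he']
    simp only [map_add]
    have h10 : ∀ x y z v q : TT D, x + (y + z) + v + x + q = y + z + v + q := by
      intro x y z v q
      have : x + (y + z) + v + x + q = (x + x) + (y + z + v + q) := by abel
      rw [this, tt_two, zero_add]
    exact h10 _ _ _ _ _
  have h11 := sq_zero h9
  have h12 : a σ + a σ = 0 := tt_two _
  calc dl X β σ = dl X β σ + (a σ + a σ) := by rw [h12, add_zero]
    _ = (dl X β σ + a σ) + a σ := by rw [add_assoc]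
    _ = a σ := by rw [h11, zero_add]

end SingerCub
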