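import Mathlib
import Pool.Agent.Lib_MP_394d50_cmb.RCoc
import Pool.Agent.Lib_MP_394d50_cmb.RTate
import Pool.Agent.Lib_MP_394d50_cmb.RSm
import Pool.Agent.Lib_MP_394d50_cmb.RNh
import Pool.Agent.Lib_MP_394d50_cmb.RBr
import Pool.Agent.Lib_MP_394d50_cub.EFil

/-!
# Piece RREL: the relative theorem for virtually residually (amenable ...) groups

`rel_nh_res`: `I = simpCx (X \ W) (· < ·)`, `freeCell_rel` (with `totOn_lt`, `ho`). `nh_of_smallH`,
`smallH_of_exC`, `exC_of_exW` reduce to `ExW (rhoD ((tD T).comp j)) X W (k + 1)`, which is `tateW` (with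
`star_tD T (j h)`, as in `exact_rn` in EXU) applied to `exW_rhoT (star_tD T) (dsys_tD T) hO hr hX hW hL j hj`, where
`hO i = oreExt_phiI (dsys_tD T) hA hr i`. (`2 * (k + 1 - 1) < n`.)

`rel_nh`: `exists_good_res hX hK` gives `K₀ ≤ K` of finite index, `ResLOA K₀`, and a linear order `lo` on `P`,
invariant on the simplices. `FreeCx K₀ X` by `hX.of_finiteIndex K₀`. Apply `rel_nh_res` for `K₀` with the order `lo`
(the instances of decidable equality: see `smallH_dec_rn` and `locDim_zero_rn` in MNR). `NH` does not depend on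
the order: `nh_map` with the identity map and the signs `s σ = sgnN r r' σ` (`simpInc_change` in LSim).
-/

namespace SingerCub

open SingerVS SingerRA SingerRN
open scoped Pointwise

theorem rel_nh_res {K P : Type} [Group K] [LinearOrder P] [MulAction K P]
    {X W : Set (Finset P)} (hX : FreeCx K X) (hW : SubCx K X W) (ho : OrdInv K X) {n : ℕ}
    (hL : LfW n X W) [Countable K] (hres : ResLOA K) (k : ℕ) (hk : 2 * k < n) :
    NH (simpCx (X \ W) (fun x y : P => x < y)) Set.univ k := by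
  let iA := simpAct (X := X \ W) (relInv hX hW)
  have hF : FreeCell K (simpCx (X \ W) (fun x y : P => x < y)) :=
    freeCell_rel hX hW (fun σ _ => SingerVS.totOn_lt inferInstance σ) ho
  refine nh_of_smallH hF k (smallH_of_exC hF hres k ?_)
  intro U _ T _ _ hA hr j hj
  obtain ⟨r, hr⟩ := hr
  have hO : ∀ i, OreExt (phiI T (tD T) i) := fun i => oreExt_phiI (dsys_tD T) hA hr i
  exact exC_of_exW hX hW _ k (tateW _ (fun h => star_tD T (j h)) hX hW ho
    (fun i _ h2 => exW_rhoT (star_tD T) (dsys_tD T) hO hr hX hW hL j hj h2) (k + 1)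
    (by omega) (by omega))

private theorem rrel_dec {K P : Type} [Group K] [inst : DecidableEq P] [MulAction K P]
    {X W : Set (Finset P)} (hX : FreeCx K X) (hW : SubCx K X W) {n : ℕ}
    (hL : LfW n X W) [Countable K] (hres : ResLOA K) (k : ℕ) (hk : 2 * k < n)
    (lo : LinearOrder P)
    (ho : ∀ h : K, ∀ σ ∈ X, ∀ x ∈ σ, ∀ y ∈ σ, lo.lt x y → lo.lt (h • x) (h • y)) :
    NH (@simpCx P inst (X \ W) lo.lt) Set.univ k := by
  have e : inst = lo.toDecidableEq := Subsingleton.elim _ _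
  subst e
  exact rel_nh_res hX hW ho hL hres k hk

private theorem rrel_order {P : Type} [DecidableEq P] {X : Set (Finset P)} {r r' : P → P → Prop}
    (hr : ∀ σ ∈ X, TotOn r σ) (hr' : ∀ σ ∈ X, TotOn r' σ) (k : ℕ)
    (h : NH (simpCx X r) Set.univ k) : NH (simpCx X r') Set.univ k := by
  classical
  have h1 := (nh_map (I := simpCx X r) (I' := simpCx X r') (S := Set.univ) id
    (Set.injOn_id _) (fun c => sgnN r r' c.1) (fun c => sgnN_pm r r' c.1) 1 (Or.inl rfl)
    (fun p _ q _ => by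
      rw [one_mul]
      exact simpInc_change (hr _ q.2) (hr' _ q.2) p.1) 0 0 (fun _ _ => rfl) k).1 h
  rw [Set.image_id] at h1
  exact h1

private theorem rrel_exists {K P : Type} [Group K] [inst : DecidableEq P] [MulAction K P]
    {X W : Set (Finset P)} (hX : FreeCx K X) (hW : SubCx K X W) {n : ℕ} (hL : LfW n X W)
    [Countable K] (hK : VirtRes K) (k : ℕ) (hk : 2 * k < n) :
    ∃ r : P → P → Prop, (∀ σ, TotOn r σ) ∧ NH (simpCx (X \ W) r) Set.univ k := by
  obtain ⟨K₀, hf, hres, lo, hord⟩ :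
      ∃ K₀ : Subgroup K, K₀.FiniteIndex ∧ ResLOA K₀ ∧ ∃ lo : LinearOrder P,
        ∀ h : K₀, ∀ σ ∈ X, ∀ x ∈ σ, ∀ y ∈ σ, lo.lt x y → lo.lt (h • x) (h • y) := by
    obtain ⟨K₀, lo, hf, hres, hord⟩ := exists_good_res hX hK
    exact ⟨K₀, hf, hres, lo, hord⟩
  have hXK : @FreeCx K₀ _ P inst _ X := @FreeCx.of_finiteIndex K P _ inst _ X hX K₀ hf
  have hWK : @SubCx K₀ _ P inst _ X W :=
    @SubCx.mk K₀ _ P inst _ X W hW.sub hW.down (fun h σ hσ => hW.inv h.1 σ hσ)
  exact ⟨lo.lt, fun σ => SingerVS.totOn_lt lo σ,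
    @rrel_dec K₀ P _ inst _ X W hXK hWK n hL _ hres k hk lo hord⟩

/-- The relative theorem. -/
theorem rel_nh {K P : Type} [Group K] [LinearOrder P] [MulAction K P] {X W : Set (Finset P)}
    (hX : FreeCx K X) (hW : SubCx K X W) {n : ℕ} (hL : LfW n X W) [Countable K]
    (hK : VirtRes K) (k : ℕ) (hk : 2 * k < n) :
    NH (simpCx (X \ W) (fun x y : P => x < y)) Set.univ k := by
  obtain ⟨r, hr, h1⟩ := rrel_exists hX hW hL hK k hk
  exact rrel_order (fun σ _ => hr σ) (fun σ _ => SingerVS.totOn_lt inferInstance σ) k h1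

end SingerCub
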