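import Mathlib
import Pool.Agent.Lib_MP_394d50_cmb.CClo
import Pool.Agent.Lib_MP_394d50_cmb.RRel
import Pool.Agent.Lib_MP_394d50_cub.EFil
import Pool.Agent.Lib_MP_394d50_cub.DDefs

/-!
# Piece CREST: the complement of the walls

`nh_block` for `S = {c | ∀ i, c.1 ∉ Y i}` and `b c = cham X Y c.1` (type `Set (Finset P)`): if `p, q ∈ S` and
`I.inc p q ≠ 0` then `p.1` is a facet of `q.1` (`hinc`, `simpInc_ne` in LSim), so `Adj` and `cham_eq` (`q ∈ cham p`).
The block of `β`: if it is empty, `nh_empty`. Otherwise let `c₀` be in it, `σ = c₀.1`, `β = cham X Y σ = C`; the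
block is `{c : SX X | c.1 ∈ C}` (`cham_mem`, `cham_eq`, `mem_cham_self`). With `K` the stabiliser of `C`:
`FreeCx K (clo X Y σ)`, `SubCx`, `LfW n` from CCLO; `K` is countable; `hG` gives `VirtRes K`; `rel_nh` gives
`NH (simpCx (clo X Y σ \ bdy X Y σ) (· < ·)) univ k`. `clo_sdiff` (rewrite the set), then `nh_map` with
`φ : SX C → SX X`, `φ c = ⟨c.1, _⟩` (`cham_mem`), the signs `s ∘ φ`, `e = 1`, `a = b = 0`, as in `wall_nh` in
`Lib_MP_394d50_cub/AMain.lean`.
-/

namespace SingerCub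

open SingerVS SingerRN
open scoped Pointwise

section

variable {Γ P ι : Type} [Group Γ] [LinearOrder P] [MulAction Γ P] [MulAction Γ ι]
  {X : Set (Finset P)} {Y : ι → Set (Finset P)}

theorem rest_cmb (hX : FreeCx Γ X) [Countable Γ] {n : ℕ}
    (hdown : ∀ i, ∀ σ ∈ Y i, ∀ τ, τ ⊆ σ → τ.Nonempty → τ ∈ Y i)
    (hsmul : ∀ (g : Γ) i, ∀ σ ∈ Y i, g • σ ∈ Y (g • i)) (hL : LfW n X (⋃ i, Y i))
    (hG : GoodC Γ X Y) {I : CellCx (SX X)} {s : SX X → ℤ} (hs : ∀ c, s c = 1 ∨ s c = -1)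
    (hdim : ∀ c, I.dim c = (simpCx X (fun x y : P => x < y)).dim c)
    (hinc : ∀ p q, I.inc p q = s p * s q * (simpCx X (fun x y : P => x < y)).inc p q) (k : ℕ)
    (hk : 2 * k < n) : NH I {c | ∀ i, c.1 ∉ Y i} k := by
  refine nh_block (fun c : SX X => cham X Y c.1) ?_ k ?_
  · intro p hp q hq hne
    rw [hinc] at hne
    have h1 : simpInc (fun x y : P => x < y) p.1 q.1 ≠ 0 := right_ne_zero_of_mul hne
    obtain ⟨v, hv, e⟩ := simpInc_ne h1
    have hsub : p.1 ⊆ q.1 := by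
      rw [e]
      exact Finset.erase_subset _ _
    have h2 : q.1 ∈ cham X Y p.1 := Relation.ReflTransGen.single ⟨p.2, q.2, hp, hq, Or.inl hsub⟩
    exact (cham_eq h2).symm
  · intro β
    by_cases hne : ({c | c ∈ {c : SX X | ∀ i, c.1 ∉ Y i} ∧ cham X Y c.1 = β} : Set (SX X)).Nonempty
    · obtain ⟨c₀, h0, rfl⟩ := hne
      have h1 := rel_nh (clo_freeCx hX hsmul c₀.2 h0) (bdy_sub hX hdown hsmul c₀.2 h0)
        (lfW_clo hX hdown hsmul hL c₀.2 h0) (hG c₀.1 c₀.2 h0) k hk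
      rw [clo_sdiff hX.ne c₀.2 h0] at h1
      let φ : SX (cham X Y c₀.1) → SX X := fun c => ⟨c.1, (cham_mem c₀.2 h0 c.2).1⟩
      have hφ : Set.InjOn φ Set.univ := by
        intro a _ b _ e
        exact Subtype.ext (congrArg (fun c : SX X => c.1) e)
      have h2 := (nh_map (I := simpCx (cham X Y c₀.1) (fun x y : P => x < y)) (I' := I)
        (S := Set.univ) φ hφ (fun c => s (φ c)) (fun c => hs _) 1 (Or.inl rfl) (fun p _ q _ => by
          rw [hinc, one_mul]
          rfl) 0 0 (fun p _ => by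
          rw [hdim]
          rfl) k).mp h1
      have h3 : φ '' Set.univ =
          {c | c ∈ {c : SX X | ∀ i, c.1 ∉ Y i} ∧ cham X Y c.1 = cham X Y c₀.1} := by
        ext c
        constructor
        · rintro ⟨d, _, rfl⟩
          exact ⟨(cham_mem c₀.2 h0 d.2).2, cham_eq d.2⟩
        · rintro ⟨hc1, hc2⟩
          have h4 : c.1 ∈ cham X Y c₀.1 := by
            rw [← hc2]
            exact mem_cham_self c.1
          exact ⟨⟨c.1, h4⟩, trivial, rfl⟩
      rw [h3] at h2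
      exact h2
    · rw [Set.not_nonempty_iff_eq_empty] at hne
      rw [hne]
      exact nh_empty I k

end

end SingerCub
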