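import Mathlib
import Pool.Agent.Lib_MP_394d50_cmb.MDefs
import Pool.Agent.Lib_MP_394d50_cmb.BDefs
import Pool.Agent.Lib_MP_394d50_top.ADefs

/-!
# Hierarchies of walls: the hypotheses
-/

namespace SingerCub

open SingerVS SingerRN
open scoped Pointwise

/-- `Y i`, `i : ι`, is a `Γ`-equivariant, locally finite hierarchy of walls (subcomplexes) in the
simplicial complex `X` of dimension `n`. The wall `Y i` has the level `lv i`. Let `Z` be an intersection
of `j ≥ 1` walls of the same level, and `W` the union of the walls of smaller level, with `Z ⊄ W`. Then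
`Z` is contractible (or acyclic over `F₂`) and a homology manifold over `F₂` with boundary `Z ∩ W`, of
dimension `m ≥ n - j`; or (more generally) the pair `(Z, Z ∩ W)` has no locally finite homology over
`F₂` below the dimension `m`. -/
structure Hier (n : ℕ) (Γ : Type) [Group Γ] {P ι : Type} [DecidableEq P] [MulAction Γ P]
    [MulAction Γ ι] (X : Set (Finset P)) (Y : ι → Set (Finset P)) (lv : ι → ℕ) : Prop where
  sub : ∀ i, Y i ⊆ X
  down : ∀ i, ∀ σ ∈ Y i, ∀ τ, τ ⊆ σ → τ.Nonempty → τ ∈ Y i
  smul : ∀ (g : Γ) i, ∀ σ ∈ Y i, g • σ ∈ Y (g • i)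
  lv_smul : ∀ (g : Γ) i, lv (g • i) = lv i
  bdd : ∃ N, ∀ i, lv i < N
  locfin : ∀ σ ∈ X, {i | σ ∈ Y i}.Finite
  inter : ∀ (l : ℕ) (t : Finset ι), t.Nonempty → (∀ i ∈ t, lv i = l) →
    (wi Y t \ low Y lv l).Nonempty → ∃ m, n ≤ m + t.card ∧
      (((ContractibleSpace (geo (wi Y t)) ∨ Acyc (wi Y t)) ∧
          BMfd m (wi Y t) (wi Y t ∩ low Y lv l)) ∨
        LfW m (wi Y t) (wi Y t ∩ low Y lv l))

/-- The hypothesis on the chambers `C` (the connected components of the complement of the walls): the
stabiliser is virtually residually (amenable, left-orderable, residually finite), or there are no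
harmonic square summable chains of the pair (closure of `C`, boundary of `C`) below the middle
dimension. -/
def GoodK (n : ℕ) (Γ : Type) [Group Γ] {P ι : Type} [LinearOrder P] [MulAction Γ P]
    (X : Set (Finset P)) (Y : ι → Set (Finset P)) : Prop :=
  ∀ σ ∈ X, (∀ i, σ ∉ Y i) → VirtRes (MulAction.stabilizer Γ (cham X Y σ)) ∨
    ∀ q, 2 * q < n → NH (simpCx (cham X Y σ) (fun x y : P => x < y)) Set.univ q

end SingerCub
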