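import Mathlib
import Pool.Agent.Lib_MP_394d50_cmb.MDefs
import Pool.Agent.Lib_MP_394d50_cub.AStab

/-!
# Piece CSTAB: the action on an intersection of walls

`wi_freeCxC`: copy the proof of `wi_freeCx` in `Lib_MP_394d50_cub/AStab.lean` (it uses only `hW.sub`, `hW.down`,
`hW.smul`, `hW.locfin`, which are the hypotheses here).

`bd_wi`: for `c` supported on `Z` (closed under non-empty faces, `Z ⊆ X`): both sides vanish outside `Z` (if
`σ ∈ X \ Z`, then `insert p σ ∉ Z`), and for `σ ∈ Z` the neighbours `p` of `σ` in `X` with `insert p σ ∉ Z` contribute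
`0` (`hX.mem_nb`; the set of the neighbours in `Z` is finite as a subset).
-/

namespace SingerCub

open SingerVS SingerRN
open scoped Pointwise

theorem wi_freeCxC {Γ P ι : Type} [Group Γ] [DecidableEq P] [MulAction Γ P] [MulAction Γ ι]
    {X : Set (Finset P)} (hX : FreeCx Γ X) {Y : ι → Set (Finset P)} (hsub : ∀ i, Y i ⊆ X)
    (hdown : ∀ i, ∀ σ ∈ Y i, ∀ τ, τ ⊆ σ → τ.Nonempty → τ ∈ Y i)
    (hsmul : ∀ (g : Γ) i, ∀ σ ∈ Y i, g • σ ∈ Y (g • i))
    (hlf : ∀ σ ∈ X, {i | σ ∈ Y i}.Finite) (t : Finset ι) (ht : t.Nonempty) (K : Subgroup Γ)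
    (hK : fixingSubgroup Γ (t : Set ι) ≤ K) (hKt : ∀ g ∈ K, ∀ σ ∈ wi Y t, g • σ ∈ wi Y t) :
    FreeCx K (wi Y t) := by
  classical
  obtain ⟨i0, hi0⟩ := ht
  have hsub' : ∀ σ ∈ wi Y t, σ ∈ X := fun σ hσ => hsub i0 (hσ i0 hi0)
  refine ⟨fun σ hσ => hX.ne σ (hsub' σ hσ), fun σ hσ τ hτ hn i hi => hdown i σ (hσ i hi) τ hτ hn,
    fun h σ hσ => hKt h.1 h.2 σ hσ, ?_, ?_⟩
  · intro h σ hσ he
    apply Subtype.ext
    exact hX.free h.1 σ (hsub' σ hσ) he
  · obtain ⟨R, hR, hcov⟩ := hX.fin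
    let Rel : Finset P → Finset P × (t → ι) → Prop := fun σ c =>
      ∃ g : Γ, σ = g • c.1 ∧ ∀ i : t, c.2 i = g⁻¹ • (i : ι)
    have hC : {c : Finset P × (t → ι) | c.1 ∈ R ∧ ∀ i, c.1 ∈ Y (c.2 i)}.Finite := by
      have hfin : (⋃ r ∈ (R : Set (Finset P)), (fun f : t → ι => (r, f)) ''
          (Set.pi Set.univ fun _ : t => {i | r ∈ Y i})).Finite := by
        refine R.finite_toSet.biUnion fun r hr => ?_
        refine Set.Finite.image _ (Set.Finite.pi fun _ => hlf r (hR r hr))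
      refine hfin.subset ?_
      rintro ⟨r, f⟩ ⟨h1, h2⟩
      simp only [Set.mem_iUnion, Set.mem_image]
      exact ⟨r, h1, f, fun i _ => h2 i, rfl⟩
    have hex : ∀ c, ∃ τ, (∃ σ ∈ wi Y t, Rel σ c) → τ ∈ wi Y t ∧ Rel τ c := by
      intro c
      by_cases h : ∃ σ ∈ wi Y t, Rel σ c
      · obtain ⟨σ, h1, h2⟩ := h
        exact ⟨σ, fun _ => ⟨h1, h2⟩⟩
      · exact ⟨∅, fun h' => absurd h' h⟩
    choose pick hpick using hex
    refine ⟨(hC.toFinset.filter fun c => ∃ σ ∈ wi Y t, Rel σ c).image pick, ?_, ?_⟩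
    · intro r hr
      rw [Finset.mem_image] at hr
      obtain ⟨c, hc, rfl⟩ := hr
      exact (hpick c (Finset.mem_filter.1 hc).2).1
    · intro σ hσ
      obtain ⟨g, r, hr, hσr⟩ := hcov σ (hsub' σ hσ)
      have hcC : r ∈ R ∧ ∀ i : t, r ∈ Y (g⁻¹ • (i : ι)) := by
        refine ⟨hr, fun i => ?_⟩
        have := hsmul g⁻¹ i σ (hσ i i.2)
        rwa [hσr, inv_smul_smul] at this
      have hrel : Rel σ (r, fun i : t => g⁻¹ • (i : ι)) := ⟨g, hσr, fun i => rfl⟩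
      obtain ⟨hτ, g', hτr, hg'⟩ := hpick (r, fun i : t => g⁻¹ • (i : ι)) ⟨σ, hσ, hrel⟩
      refine ⟨⟨g * g'⁻¹, hK ?_⟩, pick (r, fun i : t => g⁻¹ • (i : ι)), ?_, ?_⟩
      · rw [mem_fixingSubgroup_iff]
        intro i hi
        have := hg' ⟨i, hi⟩
        dsimp only at this
        rw [mul_smul, ← this, smul_inv_smul]
      · rw [Finset.mem_image]
        refine ⟨(r, fun i : t => g⁻¹ • (i : ι)), ?_, rfl⟩
        rw [Finset.mem_filter]
        exact ⟨hC.mem_toFinset.2 hcC, σ, hσ, hrel⟩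
      · have h1 : (g * g'⁻¹) • pick (r, fun i : t => g⁻¹ • (i : ι)) = σ := by
          rw [hτr, mul_smul, inv_smul_smul]
          exact hσr.symm
        exact h1.symm

theorem bd_wi {H P : Type} [Group H] [DecidableEq P] [MulAction H P] {X Z : Set (Finset P)}
    (hX : FreeCx H X) (hZ : Z ⊆ X) (hd : ∀ σ ∈ Z, ∀ τ, τ ⊆ σ → τ.Nonempty → τ ∈ Z)
    {c : Finset P → ZMod 2} (hc : ∀ σ, c σ ≠ 0 → σ ∈ Z) : bd Z c = bd X c := by
  funext σ
  by_cases hσ : σ ∈ Z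
  · have hσX : σ ∈ X := hZ hσ
    have hfin : {p | p ∉ σ ∧ insert p σ ∈ Z}.Finite :=
      (hX.nb_finite hσX).subset fun p hp => ⟨hp.1, hZ hp.2⟩
    have hmem : ∀ p, p ∈ nb Z σ ↔ p ∉ σ ∧ insert p σ ∈ Z := by
      intro p
      unfold nb
      rw [dif_pos hfin, Set.Finite.mem_toFinset]
      rfl
    rw [bd_apply hσ, bd_apply hσX]
    refine Finset.sum_subset ?_ ?_
    · intro p hp
      rw [hX.mem_nb hσX]
      exact ⟨((hmem p).1 hp).1, hZ ((hmem p).1 hp).2⟩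
    · intro p hp hpn
      by_contra h0
      exact hpn ((hmem p).2 ⟨((hX.mem_nb hσX).1 hp).1, hc _ h0⟩)
  · rw [bd_apply_not hσ]
    by_cases hσX : σ ∈ X
    · rw [bd_apply hσX]
      symm
      refine Finset.sum_eq_zero ?_
      intro p _
      by_contra h0
      exact hσ (hd _ (hc _ h0) σ (Finset.subset_insert p σ) (hX.ne σ hσX))
    · rw [bd_apply_not hσX]

end SingerCub
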