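import Mathlib
import Pool.Agent.Lib_MP_394d50_cmb.CStab
import Pool.Agent.Lib_MP_394d50_cub.AMain

/-!
# Piece CSINGLE: walls without levels

`wallsH_of_wallsC`: `low Y (fun _ => 0) 0 = ∅`. `inter`: `hW.inter t` gives `Acyc (wi Y t)`, `HomMfd m (wi Y t)`,
`n ≤ m + t.card`; `FreeCx K (wi Y t)` with `K = fixingSubgroup Γ t` by `wi_freeCxC`, and `HomMfd.lfR` (LkZig) gives
`LfR m (wi Y t)`, whose part `low` is `LfW m (wi Y t) ∅` (`bd c = 0` on `wi Y t` implies `bd c = 0` everywhere: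
`bd_apply_not`). `wi Y t ∩ low Y lv j` with `j = lv i = 0` is empty.

`goodH_of_goodW`: `j = 0`, `wi Y t \ ∅ = wi Y t`; for the second alternative `nh_of_betti`
(`Lib_MP_394d50_cub/ABet.lean`) with `FreeCx (fixingSubgroup Γ t) (wi Y t)`.
-/

namespace SingerCub

open SingerVS SingerRN
open scoped Pointwise

section

variable {Γ P ι : Type} [Group Γ] [LinearOrder P] [MulAction Γ P] [MulAction Γ ι]
  {X : Set (Finset P)} {Y : ι → Set (Finset P)}

private theorem csingle_low : low Y (fun _ => 0) 0 = ∅ := by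
  ext σ
  constructor
  · rintro ⟨i, hi, -⟩
    exact absurd hi (lt_irrefl _)
  · intro h
    exact absurd h (Set.notMem_empty σ)

private theorem csingle_free (hX : FreeCx Γ X) {n : ℕ} (hW : WallsC n Γ X Y) (t : Finset ι)
    (ht : t.Nonempty) : FreeCx (fixingSubgroup Γ (t : Set ι)) (wi Y t) := by
  refine wi_freeCxC hX hW.sub hW.down hW.smul hW.locfin t ht _ le_rfl ?_
  intro g hg σ hσ i hi
  have h1 := hW.smul g i σ (hσ i hi)
  rwa [(mem_fixingSubgroup_iff Γ).1 hg i hi] at h1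

theorem wallsH_of_wallsC (hX : FreeCx Γ X) {n : ℕ} (hW : WallsC n Γ X Y) :
    WallsH n Γ X Y (fun _ => 0) := by
  refine ⟨hW.sub, hW.down, hW.smul, fun _ _ => rfl, ⟨1, fun _ => Nat.one_pos⟩, hW.locfin, ?_⟩
  intro j t ht hl hne
  have hj : j = 0 := by
    obtain ⟨i, hi⟩ := ht
    exact (hl i hi).symm
  subst hj
  rw [csingle_low, Set.sdiff_empty] at hne
  obtain ⟨hac, m, hnm, hM⟩ := hW.inter t ht hne
  have hL : LfR m (wi Y t) := hM.lfR (csingle_free hX hW t ht) hac
  refine ⟨m, hnm, ?_⟩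
  rw [csingle_low, Set.inter_empty]
  intro k hk1 hk2 c hc hb
  rw [Set.sdiff_empty] at hc hb
  rw [Set.sdiff_empty]
  have hb0 : bd (wi Y t) c = 0 := by
    funext σ
    by_cases hσ : σ ∈ wi Y t
    · exact hb σ hσ
    · exact bd_apply_not hσ
  obtain ⟨b, hb1, hb2⟩ := hL.low k hk1 hk2 c hc hb0
  exact ⟨b, hb1, fun σ _ => congrFun hb2 σ⟩

theorem goodH_of_goodW (hX : FreeCx Γ X) {n : ℕ} (hW : WallsC n Γ X Y) (hG : GoodW n Γ Y) :
    GoodH n Γ Y (fun _ => 0) := by
  intro j t ht hl hne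
  have hj : j = 0 := by
    obtain ⟨i, hi⟩ := ht
    exact (hl i hi).symm
  subst hj
  rw [csingle_low, Set.sdiff_empty] at hne
  rcases hG t ht hne with h | h
  · exact Or.inl h
  · right
    intro q hq
    rw [csingle_low, Set.sdiff_empty]
    exact nh_of_betti (csingle_free hX hW t ht) q (h q hq)

end

end SingerCub
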