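import Mathlib
import Pool.Agent.Lib_MP_394d50_cmb.MDefs

/-!
# The Čech complex over `F₂` of a locally finite family of subcomplexes, relative to a subcomplex

`Ac X W Y p q`: the functions `a t σ`, `t` a set of `p` indices, `σ ∈ X \ W` a simplex with `q` vertices,
`σ ∈ Y i` for all `i ∈ t` (and for some `i` if `t` is empty). `de`: the boundary in `t`, `be`: the boundary
in `σ` (of the complex `X \ W`).
-/

namespace SingerCub

open SingerVS
open scoped Pointwise

section

variable {P ι : Type} [DecidableEq P]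

open scoped Classical in
/-- The set of the `i` with `σ ∈ Y i` (when it is finite). -/
noncomputable def idx (Y : ι → Set (Finset P)) (σ : Finset P) : Finset ι :=
  if h : {i | σ ∈ Y i}.Finite then h.toFinset else ∅

/-- The chains of the double complex. -/
def Ac (X W : Set (Finset P)) (Y : ι → Set (Finset P)) (p q : ℕ) :
    Set (Finset ι → Finset P → ZMod 2) :=
  {a | ∀ t σ, a t σ ≠ 0 → t.card = p ∧ σ ∈ X ∧ σ ∉ W ∧ σ.card = q ∧ (∃ i, σ ∈ Y i) ∧
    ∀ i ∈ t, σ ∈ Y i}

open scoped Classical in
/-- The boundary in the direction of the indices. -/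
noncomputable def de (Y : ι → Set (Finset P)) (a : Finset ι → Finset P → ZMod 2) :
    Finset ι → Finset P → ZMod 2 :=
  fun t σ => ∑ i ∈ idx Y σ \ t, a (insert i t) σ

open scoped Classical in
/-- The boundary of a chain in the pair `(X, W)`. -/
noncomputable def bw (X W : Set (Finset P)) (c : Finset P → ZMod 2) : Finset P → ZMod 2 :=
  fun σ => if σ ∈ W then 0 else bd X c σ

/-- The boundary in the direction of the simplices. -/
noncomputable def be (X W : Set (Finset P)) (a : Finset ι → Finset P → ZMod 2) :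
    Finset ι → Finset P → ZMod 2 := fun t => bw X W (a t)

/-- A locally finite family of subcomplexes, and a subcomplex `W`. -/
structure LFam (X W : Set (Finset P)) (Y : ι → Set (Finset P)) : Prop where
  sub : ∀ i, Y i ⊆ X
  down : ∀ i, ∀ σ ∈ Y i, ∀ τ, τ ⊆ σ → τ.Nonempty → τ ∈ Y i
  locfin : ∀ σ ∈ X, {i | σ ∈ Y i}.Finite
  wsub : W ⊆ X
  wdown : ∀ σ ∈ W, ∀ τ, τ ⊆ σ → τ.Nonempty → τ ∈ W

end

end SingerCub
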