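import Mathlib
import Pool.Agent.Lib_MP_394d50_cmb.SDefs

/-!
# Piece SOPS: the two boundaries

Everything is over `ZMod 2`.
* `mem_idx`: `dif_pos (hY.locfin σ hσ)`.
* `bw_bw`: let `σ ∈ X \ W` (otherwise both sides are `0`). For `p ∈ nb X σ`, `insert p σ ∉ W` (`hY.wdown`, `σ` is not
  empty), so `bw (bw c) σ = bd X (bd X c) σ = 0` (`hX.bd_bd`).
* `bw_add`, `de_add`: linearity.
* `de_mem`: if `de Y a t σ ≠ 0` then some `a (insert i t) σ ≠ 0` with `i ∈ idx Y σ \ t` (so `t.card = p`).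
* `be_mem`: if `bw X W (a t) σ ≠ 0` then `σ ∈ X`, `σ ∉ W` and `a t (insert x σ) ≠ 0` for some `x ∈ nb X σ`;
  `σ ⊆ insert x σ`, `σ` is not empty, `hY.down`.
* `de_de`: `sum_pairs_zero` (VBase), as in `FreeCx.dl_dl`.
* `be_de`: for `a ∈ Ac (p + 1) q`, `σ ∈ X \ W`:
  `be X W (de Y a) t σ = ∑ x ∈ nb X σ, ∑ i ∈ idx Y (insert x σ) \ t, a (insert i t) (insert x σ)` and
  `de Y (be X W a) t σ = ∑ i ∈ idx Y σ \ t, ∑ x ∈ nb X σ, a (insert i t) (insert x σ)` (both are zero for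
  `σ ∉ X` and for `σ ∈ W`). `idx Y (insert x σ) ⊆ idx Y σ` (`hY.down`), and the terms with `i ∈ idx Y σ`,
  `i ∉ idx Y (insert x σ)`, vanish (`a (insert i t) (insert x σ) ≠ 0` would give `insert x σ ∈ Y i`).
* `row_exact2`: fix `i₀ : Finset P → ι` with `σ ∈ Y (i₀ σ)` for every `σ` which is in some `Y i` (if no such `σ`
  exists at all then `a = 0`, take `a' = 0`). Let
  `a' t σ = if σ ∈ Y (i₀ σ) ∧ i₀ σ ∈ t then a (t.erase (i₀ σ)) σ else 0`. Then `a' ∈ Ac (p + 1) q`. `de Y a' = a`: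
  let `σ ∈ X`, `σ ∈ Y (i₀ σ)` (otherwise both sides are `0`). If `i₀ ∉ t`: only `i = i₀` contributes to
  `∑ i ∈ idx Y σ \ t, a' (insert i t) σ`, with the value `a t σ`. If `i₀ ∈ t`: every `i ∉ t` is `≠ i₀`, so the sum is
  `∑ i ∈ idx Y σ \ t, a (insert i (t.erase i₀)) σ`. Case `p = 0`: all these are `0` and `a t σ = 0` (support). Case
  `de Y a = 0`: `0 = de Y a (t.erase i₀) σ = ∑ i ∈ idx Y σ \ t.erase i₀, a (insert i (t.erase i₀)) σ`, which is the
  same sum plus the term `i = i₀`, `a t σ`.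
-/
namespace SingerCub

open SingerVS
open scoped Pointwise

variable {H P ι : Type} [Group H] [DecidableEq P] [MulAction H P] {X W : Set (Finset P)}
  {Y : ι → Set (Finset P)}

theorem mem_idx (hY : LFam X W Y) {σ : Finset P} (hσ : σ ∈ X) {i : ι} :
    i ∈ idx Y σ ↔ σ ∈ Y i := by
  unfold idx
  rw [dif_pos (hY.locfin σ hσ), Set.Finite.mem_toFinset]
  rfl

open scoped Classical in
private theorem bw_W {c : Finset P → ZMod 2} {σ : Finset P} (h : σ ∈ W) : bw X W c σ = 0 :=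
  if_pos h

open scoped Classical in
private theorem bw_not {c : Finset P → ZMod 2} {σ : Finset P} (h : σ ∉ W) :
    bw X W c σ = bd X c σ := if_neg h

theorem bw_bw (hX : FreeCx H X) (hY : LFam X W Y) (c : Finset P → ZMod 2) :
    bw X W (bw X W c) = 0 := by
  funext σ
  show _ = (0 : ZMod 2)
  by_cases hW : σ ∈ W
  · exact bw_W hW
  rw [bw_not hW]
  by_cases hσ : σ ∈ X
  · have h1 : bd X (bd X c) σ = 0 := by rw [hX.bd_bd]; rfl
    rw [← h1, bd_apply hσ, bd_apply hσ]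
    refine Finset.sum_congr rfl fun p _ => bw_not fun h => hW ?_
    exact hY.wdown _ h σ (Finset.subset_insert p σ) (hX.ne σ hσ)
  · exact bd_apply_not hσ

theorem bw_add (c d : Finset P → ZMod 2) : bw X W (c + d) = bw X W c + bw X W d := by
  funext σ
  show bw X W (c + d) σ = bw X W c σ + bw X W d σ
  by_cases hW : σ ∈ W
  · rw [bw_W hW, bw_W hW, bw_W hW, add_zero]
  · rw [bw_not hW, bw_not hW, bw_not hW, map_add]
    rfl

theorem de_add (a b : Finset ι → Finset P → ZMod 2) : de Y (a + b) = de Y a + de Y b := by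
  classical
  funext t σ
  exact Finset.sum_add_distrib

theorem de_mem {p q : ℕ} {a : Finset ι → Finset P → ZMod 2}
    (ha : a ∈ Ac X W Y (p + 1) q) : de Y a ∈ Ac X W Y p q := by
  classical
  intro t σ h
  have h0 : (∑ i ∈ idx Y σ \ t, a (insert i t) σ) ≠ 0 := h
  obtain ⟨i, hi, h1⟩ := Finset.exists_ne_zero_of_sum_ne_zero h0
  obtain ⟨h2, h3, h4, h5, h6, h7⟩ := ha _ _ h1
  have hit : i ∉ t := (Finset.mem_sdiff.mp hi).2
  rw [Finset.card_insert_of_notMem hit] at h2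
  exact ⟨by omega, h3, h4, h5, h6, fun j hj => h7 j (Finset.mem_insert_of_mem hj)⟩

theorem be_mem (hX : FreeCx H X) (hY : LFam X W Y) {p q : ℕ}
    {a : Finset ι → Finset P → ZMod 2} (ha : a ∈ Ac X W Y p (q + 1)) :
    be X W a ∈ Ac X W Y p q := by
  classical
  intro t σ h
  have h' : bw X W (a t) σ ≠ 0 := h
  have hW : σ ∉ W := fun hW => h' (bw_W hW)
  rw [bw_not hW] at h'
  have hσ : σ ∈ X := by
    by_contra hσ
    exact h' (bd_apply_not hσ)
  rw [bd_apply hσ] at h'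
  obtain ⟨x, hx, h1⟩ := Finset.exists_ne_zero_of_sum_ne_zero h'
  obtain ⟨h2, h3, h4, h5, ⟨i, h6⟩, h7⟩ := ha _ _ h1
  have hx' := (hX.mem_nb hσ).mp hx
  rw [Finset.card_insert_of_notMem hx'.1] at h5
  exact ⟨h2, hσ, hW, by omega,
    ⟨i, hY.down i _ h6 σ (Finset.subset_insert x σ) (hX.ne σ hσ)⟩,
    fun j hj => hY.down j _ (h7 j hj) σ (Finset.subset_insert x σ) (hX.ne σ hσ)⟩

theorem de_de (a : Finset ι → Finset P → ZMod 2) : de Y (de Y a) = 0 := by
  classical
  funext t σ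
  show (∑ i ∈ idx Y σ \ t, ∑ j ∈ idx Y σ \ insert i t, a (insert j (insert i t)) σ) = (0 : ZMod 2)
  refine sum_pairs_zero (idx Y σ \ t) (fun i => idx Y σ \ insert i t)
    (fun i j => a (insert j (insert i t)) σ) ?_ ?_
  · intro i hi j hj
    obtain ⟨h1, h2⟩ := Finset.mem_sdiff.mp hi
    obtain ⟨h3, h4⟩ := Finset.mem_sdiff.mp hj
    rw [Finset.mem_insert, not_or] at h4
    refine ⟨Finset.mem_sdiff.mpr ⟨h3, h4.2⟩, Finset.mem_sdiff.mpr ⟨h1, ?_⟩, h4.1⟩
    rw [Finset.mem_insert, not_or]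
    exact ⟨fun e => h4.1 e.symm, h2⟩
  · intro i j
    show a _ σ = a _ σ
    rw [Finset.insert_comm]

theorem be_de (hX : FreeCx H X) (hY : LFam X W Y) {p q : ℕ}
    {a : Finset ι → Finset P → ZMod 2} (ha : a ∈ Ac X W Y (p + 1) q) :
    be X W (de Y a) = de Y (be X W a) := by
  classical
  funext t σ
  show bw X W (de Y a t) σ = ∑ i ∈ idx Y σ \ t, bw X W (a (insert i t)) σ
  by_cases hW : σ ∈ W
  · rw [bw_W hW]
    exact (Finset.sum_eq_zero fun i _ => bw_W hW).symm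
  rw [bw_not hW, Finset.sum_congr rfl fun i _ => bw_not hW]
  by_cases hσ : σ ∈ X
  · rw [bd_apply hσ, Finset.sum_congr rfl fun i _ => bd_apply hσ, Finset.sum_comm]
    refine Finset.sum_congr rfl fun x hx => ?_
    have hx' := (hX.mem_nb hσ).mp hx
    show (∑ i ∈ idx Y (insert x σ) \ t, a (insert i t) (insert x σ)) = _
    refine Finset.sum_subset ?_ ?_
    · intro i hi
      obtain ⟨h1, h2⟩ := Finset.mem_sdiff.mp hi
      refine Finset.mem_sdiff.mpr ⟨(mem_idx hY hσ).mpr ?_, h2⟩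
      exact hY.down i _ ((mem_idx hY hx'.2).mp h1) σ (Finset.subset_insert x σ) (hX.ne σ hσ)
    · intro i hi hn
      by_contra h3
      obtain ⟨_, _, _, _, _, h7⟩ := ha _ _ h3
      exact hn (Finset.mem_sdiff.mpr ⟨(mem_idx hY hx'.2).mpr
        (h7 i (Finset.mem_insert_self i t)), (Finset.mem_sdiff.mp hi).2⟩)
  · rw [bd_apply_not hσ]
    exact (Finset.sum_eq_zero fun i _ => bd_apply_not hσ).symm

theorem row_exact2 (hY : LFam X W Y) {p q : ℕ} {a : Finset ι → Finset P → ZMod 2}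
    (ha : a ∈ Ac X W Y p q) (h : p = 0 ∨ de Y a = 0) :
    ∃ a' ∈ Ac X W Y (p + 1) q, de Y a' = a := by
  classical
  by_cases hne : ∃ i : ι, True
  swap
  · refine ⟨0, fun t σ h0 => absurd rfl h0, ?_⟩
    funext t σ
    have h1 : a t σ = 0 := by
      by_contra h2
      obtain ⟨_, _, _, _, ⟨i, _⟩, _⟩ := ha _ _ h2
      exact hne ⟨i, trivial⟩
    rw [h1]
    exact Finset.sum_eq_zero fun i _ => absurd ⟨i, trivial⟩ hne
  obtain ⟨i₁, _⟩ := hne
  have hi0 : ∃ i₀ : Finset P → ι, ∀ σ, (∃ i, σ ∈ Y i) → σ ∈ Y (i₀ σ) := by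
    refine ⟨fun σ => if h : ∃ i, σ ∈ Y i then h.choose else i₁, fun σ hσ => ?_⟩
    have e : (if h : ∃ i, σ ∈ Y i then h.choose else i₁) = hσ.choose := dif_pos hσ
    show σ ∈ Y (if h : ∃ i, σ ∈ Y i then h.choose else i₁)
    rw [e]
    exact hσ.choose_spec
  obtain ⟨i₀, hi₀⟩ := hi0
  refine ⟨fun t σ => if σ ∈ Y (i₀ σ) ∧ i₀ σ ∈ t then a (t.erase (i₀ σ)) σ else 0, ?_, ?_⟩
  · intro t σ h0
    have hc : σ ∈ Y (i₀ σ) ∧ i₀ σ ∈ t := by
      by_contra hc
      exact h0 (if_neg hc)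
    have h1 : a (t.erase (i₀ σ)) σ ≠ 0 := by
      have e : (if σ ∈ Y (i₀ σ) ∧ i₀ σ ∈ t then a (t.erase (i₀ σ)) σ else 0) ≠ 0 := h0
      rwa [if_pos hc] at e
    obtain ⟨h2, h3, h4, h5, h6, h7⟩ := ha _ _ h1
    refine ⟨?_, h3, h4, h5, h6, fun j hj => ?_⟩
    · rw [← Finset.card_erase_add_one hc.2, h2]
    · by_cases e : j = i₀ σ
      · rw [e]; exact hc.1
      · exact h7 j (Finset.mem_erase.mpr ⟨e, hj⟩)
  · funext t σ
    show (∑ i ∈ idx Y σ \ t, if σ ∈ Y (i₀ σ) ∧ i₀ σ ∈ insert i t then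
      a ((insert i t).erase (i₀ σ)) σ else 0) = a t σ
    by_cases hσ : σ ∈ X ∧ σ ∈ Y (i₀ σ)
    swap
    · have h1 : a t σ = 0 := by
        by_contra h2
        obtain ⟨_, h3, _, _, h6, _⟩ := ha _ _ h2
        exact hσ ⟨h3, hi₀ σ h6⟩
      rw [h1]
      refine Finset.sum_eq_zero fun i hi => ?_
      by_cases hc : σ ∈ Y (i₀ σ) ∧ i₀ σ ∈ insert i t
      · rw [if_pos hc]
        by_contra h2
        obtain ⟨_, h3, _⟩ := ha _ _ h2
        exact hσ ⟨h3, hc.1⟩
      · exact if_neg hc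
    obtain ⟨hX', hs⟩ := hσ
    by_cases hm : i₀ σ ∈ t
    · -- every i is different from i₀
      have h1 : ∀ i ∈ idx Y σ \ t, (if σ ∈ Y (i₀ σ) ∧ i₀ σ ∈ insert i t then
          a ((insert i t).erase (i₀ σ)) σ else 0) = a (insert i (t.erase (i₀ σ))) σ := by
        intro i hi
        obtain ⟨_, h3⟩ := Finset.mem_sdiff.mp hi
        rw [if_pos ⟨hs, Finset.mem_insert_of_mem hm⟩, Finset.erase_insert_of_ne]
        intro e
        exact h3 (e ▸ hm)
      rw [Finset.sum_congr rfl h1]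
      rcases h with h | h
      · have h4 : a t σ = 0 := by
          by_contra h2
          obtain ⟨h5, _⟩ := ha _ _ h2
          rw [h, Finset.card_eq_zero] at h5
          rw [h5] at hm
          exact Finset.notMem_empty _ hm
        rw [h4]
        refine Finset.sum_eq_zero fun i _ => ?_
        by_contra h2
        obtain ⟨h5, _⟩ := ha _ _ h2
        rw [h, Finset.card_eq_zero] at h5
        exact (Finset.insert_ne_empty i _) h5
      · have h4 : de Y a (t.erase (i₀ σ)) σ = 0 := by rw [h]; rfl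
        have h5 : (∑ i ∈ idx Y σ \ t.erase (i₀ σ), a (insert i (t.erase (i₀ σ))) σ) = 0 := h4
        have h6 : idx Y σ \ t.erase (i₀ σ) = insert (i₀ σ) (idx Y σ \ t) := by
          ext j
          simp only [Finset.mem_sdiff, Finset.mem_erase, Finset.mem_insert]
          constructor
          · rintro ⟨h7, h8⟩
            by_cases e : j = i₀ σ
            · exact Or.inl e
            · exact Or.inr ⟨h7, fun h9 => h8 ⟨e, h9⟩⟩
          · rintro (e | ⟨h7, h8⟩)
            · rw [e]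
              exact ⟨(mem_idx hY hX').mpr hs, fun h9 => h9.1 rfl⟩
            · exact ⟨h7, fun h9 => h8 h9.2⟩
        have h7 : i₀ σ ∉ idx Y σ \ t := fun h8 => (Finset.mem_sdiff.mp h8).2 hm
        rw [h6, Finset.sum_insert h7, Finset.insert_erase hm] at h5
        have h8 := eq_neg_of_add_eq_zero_right h5
        rw [h8]
        exact ZModModule.neg_eq_self _
    · -- only i = i₀ contributes
      have h2 : i₀ σ ∈ idx Y σ \ t := Finset.mem_sdiff.mpr ⟨(mem_idx hY hX').mpr hs, hm⟩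
      rw [Finset.sum_eq_single_of_mem (i₀ σ) h2]
      · rw [if_pos ⟨hs, Finset.mem_insert_self _ _⟩, Finset.erase_insert hm]
      · intro i _ hi
        refine if_neg fun hc => ?_
        rcases Finset.mem_insert.mp hc.2 with e | e
        · exact hi e.symm
        · exact hm e

end SingerCub
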