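import Mathlib
import Pool.Agent.Lib_MP_394d50_cmb.SOps

/-!
# Piece SUN: the relative locally finite homology of a union

`zig`: induction on `q`, for all `p`. `q = 0`: `a = 0` (a simplex of `X` is not empty), `b = a' = 0`. Step
`q + 1`: `be a ∈ Ac p q` and `de (be a) = 0`, so `be a = de c` with `c ∈ Ac (p + 1) q` (`row_exact2`).
`de (be c) = be (de c) = be (be a) = 0` (`be_de`, `bw_bw`). As `(p + 1) + q ≤ n`, the induction hypothesis
gives `c = be b' + de a''` with `b' ∈ Ac (p + 1) (q + 1)`, `a'' ∈ Ac (p + 2) q`. So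
`be a = de c = de (be b') + de (de a'') = be (de b')`, and `be (a + de b') = 0`. For every `t` with `t.card = p`
(so `t` is not empty) `(a + de b') t ∈ Ch (wi Y t \ W) (q + 1)`, and `bw X W` of it is `0`; `hL` (with
`q + 1 + t.card ≤ n`) gives `b t ∈ Ch (wi Y t \ W) (q + 2)` with `bw X W (b t) = (a + de b') t` (outside `X \ W` both
sides are `0`); put `b t = 0` for the other `t` (where `(a + de b') t = 0`). Then `b ∈ Ac p (q + 2)` and
`a = be b + de b'` (char 2).

`lf_union`: let `z' t = if t = ∅ then z else 0`, in `Ac 0 k`. `row_exact2` (`p = 0`) gives `a ∈ Ac 1 k` with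
`de a = z'`. `de (be a) = be (de a) = be z' = 0`. `zig` with `p = 1`, `q = k`: `a = be b + de a'`. Then
`z' = de a = de (be b) = be (de b)`, so `z = bw X W (de b ∅)`, and `de b ∅ ∈ Ch (U \ W) (k + 1)`, `U = ⋃ i, Y i`.

`lfW_union`: `c ∈ Ch (X \ (W ∪ U)) k`, `bd X c = 0` on `X \ (W ∪ U)`. Then `z = bw X W c` is in `Ch (U \ W) (k - 1)`,
and `bw X W z = 0`. If `k = 1` then `z = 0`; put `u = 0`. Otherwise `lf_union` (with `k - 1`, `k - 1 + 1 ≤ n`) gives
`u ∈ Ch (U \ W) k` with `bw X W u = z`. `c + u ∈ Ch (X \ W) k` and `bd X (c + u) = 0` on `X \ W`, so `hR` gives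
`b' ∈ Ch (X \ W) (k + 1)` with `bd X b' = c + u` on `X \ W`. Let `b σ = b' σ` for `σ ∉ U`, `0` for `σ ∈ U`. For
`σ ∈ X \ (W ∪ U)`, `insert p σ ∉ U` for every `p` (`hY.down`), so `bd X b σ = bd X b' σ = c σ + u σ = c σ`.
-/

namespace SingerCub

open SingerVS
open scoped Pointwise

variable {H P ι : Type} [Group H] [DecidableEq P] [MulAction H P] {X W : Set (Finset P)}
  {Y : ι → Set (Finset P)}

private theorem sun_bw_zero : bw X W (0 : Finset P → ZMod 2) = 0 := by
  funext σ
  unfold bw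
  split_ifs
  · rfl
  · rw [map_zero]

private theorem sun_be_zero : be X W (0 : Finset ι → Finset P → ZMod 2) = 0 := by
  funext t
  exact sun_bw_zero

omit [DecidableEq P] in
private theorem sun_de_zero : de Y (0 : Finset ι → Finset P → ZMod 2) = 0 := by
  funext t σ
  unfold de
  simp

private theorem sun_be_add (a b : Finset ι → Finset P → ZMod 2) :
    be X W (a + b) = be X W a + be X W b := by
  funext t
  exact bw_add (a t) (b t)

private theorem sun_be_be (hX : FreeCx H X) (hY : LFam X W Y)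
    (a : Finset ι → Finset P → ZMod 2) : be X W (be X W a) = 0 := by
  funext t
  exact bw_bw hX hY (a t)

omit [DecidableEq P] in
private theorem sun_ac_add {p q : ℕ} {a b : Finset ι → Finset P → ZMod 2}
    (ha : a ∈ Ac X W Y p q) (hb : b ∈ Ac X W Y p q) : a + b ∈ Ac X W Y p q := by
  intro t σ h
  by_cases h1 : a t σ = 0
  · refine hb t σ fun h2 => h ?_
    show a t σ + b t σ = 0
    rw [h1, h2, add_zero]
  · exact ha t σ h1

omit [DecidableEq P] in
private theorem sun_ac_zero {p q : ℕ} : (0 : Finset ι → Finset P → ZMod 2) ∈ Ac X W Y p q :=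
  fun _ _ h => absurd rfl h

theorem zig (hX : FreeCx H X) (hY : LFam X W Y) {n : ℕ}
    (hL : ∀ t : Finset ι, t.Nonempty → ∀ k, 1 ≤ k → k + t.card ≤ n →
      ∀ c ∈ Ch (ZMod 2) (wi Y t \ W) k, (∀ σ ∈ X \ W, bd X c σ = 0) →
        ∃ b ∈ Ch (ZMod 2) (wi Y t \ W) (k + 1), ∀ σ ∈ X \ W, bd X b σ = c σ) (q : ℕ) :
    ∀ p, 1 ≤ p → p + q ≤ n → ∀ a ∈ Ac X W Y p q, de Y (be X W a) = 0 →
      ∃ b ∈ Ac X W Y p (q + 1), ∃ a' ∈ Ac X W Y (p + 1) q, a = be X W b + de Y a' := by
  induction q with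
  | zero =>
    intro p _ _ a ha _
    have h0 : a = 0 := by
      funext t σ
      by_contra hne
      obtain ⟨_, hσX, _, hc, _⟩ := ha t σ hne
      rw [Finset.card_eq_zero] at hc
      rw [hc] at hσX
      exact hX.empty_notMem hσX
    refine ⟨0, sun_ac_zero, 0, sun_ac_zero, ?_⟩
    rw [h0, sun_be_zero, sun_de_zero, add_zero]
  | succ q ih =>
    intro p hp hpq a ha h
    obtain ⟨c, hc, hca⟩ := row_exact2 hY (be_mem hX hY ha) (Or.inr h)
    have h1 : de Y (be X W c) = 0 := by
      rw [← be_de hX hY hc, hca]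
      exact sun_be_be hX hY a
    obtain ⟨b', hb', a'', ha'', hcb⟩ := ih (p + 1) (by omega) (by omega) c hc h1
    have h2 : be X W a = be X W (de Y b') := by
      rw [← hca, hcb, de_add, de_de, add_zero, be_de hX hY hb']
    set d : Finset ι → Finset P → ZMod 2 := a + de Y b' with hd
    have hdm : d ∈ Ac X W Y p (q + 1) := sun_ac_add ha (de_mem hb')
    have hbd : be X W d = 0 := by
      rw [hd, sun_be_add, h2]
      exact ZModModule.add_self _
    have key : ∀ t : Finset ι, t.card = p →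
        ∃ b ∈ Ch (ZMod 2) (wi Y t \ W) (q + 1 + 1), ∀ σ ∈ X \ W, bd X b σ = d t σ := by
      intro t ht
      have htne : t.Nonempty := by
        rw [← Finset.card_pos]; omega
      refine hL t htne (q + 1) (by omega) (by omega) (d t) ?_ ?_
      · intro σ hσ
        by_contra hne
        obtain ⟨_, _, h3, h4, _, h6⟩ := hdm t σ hne
        exact hσ ⟨⟨h6, h3⟩, h4⟩
      · intro σ hσ
        have h3 : bw X W (d t) σ = 0 := congrFun (congrFun hbd t) σ
        unfold bw at h3
        rwa [if_neg hσ.2] at h3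
    classical
    choose f hf1 hf2 using key
    refine ⟨fun t => if ht : t.card = p then f t ht else 0, ?_, b', hb', ?_⟩
    · intro t σ hne
      by_cases ht : t.card = p
      · simp only [dif_pos ht] at hne
        have h3 : σ ∈ wi Y t \ W ∧ σ.card = q + 1 + 1 := by
          by_contra h4
          exact hne (hf1 t ht σ h4)
        have htne : t.Nonempty := by
          rw [← Finset.card_pos]; omega
        obtain ⟨i, hi⟩ := htne
        have h5 : σ ∈ Y i := h3.1.1 i hi
        exact ⟨ht, hY.sub i h5, h3.1.2, h3.2, ⟨i, h5⟩, h3.1.1⟩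
      · simp only [dif_neg ht] at hne
        exact absurd rfl hne
    · have h3 : be X W (fun t => if ht : t.card = p then f t ht else 0) = d := by
        funext t σ
        show bw X W (if ht : t.card = p then f t ht else 0) σ = d t σ
        by_cases ht : t.card = p
        · rw [dif_pos ht]
          unfold bw
          by_cases hW : σ ∈ W
          · rw [if_pos hW]
            by_contra hne
            exact (hdm t σ (Ne.symm hne)).2.2.1 hW
          · rw [if_neg hW]
            by_cases hσ : σ ∈ X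
            · exact hf2 t ht σ ⟨hσ, hW⟩
            · rw [bd_apply_not hσ]
              by_contra hne
              exact hσ (hdm t σ (Ne.symm hne)).2.1
        · rw [dif_neg ht, sun_bw_zero]
          by_contra hne
          exact ht (hdm t σ (Ne.symm hne)).1
      rw [h3, hd, add_assoc, ZModModule.add_self, add_zero]

theorem lf_union (hX : FreeCx H X) (hY : LFam X W Y) {n : ℕ}
    (hL : ∀ t : Finset ι, t.Nonempty → ∀ k, 1 ≤ k → k + t.card ≤ n →
      ∀ c ∈ Ch (ZMod 2) (wi Y t \ W) k, (∀ σ ∈ X \ W, bd X c σ = 0) →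
        ∃ b ∈ Ch (ZMod 2) (wi Y t \ W) (k + 1), ∀ σ ∈ X \ W, bd X b σ = c σ) (k : ℕ)
    (hk : k + 1 ≤ n) {z : Finset P → ZMod 2} (hz : z ∈ Ch (ZMod 2) ((⋃ i, Y i) \ W) k)
    (h0 : bw X W z = 0) :
    ∃ b ∈ Ch (ZMod 2) ((⋃ i, Y i) \ W) (k + 1), bw X W b = z := by
  classical
  set z' : Finset ι → Finset P → ZMod 2 := fun t => if t = ∅ then z else 0 with hz'
  have hz'm : z' ∈ Ac X W Y 0 k := by
    intro t σ hne
    by_cases ht : t = ∅
    · have h1 : z σ ≠ 0 := by
        simpa [hz', ht] using hne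
      have h2 : σ ∈ (⋃ i, Y i) \ W ∧ σ.card = k := by
        by_contra h3
        exact h1 (hz σ h3)
      obtain ⟨i, hi⟩ := Set.mem_iUnion.1 h2.1.1
      refine ⟨by rw [ht]; rfl, hY.sub i hi, h2.1.2, h2.2, ⟨i, hi⟩, ?_⟩
      intro j hj
      rw [ht] at hj
      exact absurd hj (Finset.notMem_empty j)
    · simp [hz', ht] at hne
  obtain ⟨a, ha, haz⟩ := row_exact2 hY hz'm (Or.inl rfl)
  have hbz : be X W z' = 0 := by
    funext t
    show bw X W (z' t) = 0
    by_cases ht : t = ∅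
    · simp only [hz', ht, if_true]
      exact h0
    · simp only [hz', if_neg ht]
      exact sun_bw_zero
  have h1 : de Y (be X W a) = 0 := by
    rw [← be_de hX hY ha, haz, hbz]
  obtain ⟨b, hb, a', ha', hab⟩ := zig hX hY hL k 1 le_rfl (by omega) a ha h1
  have h2 : z' = be X W (de Y b) := by
    rw [← haz, hab, de_add, de_de, add_zero, be_de (p := 0) hX hY hb]
  refine ⟨de Y b ∅, ?_, ?_⟩
  · intro σ hσ
    by_contra hne
    have h3 : de Y b ∈ Ac X W Y 0 (k + 1) := de_mem hb
    obtain ⟨_, _, h4, h5, ⟨i, hi⟩, _⟩ := h3 ∅ σ hne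
    exact hσ ⟨⟨Set.mem_iUnion.2 ⟨i, hi⟩, h4⟩, h5⟩
  · have h3 := congrFun h2 ∅
    have h4 : z' ∅ = z := by simp [hz']
    rw [h4] at h3
    exact h3.symm

theorem lfW_union (hX : FreeCx H X) (hY : LFam X W Y) {n : ℕ}
    (hL : ∀ t : Finset ι, t.Nonempty → ∀ k, 1 ≤ k → k + t.card ≤ n →
      ∀ c ∈ Ch (ZMod 2) (wi Y t \ W) k, (∀ σ ∈ X \ W, bd X c σ = 0) →
        ∃ b ∈ Ch (ZMod 2) (wi Y t \ W) (k + 1), ∀ σ ∈ X \ W, bd X b σ = c σ)
    (hR : LfW n X W) : LfW n X (W ∪ ⋃ i, Y i) := by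
  classical
  intro k hk1 hkn c hc hcyc
  set U : Set (Finset P) := ⋃ i, Y i with hU
  have hUX : U ⊆ X := by
    intro σ hσ
    obtain ⟨i, hi⟩ := Set.mem_iUnion.1 hσ
    exact hY.sub i hi
  -- the boundary relative to `W`
  have hz : ∀ σ, bw X W c σ ≠ 0 → (σ ∈ U \ W) ∧ σ.card + 1 = k := by
    intro σ hne
    unfold bw at hne
    by_cases hW : σ ∈ W
    · rw [if_pos hW] at hne
      exact absurd rfl hne
    · rw [if_neg hW] at hne
      have hσX : σ ∈ X := by
        by_contra h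
        exact hne (bd_apply_not h)
      have hσU : σ ∈ U := by
        by_contra h
        exact hne (hcyc σ ⟨hσX, fun h' => h'.elim hW h⟩)
      refine ⟨⟨hσU, hW⟩, ?_⟩
      rw [bd_apply hσX] at hne
      obtain ⟨x, hx, hcx⟩ := Finset.exists_ne_zero_of_sum_ne_zero hne
      have h1 : insert x σ ∈ X \ (W ∪ U) ∧ (insert x σ).card = k := by
        by_contra h
        exact hcx (hc _ h)
      have h2 := ((hX.mem_nb hσX).1 hx).1
      rw [Finset.card_insert_of_notMem h2] at h1
      exact h1.2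
  obtain ⟨u, hu, huz⟩ : ∃ u ∈ Ch (ZMod 2) (U \ W) k, bw X W u = bw X W c := by
    by_cases hk : k = 1
    · refine ⟨0, Submodule.zero_mem _, ?_⟩
      rw [sun_bw_zero]
      funext σ
      by_contra hne
      obtain ⟨h1, h2⟩ := hz σ (Ne.symm hne)
      have h3 : σ.card = 0 := by omega
      rw [Finset.card_eq_zero] at h3
      have h4 := hUX h1.1
      rw [h3] at h4
      exact hX.empty_notMem h4
    · obtain ⟨m, rfl⟩ : ∃ m, k = m + 1 := ⟨k - 1, by omega⟩
      refine lf_union hX hY hL m hkn ?_ (bw_bw hX hY c)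
      intro σ hσ
      by_contra hne
      obtain ⟨h1, h2⟩ := hz σ hne
      exact hσ ⟨h1, by omega⟩
  have hcu : c + u ∈ Ch (ZMod 2) (X \ W) k := by
    refine Submodule.add_mem _ ?_ ?_
    · intro σ hσ
      exact hc σ fun h => hσ ⟨⟨h.1.1, fun h' => h.1.2 (Or.inl h')⟩, h.2⟩
    · intro σ hσ
      exact hu σ fun h => hσ ⟨⟨hUX h.1.1, h.1.2⟩, h.2⟩
  obtain ⟨b', hb', hbb⟩ := hR k hk1 hkn (c + u) hcu (by
    intro σ hσ
    have h1 := congrFun huz σ
    unfold bw at h1
    rw [if_neg hσ.2, if_neg hσ.2] at h1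
    rw [map_add, Pi.add_apply, h1]
    exact ZModModule.add_self _)
  refine ⟨fun σ => if σ ∈ U then 0 else b' σ, ?_, ?_⟩
  · intro σ hσ
    by_cases h : σ ∈ U
    · simp only [if_pos h]
    · simp only [if_neg h]
      refine hb' σ fun h1 => hσ ⟨⟨h1.1.1, fun h2 => h2.elim h1.1.2 h⟩, h1.2⟩
  · intro σ hσ
    have hσX : σ ∈ X := hσ.1
    have hσW : σ ∉ W := fun h => hσ.2 (Or.inl h)
    have hσU : σ ∉ U := fun h => hσ.2 (Or.inr h)
    have h1 : bd X (fun σ => if σ ∈ U then (0 : ZMod 2) else b' σ) σ = bd X b' σ := by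
      rw [bd_apply hσX, bd_apply hσX]
      refine Finset.sum_congr rfl fun x _ => ?_
      have h2 : insert x σ ∉ U := by
        intro h3
        obtain ⟨i, hi⟩ := Set.mem_iUnion.1 h3
        exact hσU (Set.mem_iUnion.2 ⟨i, hY.down i _ hi σ (Finset.subset_insert x σ)
          (hX.ne σ hσX)⟩)
      simp only [if_neg h2]
    rw [h1, hbb σ ⟨hσX, hσW⟩, Pi.add_apply]
    have h4 : u σ = 0 := hu σ fun h => hσU h.1.1
    rw [h4, add_zero]

end SingerCub
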