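import Mathlib
import Pool.Agent.Lib_MP_394d50_cmb.CStab
import Pool.Agent.Lib_MP_394d50_cmb.SUn

/-!
# Piece CLOW: the levels

`lfW_low`: induction on `j`. `low Y lv 0 = ∅`; `LfW n X ∅` is `hR.low` (`bd X c = 0` on `X \ ∅ = X` implies
`bd X c = 0`: `bd_apply_not`). Step: let `Yj i = {σ | lv i = j ∧ σ ∈ Y i}`, so
`low Y lv (j + 1) = low Y lv j ∪ ⋃ i, Yj i`. `lfW_union` with `W = low Y lv j` and the family `Yj`: `LFam` is clear.
`hL`: let `t` be not empty, `k + t.card ≤ n`. If some `i ∈ t` has `lv i ≠ j`, then `wi Yj t = ∅`, `c = 0`, `b = 0`.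
Otherwise `wi Yj t = wi Y t =: Z`. If `Z \ W` is empty, `c = 0`, `b = 0`. Otherwise `hW.inter j t` gives `m` with
`n ≤ m + t.card`, so `k ≤ m`, and `LfW m Z (Z ∩ W)`. `Z \ (Z ∩ W) = Z \ W` (`Set.sdiff_self_inter` or `ext`). For `c`
supported on `Z`: `bd Z c = bd X c` (`bd_wi`). So `b` is obtained; for `σ ∈ X \ W`, `σ ∉ Z`:
`bd X b σ = bd Z b σ = 0 = c σ`.

`lfW_all`: `⋃ i, Y i = low Y lv N` for `N` as in `hW.bdd`.
-/

namespace SingerCub

open SingerVS SingerRN
open scoped Pointwise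

variable {Γ P ι : Type} [Group Γ] [DecidableEq P] [MulAction Γ P] [MulAction Γ ι]
  {X : Set (Finset P)} {Y : ι → Set (Finset P)} {lv : ι → ℕ}

private theorem clow_zero {X Z W : Set (Finset P)} {k : ℕ} (hZ : Z \ W = ∅)
    (c : Finset P → ZMod 2) (hc : c ∈ Ch (ZMod 2) (Z \ W) k) :
    ∃ b ∈ Ch (ZMod 2) (Z \ W) (k + 1), ∀ σ ∈ X \ W, bd X b σ = c σ := by
  refine ⟨0, Submodule.zero_mem _, fun σ _ => ?_⟩
  have h0 : c σ = 0 := hc σ fun h => by
    have h1 := h.1
    rw [hZ] at h1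
    exact h1
  rw [h0, map_zero]
  rfl

theorem lfW_low (hX : FreeCx Γ X) {n : ℕ} (hR : LfR n X) (hW : WallsH n Γ X Y lv) (j : ℕ) :
    LfW n X (low Y lv j) := by
  classical
  induction j with
  | zero =>
    have h0 : low Y lv 0 = ∅ := by
      ext σ
      simp [low]
    rw [h0]
    intro k hk1 hk c hc hz
    rw [Set.sdiff_empty] at hc hz
    have hbd : bd X c = 0 := by
      funext σ
      by_cases hσ : σ ∈ X
      · exact hz σ hσ
      · exact bd_apply_not hσ
    obtain ⟨b, hb, hbc⟩ := hR.low k hk1 hk c hc hbd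
    refine ⟨b, ?_, fun σ _ => by rw [hbc]⟩
    rw [Set.sdiff_empty]
    exact hb
  | succ j ih =>
    let Yj : ι → Set (Finset P) := fun i => {σ | lv i = j ∧ σ ∈ Y i}
    have hlow : low Y lv (j + 1) = low Y lv j ∪ ⋃ i, Yj i := by
      ext σ
      simp only [low, Yj, Set.mem_ofPred_eq, Set.mem_union, Set.mem_iUnion]
      constructor
      · rintro ⟨i, hi, hσ⟩
        rcases Nat.lt_succ_iff_lt_or_eq.1 hi with h | h
        · exact Or.inl ⟨i, h, hσ⟩
        · exact Or.inr ⟨i, h, hσ⟩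
      · rintro (⟨i, hi, hσ⟩ | ⟨i, hi, hσ⟩)
        · exact ⟨i, by omega, hσ⟩
        · exact ⟨i, by omega, hσ⟩
    rw [hlow]
    have hYj : LFam X (low Y lv j) Yj := by
      refine ⟨fun i σ hσ => hW.sub i hσ.2, fun i σ hσ τ hτ hn => ⟨hσ.1, hW.down i σ hσ.2 τ hτ hn⟩,
        fun σ hσ => (hW.locfin σ hσ).subset fun i hi => hi.2, ?_, ?_⟩
      · rintro σ ⟨i, _, hσ⟩
        exact hW.sub i hσ
      · rintro σ ⟨i, hi, hσ⟩ τ hτ hn
        exact ⟨i, hi, hW.down i σ hσ τ hτ hn⟩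
    refine lfW_union hX hYj ?_ ih
    intro t ht k hk1 hk c hc hz
    by_cases hall : ∀ i ∈ t, lv i = j
    · have hwi : wi Yj t = wi Y t := by
        ext σ
        constructor
        · intro hσ i hi
          exact (hσ i hi).2
        · intro hσ i hi
          exact ⟨hall i hi, hσ i hi⟩
      rw [hwi] at hc ⊢
      by_cases hne : (wi Y t \ low Y lv j).Nonempty
      · obtain ⟨m, hm, hLf⟩ := hW.inter j t ht hall hne
        obtain ⟨i0, hi0⟩ := ht
        have hZX : wi Y t ⊆ X := fun σ hσ => hW.sub i0 (hσ i0 hi0)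
        have hZd : ∀ σ ∈ wi Y t, ∀ τ, τ ⊆ σ → τ.Nonempty → τ ∈ wi Y t :=
          fun σ hσ τ hτ hn i hi => hW.down i σ (hσ i hi) τ hτ hn
        have hdiff : wi Y t \ (wi Y t ∩ low Y lv j) = wi Y t \ low Y lv j := by
          ext σ
          constructor
          · rintro ⟨h1, h2⟩
            exact ⟨h1, fun h3 => h2 ⟨h1, h3⟩⟩
          · rintro ⟨h1, h2⟩
            exact ⟨h1, fun h3 => h2 h3.2⟩
        have hcs : ∀ σ, c σ ≠ 0 → σ ∈ wi Y t := by
          intro σ hσ
          by_contra h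
          exact hσ (hc σ fun h' => h h'.1.1)
        have hbc : bd (wi Y t) c = bd X c := bd_wi hX hZX hZd hcs
        obtain ⟨b, hb, hbb⟩ := hLf k hk1 (by omega) c (by rw [hdiff]; exact hc) (by
          intro σ hσ
          rw [hdiff] at hσ
          rw [hbc]
          exact hz σ ⟨hZX hσ.1, hσ.2⟩)
        rw [hdiff] at hb hbb
        have hbs : ∀ σ, b σ ≠ 0 → σ ∈ wi Y t := by
          intro σ hσ
          by_contra h
          exact hσ (hb σ fun h' => h h'.1.1)
        have hbd : bd (wi Y t) b = bd X b := bd_wi hX hZX hZd hbs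
        refine ⟨b, hb, fun σ hσ => ?_⟩
        by_cases hσZ : σ ∈ wi Y t
        · rw [← hbd]
          exact hbb σ ⟨hσZ, hσ.2⟩
        · rw [← hbd, bd_apply_not hσZ]
          by_contra h
          exact hσZ (hcs σ fun h' => h h'.symm)
      · rw [Set.not_nonempty_iff_eq_empty] at hne
        exact clow_zero hne c hc
    · have hemp : wi Yj t = ∅ := by
        push Not at hall
        obtain ⟨i, hi, hij⟩ := hall
        ext σ
        constructor
        · intro hσ
          exact absurd (hσ i hi).1 hij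
        · intro hσ
          exact hσ.elim
      exact clow_zero (by rw [hemp, Set.empty_sdiff]) c hc

theorem lfW_all (hX : FreeCx Γ X) {n : ℕ} (hR : LfR n X) (hW : WallsH n Γ X Y lv) :
    LfW n X (⋃ i, Y i) := by
  obtain ⟨N, hN⟩ := hW.bdd
  have h : ⋃ i, Y i = low Y lv N := by
    ext σ
    simp only [low, Set.mem_iUnion, Set.mem_ofPred_eq]
    exact ⟨fun ⟨i, hi⟩ => ⟨i, hN i, hi⟩, fun ⟨i, _, hi⟩ => ⟨i, hi⟩⟩
  rw [h]
  exact lfW_low hX hR hW N

end SingerCub
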