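import Mathlib
import Pool.Agent.Lib_MP_394d50_cmb.CLow
import Pool.Agent.Lib_MP_394d50_cmb.CCech
import Pool.Agent.Lib_MP_394d50_cmb.RRel
import Pool.Agent.Lib_MP_394d50_cub.AMain

/-!
# Piece CSTR: the walls of level `j`

`wall_nhH`: as `wall_nh` in AMAIN: `nh_map` with the inclusion `SX Z' → SX X`, `Z' ⊆ X`.

`strat_nh`: let `S = {c : SX X | c.1 ∈ low Y lv (j + 1) \ low Y lv j}`. `cech_sub` with the family
`Y' i = {c | lv i = j ∧ c.1 ∈ Y i}` (`I.inc p q ≠ 0` gives `p.1 ⊆ q.1`, see `main_nh` in AMAIN; `S` is convex: if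
`p ⊆ q ⊆ r`, `p, r ∈ S`, then `q ∈ low (j + 1)` because it is a face of `r`, and `q ∉ low j` because `p` is a face
of `q`; the levels are invariant). `hcov`: by the definition of `low`. `hcol`: `t` not empty,
`1 ≤ t.length ≤ k + 1`, `q = k + 1 - t.length`, `T = t.toFinset`, `1 ≤ T.card ≤ t.length`. The set is empty if some
`i ∈ t` has `lv i ≠ j` (`nh_empty`). Otherwise it is `{c | c.1 ∈ Z \ W}`, `Z = wi Y T`, `W = low Y lv j` (every
`σ ∈ Z` is in `low (j + 1)`). If `Z \ W = ∅`: `nh_empty`. Otherwise: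
* If `2 k + 1 = n` and `t.length = 1`: `t = [i]`, `Z = Y i`, `lv i = j`, `q = k = (n - 1) / 2`: the second part of
  `hk`.
* Otherwise `2 q + t.length < n` (see `main_nh` in AMAIN). `hG j T`: either some `i ∈ T` has `VirtRes (stabilizer i)`;
  then `K = fixingSubgroup Γ T` is `VirtRes` (`virtRes_of_injective`), it is countable, `FreeCx K Z`
  (`wi_freeCxC`), `SubCx K Z (Z ∩ W)`, `LfW m Z (Z ∩ W)` with `n ≤ m + T.card` (`hW.inter`), so `2 q < m`, and `rel_nh`
  gives `NH (simpCx (Z \ (Z ∩ W)) _) univ q`; `Z \ (Z ∩ W) = Z \ W`. Or directly `NH` (`2 q + T.card < n`). Then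
  `wall_nhH`.
`W` is invariant under `K` because of `hW.smul`, `hW.lv_smul`.
-/

namespace SingerCub

open SingerVS SingerRN
open scoped Pointwise

section

variable {Γ P ι : Type} [Group Γ] [LinearOrder P] [MulAction Γ P] [MulAction Γ ι]
  {X : Set (Finset P)} {Y : ι → Set (Finset P)} {lv : ι → ℕ}

theorem wall_nhH {I : CellCx (SX X)} {s : SX X → ℤ} (hs : ∀ c, s c = 1 ∨ s c = -1)
    (hdim : ∀ c, I.dim c = (simpCx X (fun x y : P => x < y)).dim c)
    (hinc : ∀ p q, I.inc p q = s p * s q * (simpCx X (fun x y : P => x < y)).inc p q)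
    {Z : Set (Finset P)} (hZ : Z ⊆ X) (q : ℕ)
    (h : NH (simpCx Z (fun x y : P => x < y)) Set.univ q) : NH I {c | c.1 ∈ Z} q := by
  let φ : SX Z → SX X := fun c => ⟨c.1, hZ c.2⟩
  have hφ : Set.InjOn φ Set.univ := by
    intro a _ b _ e
    exact Subtype.ext (congrArg (fun c : SX X => c.1) e)
  have h2 := (nh_map (I := simpCx Z (fun x y : P => x < y)) (I' := I) (S := Set.univ) φ hφ
    (fun c => s (φ c)) (fun c => hs _) 1 (Or.inl rfl) (fun p _ q _ => by
      rw [hinc, one_mul]
      rfl) 0 0 (fun p _ => by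
      rw [hdim]
      rfl) q).mp h
  have h3 : φ '' Set.univ = {c | c.1 ∈ Z} := by
    ext c
    constructor
    · rintro ⟨d, _, rfl⟩
      exact d.2
    · intro hc
      exact ⟨⟨c.1, hc⟩, trivial, rfl⟩
  rw [h3] at h2
  exact h2

theorem strat_nh (hX : FreeCx Γ X) [Countable Γ] {n : ℕ} (hW : WallsH n Γ X Y lv)
    (hG : GoodH n Γ Y lv) {I : CellCx (SX X)} {s : SX X → ℤ} (hs : ∀ c, s c = 1 ∨ s c = -1)
    (hSI : SI X I) (hdim : ∀ c, I.dim c = (simpCx X (fun x y : P => x < y)).dim c)
    (hinc : ∀ p q, I.inc p q = s p * s q * (simpCx X (fun x y : P => x < y)).inc p q)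
    (hF : letI := sxAct (K := Γ) hX.inv; FC Γ I) (k : ℕ)
    (hk : 2 * k + 1 < n ∨ (2 * k + 1 = n ∧
      ∀ i, NH (simpCx (Y i \ low Y lv (lv i)) (fun x y : P => x < y)) Set.univ ((n - 1) / 2)))
    (j : ℕ) : NH I {c | c.1 ∈ low Y lv (j + 1) ∧ c.1 ∉ low Y lv j} k := by
  classical
  letI iA : MulAction Γ (SX X) := sxAct (K := Γ) hX.inv
  have hsm : ∀ (g : Γ) (c : SX X), (g • c).1 = g • c.1 := fun _ _ => rfl
  have hsubf : ∀ p q : SX X, I.inc p q ≠ 0 → p.1 ⊆ q.1 := by
    intro p q h
    obtain ⟨v, _, e⟩ := (hSI.fac p q).mp h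
    rw [e]
    exact Finset.erase_subset _ _
  have hlowdown : ∀ l, ∀ σ ∈ low Y lv l, ∀ τ, τ ⊆ σ → τ.Nonempty → τ ∈ low Y lv l := by
    rintro l σ ⟨i, hi, hσ⟩ τ hτ hn
    exact ⟨i, hi, hW.down i σ hσ τ hτ hn⟩
  have hlowsm : ∀ l, ∀ g : Γ, ∀ σ ∈ low Y lv l, g • σ ∈ low Y lv l := by
    rintro l g σ ⟨i, hi, hσ⟩
    exact ⟨g • i, by rw [hW.lv_smul]; exact hi, hW.smul g i σ hσ⟩
  have hlowsub : ∀ l, ∀ σ ∈ low Y lv l, σ ∈ X := by
    rintro l σ ⟨i, _, hσ⟩
    exact hW.sub i hσ
  let Y' : ι → Set (SX X) := fun i => {c | lv i = j ∧ c.1 ∈ Y i}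
  have hcvx : Cvx I {c : SX X | c.1 ∈ low Y lv (j + 1) ∧ c.1 ∉ low Y lv j} := by
    intro p q r hp hr hpq hqr
    refine ⟨hlowdown _ _ hr.1 _ (hsubf q r hqr) (hX.ne _ q.2), fun hq => hp.2 ?_⟩
    exact hlowdown _ _ hq _ (hsubf p q hpq) (hX.ne _ p.2)
  refine cech_sub (Y := Y') hF hcvx ?_ ?_ ?_ ?_ ?_ k ?_
  · intro g c hc
    refine ⟨hlowsm _ g _ hc.1, fun h => hc.2 ?_⟩
    have h1 := hlowsm _ g⁻¹ _ h
    have h2 : g⁻¹ • (g • c).1 = c.1 := by rw [hsm, inv_smul_smul]
    rwa [h2] at h1
  · intro i q hq p hp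
    exact ⟨hq.1, hW.down i q.1 hq.2 p.1 (hsubf p q hp) (hX.ne _ p.2)⟩
  · intro g i c hc
    exact ⟨by rw [hW.lv_smul]; exact hc.1, hW.smul g i c.1 hc.2⟩
  · intro c
    exact (hW.locfin c.1 c.2).subset fun i hi => hi.2
  · rintro c ⟨⟨i, hi, hc⟩, hc2⟩
    refine ⟨i, ?_, hc⟩
    by_contra hne
    exact hc2 ⟨i, by omega, hc⟩
  · intro t ht hl
    by_cases hlv : ∀ i ∈ t.toFinset, lv i = j
    · -- all levels are `j`
      have hT : t.toFinset.Nonempty := by
        rw [List.toFinset_nonempty_iff]
        exact ht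
      have hset : {c : SX X | c ∈ {c : SX X | c.1 ∈ low Y lv (j + 1) ∧ c.1 ∉ low Y lv j} ∧
          ∀ i ∈ t, c ∈ Y' i} = {c : SX X | c.1 ∈ wi Y t.toFinset \ low Y lv j} := by
        ext c
        constructor
        · rintro ⟨h1, h2⟩
          exact ⟨fun i hi => (h2 i (List.mem_toFinset.mp hi)).2, h1.2⟩
        · rintro ⟨h1, h2⟩
          obtain ⟨i, hi⟩ := hT
          refine ⟨⟨⟨i, by rw [hlv i hi]; omega, h1 i hi⟩, h2⟩, fun i hi => ?_⟩
          exact ⟨hlv i (List.mem_toFinset.mpr hi), h1 i (List.mem_toFinset.mpr hi)⟩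
      rw [hset]
      by_cases hne : (wi Y t.toFinset \ low Y lv j).Nonempty
      · have hsubZ : wi Y t.toFinset ⊆ X := by
          intro σ hσ
          obtain ⟨i, hi⟩ := hT
          exact hW.sub i (hσ i hi)
        have hsub : wi Y t.toFinset \ low Y lv j ⊆ X := fun σ hσ => hsubZ hσ.1
        have hcard : t.toFinset.card ≤ t.length := List.toFinset_card_le t
        by_cases hcase : 2 * k + 1 = n ∧ t.length = 1
        · -- the middle degree, one wall
          obtain ⟨hn, hl1⟩ := hcase
          obtain ⟨i, rfl⟩ := List.length_eq_one_iff.mp hl1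
          have hmid : ∀ i, NH (simpCx (Y i \ low Y lv (lv i)) (fun x y : P => x < y)) Set.univ
              ((n - 1) / 2) := by
            rcases hk with hk | hk
            · omega
            · exact hk.2
          have hi0 : lv i = j := hlv i (by simp)
          have hYi : wi Y [i].toFinset = Y i := by
            ext σ
            constructor
            · intro h
              exact h i (by simp)
            · intro h l hl
              have : l = i := by simpa using hl
              rw [this]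
              exact h
          have h1 := hmid i
          rw [hi0] at h1
          have e : k + 1 - [i].length = (n - 1) / 2 := by
            simp only [List.length_singleton]
            omega
          rw [e]
          refine wall_nhH hs hdim hinc hsub _ ?_
          rw [hYi]
          exact h1
        · have hq : 2 * (k + 1 - t.length) + t.length < n := by
            have h1 : 1 ≤ t.length := List.length_pos_iff.mpr ht
            have h2 : 2 * k + 1 ≤ n := by
              rcases hk with hk | hk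
              · omega
              · omega
            by_cases h3 : 2 * k + 1 = n
            · have h4 : t.length ≠ 1 := fun h => hcase ⟨h3, h⟩
              omega
            · omega
          refine wall_nhH hs hdim hinc hsub _ ?_
          rcases hG j _ hT hlv hne with ⟨i, hi, hv⟩ | h
          · obtain ⟨m, hm, hLf⟩ := hW.inter j _ hT hlv hne
            have hle : fixingSubgroup Γ (t.toFinset : Set ι) ≤ MulAction.stabilizer Γ i := by
              intro g hg
              exact MulAction.mem_stabilizer_iff.mpr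
                ((mem_fixingSubgroup_iff Γ).mp hg i hi)
            have hv' : VirtRes (fixingSubgroup Γ (t.toFinset : Set ι)) :=
              virtRes_of_injective hv (Subgroup.inclusion hle) (Subgroup.inclusion_injective hle)
            have hKinv : ∀ g ∈ fixingSubgroup Γ (t.toFinset : Set ι), ∀ σ ∈ wi Y t.toFinset,
                g • σ ∈ wi Y t.toFinset := by
              intro g hg σ hσ i hi
              have h1 : g • i = i := (mem_fixingSubgroup_iff Γ).mp hg i hi
              have h2 := hW.smul g i σ (hσ i hi)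
              rwa [h1] at h2
            have hKX := wi_freeCxC hX hW.sub hW.down hW.smul hW.locfin _ hT
              (fixingSubgroup Γ (t.toFinset : Set ι)) le_rfl hKinv
            have hSub : SubCx (fixingSubgroup Γ (t.toFinset : Set ι)) (wi Y t.toFinset)
                (wi Y t.toFinset ∩ low Y lv j) := by
              refine ⟨Set.inter_subset_left, fun σ hσ τ hτ hn => ⟨fun i hi => ?_, ?_⟩,
                fun g σ hσ => ⟨?_, ?_⟩⟩
              · exact hW.down i σ (hσ.1 i hi) τ hτ hn
              · exact hlowdown j σ hσ.2 τ hτ hn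
              · exact hKinv g.1 g.2 σ hσ.1
              · exact hlowsm j g.1 σ hσ.2
            have h1 := rel_nh hKX hSub hLf hv' (k + 1 - t.length) (by omega)
            have e : wi Y t.toFinset \ (wi Y t.toFinset ∩ low Y lv j) =
                wi Y t.toFinset \ low Y lv j := by
              ext σ
              constructor
              · rintro ⟨ha, hb⟩
                exact ⟨ha, fun hc => hb ⟨ha, hc⟩⟩
              · rintro ⟨ha, hb⟩
                exact ⟨ha, fun hc => hb hc.2⟩
            rw [e] at h1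
            exact h1
          · exact h _ (by omega)
      · have h0 : {c : SX X | c.1 ∈ wi Y t.toFinset \ low Y lv j} = ∅ := by
          ext c
          constructor
          · intro hc
            exact (hne ⟨c.1, hc⟩).elim
          · intro hc
            exact hc.elim
        rw [h0]
        exact nh_empty I _
    · push Not at hlv
      obtain ⟨i, hi, hne⟩ := hlv
      have h0 : {c : SX X | c ∈ {c : SX X | c.1 ∈ low Y lv (j + 1) ∧ c.1 ∉ low Y lv j} ∧
          ∀ i ∈ t, c ∈ Y' i} = ∅ := by
        ext c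
        constructor
        · rintro ⟨_, h2⟩
          exact (hne (h2 i (List.mem_toFinset.mp hi)).1).elim
        · intro hc
          exact hc.elim
      rw [h0]
      exact nh_empty I _

end

end SingerCub
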