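import Mathlib
import Pool.Agent.Lib_MP_394d50_cmb.CCham
import Pool.Agent.Lib_MP_394d50_cub.WDefs

/-!
# Piece CWAL: walls whose chambers are open stars

`goodC_of_walls`: let `σ ∈ X` be outside the walls. `hW.cell`: there is `z ∈ Z`, `z ∈ σ`. Every `τ ∈ cham X Y σ`
contains `z`: induction on `Relation.ReflTransGen`; if `Adj τ τ'` and `z ∈ τ`, then `τ'` contains some `z' ∈ Z`
(`hW.cell`), one of `τ, τ'` contains the other, and `hW.uniq` for the larger one gives `z' = z`. Let `g` be in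
the stabiliser of the chamber. `g • σ` is in the chamber, so `z ∈ g • σ`. `{z} ∈ X` is outside the walls
(`hW.cell`), so `g • {z} = {g • z} ∈ X` is outside the walls (`hW.smul` with `g⁻¹`) and `hW.cell` gives
`g • z ∈ Z`. Both `z` and `g • z` are in `g • σ ∈ X`, so `z = g • z` by `hW.uniq` and `g = 1` by `hX.free g {z}`.
So the stabiliser is trivial. `VirtRes`: the subgroup `⊤` (finite index), and `ResLOA ⊤` holds because every
element is `1`.
-/

namespace SingerCub

open SingerVS SingerRN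
open scoped Pointwise

variable {Γ P ι : Type} [Group Γ] [DecidableEq P] [MulAction Γ P] [MulAction Γ ι]
  {X : Set (Finset P)} {Y : ι → Set (Finset P)}

theorem wallsC_of_walls {n : ℕ} {Z : Set P} (hW : Walls n Γ X Y Z) : WallsC n Γ X Y :=
  ⟨hW.sub, hW.down, hW.smul, hW.locfin, hW.inter⟩

private theorem cwal_mem {n : ℕ} {Z : Set P} (hW : Walls n Γ X Y Z) {σ : Finset P} {z : P}
    (hz : z ∈ Z) (hzσ : z ∈ σ) {τ : Finset P} (h : τ ∈ cham X Y σ) : z ∈ τ := by
  have h' : Relation.ReflTransGen (Adj X Y) σ τ := h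
  induction h' with
  | refl => exact hzσ
  | @tail a b hab hb ih =>
    have hza : z ∈ a := ih hab
    obtain ⟨ha, hbX, h0a, h0b, hsub⟩ := hb
    obtain ⟨z', hz', hzb⟩ := (hW.cell b hbX).1 h0b
    rcases hsub with h1 | h1
    · exact h1 hza
    · have : z = z' := hW.uniq a ha z hz z' hz' hza (h1 hzb)
      rw [this]
      exact hzb

private theorem cwal_stab (hX : FreeCx Γ X) {n : ℕ} {Z : Set P} (hW : Walls n Γ X Y Z)
    {σ : Finset P} (hσ : σ ∈ X) (h0 : ∀ i, σ ∉ Y i) {g : Γ}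
    (hg : g ∈ MulAction.stabilizer Γ (cham X Y σ)) : g = 1 := by
  obtain ⟨z, hz, hzσ⟩ := (hW.cell σ hσ).1 h0
  have hgc : g • cham X Y σ = cham X Y σ := hg
  have h1 : g • σ ∈ cham X Y σ := by
    rw [← hgc]
    exact Set.smul_mem_smul_set (mem_cham_self σ)
  have h2 : z ∈ g • σ := cwal_mem hW hz hzσ h1
  have h3 : g • z ∈ g • σ := Finset.smul_mem_smul_finset hzσ
  have hzX : ({z} : Finset P) ∈ X :=
    hX.down σ hσ {z} (Finset.singleton_subset_iff.2 hzσ) (Finset.singleton_nonempty z)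
  have hz0 : ∀ i, ({z} : Finset P) ∉ Y i :=
    (hW.cell {z} hzX).2 ⟨z, hz, Finset.mem_singleton_self z⟩
  have hgX : g • ({z} : Finset P) ∈ X := hX.inv g _ hzX
  have hg0 : ∀ i, g • ({z} : Finset P) ∉ Y i := by
    intro i hi
    have := hW.smul g⁻¹ i _ hi
    rw [inv_smul_smul] at this
    exact hz0 _ this
  have hgz : g • z ∈ Z := by
    obtain ⟨z', hz', hm⟩ := (hW.cell _ hgX).1 hg0
    rw [Finset.smul_finset_singleton, Finset.mem_singleton] at hm
    rw [← hm]
    exact hz'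
  have h4 : z = g • z := hW.uniq _ (hX.inv g σ hσ) z hz (g • z) hgz h2 h3
  apply hX.free g {z} hzX
  rw [Finset.smul_finset_singleton, ← h4]

theorem goodC_of_walls (hX : FreeCx Γ X) {n : ℕ} {Z : Set P} (hW : Walls n Γ X Y Z) :
    GoodC Γ X Y := by
  intro σ hσ h0
  refine ⟨⊤, inferInstance, fun h hh => absurd ?_ hh⟩
  apply Subtype.ext
  apply Subtype.ext
  exact cwal_stab hX hW hσ h0 h.1.2

end SingerCub
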