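import Mathlib
import Pool.Agent.Lib_MP_394d50_cub.AMain
import Pool.Agent.Lib_MP_394d50_cmb.CRestK
import Pool.Agent.Lib_MP_394d50_cmb.CStr
import Pool.Agent.Lib_MP_394d50_cmb.CWal
import Pool.Agent.Lib_MP_394d50_cmb.CSingle

/-!
# The theorem on hierarchies of walls

As `AMain` in `Lib_MP_394d50_cub`; the simplices are ordered by the level of the walls which contain
them (`nh_filtration`), with `strat_nh` for each level and `rest_cmbK` for the complement of the walls.
-/

namespace SingerCub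

open SingerVS SingerRN
open scoped Pointwise

section

variable {Γ P ι : Type} [Group Γ] [LinearOrder P] [MulAction Γ P] [MulAction Γ ι]
  {X : Set (Finset P)} {Y : ι → Set (Finset P)} {lv : ι → ℕ}

theorem low_mono {i j : ℕ} (h : i ≤ j) : low Y lv i ⊆ low Y lv j := by
  rintro σ ⟨a, h1, h2⟩
  exact ⟨a, lt_of_lt_of_le h1 h, h2⟩

theorem main_nhH (hX : FreeCx Γ X) (hA : Acyc X) {n : ℕ} (hM : HomMfd n X)
    (hW : WallsH n Γ X Y lv) (hG : GoodH n Γ Y lv) (hGC : GoodK n Γ X Y)
    {I : CellCx (SX X)} {s : SX X → ℤ} (hs : ∀ c, s c = 1 ∨ s c = -1) (hSI : SI X I)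
    (hdim : ∀ c, I.dim c = (simpCx X (fun x y : P => x < y)).dim c)
    (hinc : ∀ p q, I.inc p q = s p * s q * (simpCx X (fun x y : P => x < y)).inc p q)
    (hF : letI := sxAct (K := Γ) hX.inv; FC Γ I) (k : ℕ)
    (hk : 2 * k + 1 < n ∨ (2 * k + 1 = n ∧
      ∀ i, NH (simpCx (Y i \ low Y lv (lv i)) (fun x y : P => x < y)) Set.univ ((n - 1) / 2))) :
    NH I Set.univ k := by
  classical
  letI iA : MulAction Γ (SX X) := sxAct (K := Γ) hX.inv
  have hcount : Countable Γ := countable_of_acyc hX hA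
  have hR : LfR n X := HomMfd.lfR hX hA hM
  obtain ⟨N, hN⟩ := hW.bdd
  have hld : ∀ (j : ℕ) (p q : SX X), I.inc p q ≠ 0 → q.1 ∈ low Y lv j → p.1 ∈ low Y lv j := by
    rintro j p q hpq ⟨i, h1, h2⟩
    obtain ⟨v, _, e⟩ := (hSI.fac p q).mp hpq
    exact ⟨i, h1, hW.down i q.1 h2 p.1 (by rw [e]; exact Finset.erase_subset _ _) (hX.ne _ p.2)⟩
  have hli : ∀ (g : Γ) (j : ℕ) (c : SX X), c.1 ∈ low Y lv j → (g • c).1 ∈ low Y lv j := by
    rintro g j c ⟨i, h1, h2⟩
    exact ⟨g • i, by rw [hW.lv_smul]; exact h1, hW.smul g i c.1 h2⟩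
  have hli' : ∀ (g : Γ) (j : ℕ) (c : SX X), (g • c).1 ∈ low Y lv j → c.1 ∈ low Y lv j := by
    intro g j c h
    have h1 := hli g⁻¹ j (g • c) h
    rwa [inv_smul_smul] at h1
  let f : SX X → ℕ := fun c => if h : ∃ j, c.1 ∈ low Y lv (j + 1) then Nat.find h else N
  have hf1 : ∀ c (h : ∃ j, c.1 ∈ low Y lv (j + 1)), f c = Nat.find h := fun c h => dif_pos h
  have hf2 : ∀ c, (¬ ∃ j, c.1 ∈ low Y lv (j + 1)) → f c = N := fun c h => dif_neg h
  have hf3 : ∀ c, f c ≤ N := by
    intro c
    by_cases h : ∃ j, c.1 ∈ low Y lv (j + 1)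
    · rw [hf1 c h]
      obtain ⟨i, _, h2⟩ := Nat.find_spec h
      exact (Nat.find_min' h (m := lv i) ⟨i, Nat.lt_succ_self _, h2⟩).trans (hN i).le
    · rw [hf2 c h]
  refine nh_filtration hF (S := Set.univ) (fun _ _ _ _ _ _ _ => trivial) (fun _ _ _ => trivial) f
    ?_ ?_ (N + 1) (fun c _ => Nat.lt_succ_of_le (hf3 c)) k ?_
  · intro p _ q _ hpq
    by_cases h : ∃ j, q.1 ∈ low Y lv (j + 1)
    · have h' : ∃ j, p.1 ∈ low Y lv (j + 1) := ⟨Nat.find h, hld _ p q hpq (Nat.find_spec h)⟩
      rw [hf1 q h, hf1 p h']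
      exact Nat.find_min' h' (hld _ p q hpq (Nat.find_spec h))
    · rw [hf2 q h]
      exact hf3 p
  · intro g c
    by_cases h : ∃ j, c.1 ∈ low Y lv (j + 1)
    · have h' : ∃ j, (g • c).1 ∈ low Y lv (j + 1) := ⟨Nat.find h, hli g _ c (Nat.find_spec h)⟩
      rw [hf1 c h, hf1 _ h']
      exact le_antisymm (Nat.find_min' h' (hli g _ c (Nat.find_spec h)))
        (Nat.find_min' h (hli' g _ c (Nat.find_spec h')))
    · have h' : ¬ ∃ j, (g • c).1 ∈ low Y lv (j + 1) := fun ⟨j, hj⟩ => h ⟨j, hli' g _ c hj⟩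
      rw [hf2 c h, hf2 _ h']
  · intro j hj
    by_cases hjN : j = N
    · have hset : {c : SX X | c ∈ Set.univ ∧ f c = j} = {c | ∀ i, c.1 ∉ Y i} := by
        ext c
        constructor
        · rintro ⟨_, h⟩ i hi
          have h1 : ∃ j, c.1 ∈ low Y lv (j + 1) := ⟨lv i, i, Nat.lt_succ_self _, hi⟩
          rw [hf1 c h1] at h
          have h2 : Nat.find h1 ≤ lv i := Nat.find_min' h1 ⟨i, Nat.lt_succ_self _, hi⟩
          have h3 := hN i
          omega
        · intro h
          refine ⟨trivial, ?_⟩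
          rw [hjN]
          refine hf2 c ?_
          rintro ⟨j, i, _, h2⟩
          exact h i h2
      rw [hset]
      exact rest_cmbK hX hW.down hW.smul (lfW_all hX hR hW) hGC hs hdim hinc k (by omega)
    · have hset : {c : SX X | c ∈ Set.univ ∧ f c = j} =
          {c | c.1 ∈ low Y lv (j + 1) ∧ c.1 ∉ low Y lv j} := by
        ext c
        constructor
        · rintro ⟨_, h⟩
          by_cases h1 : ∃ j, c.1 ∈ low Y lv (j + 1)
          · rw [hf1 c h1] at h
            refine ⟨h ▸ Nat.find_spec h1, fun h2 => ?_⟩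
            rcases Nat.eq_zero_or_pos j with h3 | h3
            · rw [h3] at h2
              obtain ⟨i, h4, _⟩ := h2
              exact Nat.not_lt_zero _ h4
            · have h4 : Nat.find h1 ≤ j - 1 := Nat.find_min' h1 (by
                rw [Nat.sub_add_cancel h3]
                exact h2)
              omega
          · rw [hf2 c h1] at h
            exact absurd h.symm hjN
        · rintro ⟨h1, h2⟩
          refine ⟨trivial, ?_⟩
          have h3 : ∃ j, c.1 ∈ low Y lv (j + 1) := ⟨j, h1⟩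
          rw [hf1 c h3]
          refine le_antisymm (Nat.find_min' h3 h1) ?_
          by_contra h4
          exact h2 (low_mono (by omega) (Nat.find_spec h3))
      rw [hset]
      exact strat_nh hX hW hG hs hSI hdim hinc hF k hk j

/-- The theorem on hierarchies of walls. -/
theorem main_hier (hX : FreeCx Γ X) (hA : Acyc X) {n : ℕ} (hM : HomMfd n X)
    (hW : WallsH n Γ X Y lv) (hG : GoodH n Γ Y lv) (hGC : GoodK n Γ X Y) :
    (∀ k, 2 * k + 1 ≠ n → 2 * k ≠ n → 2 * k ≠ n + 1 → bettiX Γ X k = 0) ∧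
    ((Even n ∨
      ∀ i, NH (simpCx (Y i \ low Y lv (lv i)) (fun x y : P => x < y)) Set.univ ((n - 1) / 2)) →
      (∀ k, 2 * k ≠ n → bettiX Γ X k = 0) ∧
      (∀ k, 2 * k = n → bettiX Γ X k = (-1 : ℝ) ^ k * chiX Γ X) ∧
      ((∀ k, bettiX Γ X k = 0) ↔ chiX Γ X = 0) ∧
      ∀ k, 2 * k = n → 0 ≤ (-1 : ℤ) ^ k * chiX Γ X) := by
  classical
  obtain ⟨I, s, hs, hSI, hdim, hinc, hFI⟩ := exists_inv hX
  have hF : letI := sxAct (K := Γ) hX.inv; FC Γ I := by
    letI := sxAct (K := Γ) hX.inv
    exact hFI.fc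
  have hI : letI := sxAct (K := Γ) hX.inv; ∀ (h : Γ) (p q : SX X),
      I.inc (h • p) (h • q) = I.inc p q := by
    letI := sxAct (K := Γ) hX.inv
    exact hFI.inc_smul
  -- back to the orientations given by the order
  have hback : ∀ k, NH I Set.univ k → NH (simpCx X (fun x y : P => x < y)) Set.univ k := by
    intro k h
    have h2 := (nh_map (I := I) (I' := simpCx X (fun x y : P => x < y)) (S := Set.univ)
      (fun c => c) (fun a _ b _ e => e) s hs 1 (Or.inl rfl) (fun p _ q _ => by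
        rw [hinc, one_mul]
        have h1 : ∀ c, s c * s c = 1 := fun c => by
          rcases hs c with h | h <;> rw [h] <;> norm_num
        calc (simpCx X (fun x y : P => x < y)).inc p q
            = (s p * s p) * (s q * s q) * (simpCx X (fun x y : P => x < y)).inc p q := by
              rw [h1, h1, one_mul, one_mul]
          _ = _ := by ring) 0 0 (fun p _ => by rw [hdim]) k).mp h
    rw [Set.image_id'] at h2
    exact h2
  have hbig : ∀ k, n < k → NH I Set.univ k := by
    intro k hk z hz _ _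
    apply l2_ext
    intro c
    by_contra h
    have h1 := (hz c h).2
    rw [hdim] at h1
    have h2 := hM.dim _ c.2
    have h3 : c.1.card - 1 = k := h1
    omega
  have hlow : ∀ k, 2 * k + 1 < n → NH I Set.univ k := fun k hk =>
    main_nhH hX hA hM hW hG hGC hs hSI hdim hinc hF k (Or.inl hk)
  have hhigh : ∀ k, n + 1 < 2 * k → NH I Set.univ k := by
    intro k hk
    by_cases hkn : n < k
    · exact hbig k hkn
    · have h1 := nh_dual hX hA hM hSI hI (n - k) (by omega) (hlow (n - k) (by omega))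
      rwa [show n - (n - k) = k by omega] at h1
  have h1 : ∀ k, 2 * k + 1 ≠ n → 2 * k ≠ n → 2 * k ≠ n + 1 →
      NH (simpCx X (fun x y : P => x < y)) Set.univ k := by
    intro k a b c
    rcases lt_or_ge (2 * k + 1) n with h | h
    · exact hback k (hlow k h)
    · exact hback k (hhigh k (by omega))
  refine ⟨fun k a b c => betti_of_nh hX k (h1 k a b c), fun hmid => ?_⟩
  have h2 : ∀ k, 2 * k ≠ n → NH (simpCx X (fun x y : P => x < y)) Set.univ k := by
    intro k hk
    by_cases ha : 2 * k + 1 = n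
    · rcases hmid with ⟨j, hj⟩ | hmid
      · omega
      · exact hback k (main_nhH hX hA hM hW hG hGC hs hSI hdim hinc hF k (Or.inr ⟨ha, hmid⟩))
    · by_cases hc : 2 * k = n + 1
      · rcases hmid with ⟨j, hj⟩ | hmid
        · omega
        · have h3 := main_nhH hX hA hM hW hG hGC hs hSI hdim hinc hF (n - k)
            (Or.inr ⟨by omega, hmid⟩)
          have h4 := nh_dual hX hA hM hSI hI (n - k) (by omega) h3
          rw [show n - (n - k) = k by omega] at h4
          exact hback k h4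
      · exact h1 k ha hk hc
  -- the Euler characteristic
  have hXT : FreeCx (⊤ : Subgroup Γ) X := hX.of_finiteIndex ⊤ inferInstance
  obtain ⟨I2, s2, hs2, _, hdim2, hinc2, hFI2⟩ := exists_inv hXT
  letI iA : MulAction Γ {σ : Finset P // σ ∈ X} := simpAct hX.inv
  have hsm : ∀ (h : Γ) (c : {σ : Finset P // σ ∈ X}), (h • c).1 = h • c.1 := fun _ _ => rfl
  have hr0 : ∀ σ ∈ X, TotOn (fun x y : P => x < y) σ := fun σ _ => SingerCub.totOn_lt σ
  have hloc := locDim_smul_simp (H := Γ) hX.inv hsm hr0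
  have hfree : ∀ (g : Γ) (c : {σ : Finset P // σ ∈ X}), g • c = c → g = 1 :=
    fun g c h => hX.free g c.1 c.2 (congrArg Subtype.val h)
  have hfin : Finite (Orb Γ {σ : Finset P // σ ∈ X}) := hFI.cofin
  have key := betti_final (Γ := Γ) (I := simpCx X (fun x y : P => x < y)) (I' := I2) ⊤
    hfree hfin (fun g c => by
      show (g • c.1).card - 1 = c.1.card - 1
      rw [Finset.card_smul_finset]) hloc hdim2 (fun c =>
      locDim_twist (simpCx X (fun x y : P => x < y)) I2 (Equiv.refl _) s2 hs2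
        (fun p q => hinc2 p q) c) hFI2 n (fun c hc => by
      have h3 : c.1.card = (c.1.card - 1) + 1 := by
        have := Finset.card_pos.mpr (hX.ne _ c.2)
        omega
      exact locDim_of_nh hX (c.1.card - 1) (h2 _ hc) c h3)
  rw [chiX_eq hX]
  have hb : ∀ k, bettiX Γ X k = l2Betti Γ (simpCx X (fun x y : P => x < y)) k :=
    fun k => bettiX_eq hX (fun g c => hloc g c) k
  simp only [hb]
  exact key

end

end SingerCub
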