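import Mathlib
import Pool.Agent.Lib_MP_394d50_cmb.CMn
import Pool.Agent.Lib_MP_394d50_cub.KMain

/-!
# Walls without levels, and CAT(0) cube complexes
-/

namespace SingerCub

open SingerVS SingerRN
open scoped Pointwise

section

theorem low_zero {P ι : Type} (Y : ι → Set (Finset P)) : low Y (fun _ => 0) 0 = ∅ := by
  ext σ
  constructor
  · rintro ⟨i, h, _⟩
    exact absurd h (Nat.lt_irrefl _)
  · intro h
    exact h.elim

variable {Γ P ι : Type} [Group Γ] [LinearOrder P] [MulAction Γ P] [MulAction Γ ι]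
  {X : Set (Finset P)} {Y : ι → Set (Finset P)}

/-- The theorem on walls without levels. -/
theorem main_single (hX : FreeCx Γ X) (hA : Acyc X) {n : ℕ} (hM : HomMfd n X)
    (hW : WallsC n Γ X Y) (hG : GoodW n Γ Y) (hGC : GoodC Γ X Y) :
    (∀ k, 2 * k + 1 ≠ n → 2 * k ≠ n → 2 * k ≠ n + 1 → bettiX Γ X k = 0) ∧
    ((Even n ∨ ∀ i, (Y i).Nonempty → bettiX (MulAction.stabilizer Γ i) (Y i) ((n - 1) / 2) = 0) →
      (∀ k, 2 * k ≠ n → bettiX Γ X k = 0) ∧
      (∀ k, 2 * k = n → bettiX Γ X k = (-1 : ℝ) ^ k * chiX Γ X) ∧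
      ((∀ k, bettiX Γ X k = 0) ↔ chiX Γ X = 0) ∧
      ∀ k, 2 * k = n → 0 ≤ (-1 : ℤ) ^ k * chiX Γ X) := by
  classical
  obtain ⟨h1, h2⟩ := main_hier hX hA hM (wallsH_of_wallsC hX hW) (goodH_of_goodW hX hW hG)
    (goodK_of_goodC hGC)
  refine ⟨h1, fun h => h2 ?_⟩
  rcases h with h | h
  · exact Or.inl h
  · right
    intro i
    rw [show low Y (fun _ => 0) ((fun _ => 0) i) = ∅ from low_zero Y, Set.sdiff_empty]
    by_cases hne : (Y i).Nonempty
    · have hYi : wi Y {i} = Y i := by
        ext σ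
        constructor
        · intro h
          exact h i (Finset.mem_singleton_self i)
        · intro h j hj
          rw [Finset.mem_singleton.mp hj]
          exact h
      have hst : ∀ g ∈ MulAction.stabilizer Γ i, ∀ σ ∈ wi Y {i}, g • σ ∈ wi Y {i} := by
        intro g hg σ hσ
        rw [hYi] at hσ ⊢
        have h2 := hW.smul g i σ hσ
        rwa [MulAction.mem_stabilizer_iff.mp hg] at h2
      have hle : fixingSubgroup Γ (({i} : Finset ι) : Set ι) ≤ MulAction.stabilizer Γ i := by
        intro g hg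
        exact MulAction.mem_stabilizer_iff.mpr ((mem_fixingSubgroup_iff Γ).mp hg i (by simp))
      have hK := wi_freeCxC hX hW.sub hW.down hW.smul hW.locfin _ (Finset.singleton_nonempty i)
        (MulAction.stabilizer Γ i) hle hst
      rw [hYi] at hK
      exact nh_of_betti hK _ (h i hne)
    · intro z _ _ _
      apply l2_ext
      intro c
      exact (hne ⟨c.1, c.2⟩).elim

end

end SingerCub
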