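import Mathlib
import Pool.Agent.Lib_MP_394d50_cmb.CFin
import Pool.Agent.Lib_MP_394d50_cmb.BZig

/-!
# Hierarchies of manifolds with boundary
-/

namespace SingerCub

open SingerVS SingerRN
open scoped Pointwise

section

variable {Γ P ι : Type} [Group Γ] [LinearOrder P] [MulAction Γ P] [MulAction Γ ι]
  {X : Set (Finset P)} {Y : ι → Set (Finset P)} {lv : ι → ℕ}

theorem acyc_or (hX : FreeCx Γ X) (h : ContractibleSpace (geo X) ∨ Acyc X) : Acyc X := by
  have hD : Dn X := fun σ hσ τ h1 h2 => hX.down σ hσ τ h1 h2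
  rcases h with h | h
  · refine acyc_of_contractible hD hX.ne (fun σ hσ => ?_) h
    have h4 : ((fun p => insert p σ) '' {p | p ∉ σ ∧ insert p σ ∈ X}).Finite := by
      refine (hX.finStar hσ).subset ?_
      rintro _ ⟨p, ⟨_, h2⟩, rfl⟩
      exact ⟨h2, Finset.subset_insert p σ⟩
    refine Set.Finite.of_finite_image h4 ?_
    intro p hp q _ e
    have h3 : p ∈ insert q σ := by
      rw [← show insert p σ = insert q σ from e]
      exact Finset.mem_insert_self p σ
    exact (Finset.mem_insert.mp h3).resolve_right hp.1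
  · exact h

theorem homMfd_or (hX : FreeCx Γ X) {n : ℕ} (h : LocEuc n (geo X) ∨ HomMfd n X) :
    HomMfd n X := by
  have hD : Dn X := fun σ hσ τ h1 h2 => hX.down σ hσ τ h1 h2
  rcases h with h | h
  · exact homMfd_of_locEuc hD hX.ne (fun σ hσ => hX.finStar hσ) h
  · exact h

theorem wallsH_of_hier (hX : FreeCx Γ X) {n : ℕ} (hW : Hier n Γ X Y lv) :
    WallsH n Γ X Y lv := by
  refine ⟨hW.sub, hW.down, hW.smul, hW.lv_smul, hW.bdd, hW.locfin, ?_⟩
  intro l t ht htl hne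
  obtain ⟨m, hm, h | h⟩ := hW.inter l t ht htl hne
  · refine ⟨m, hm, ?_⟩
    have hst : ∀ g ∈ fixingSubgroup Γ (t : Set ι), ∀ σ ∈ wi Y t, g • σ ∈ wi Y t := by
      intro g hg σ hσ i hi
      have h2 := hW.smul g i σ (hσ i hi)
      rwa [(mem_fixingSubgroup_iff Γ).mp hg i hi] at h2
    have hZ := wi_freeCxC hX hW.sub hW.down hW.smul hW.locfin t ht
      (fixingSubgroup Γ (t : Set ι)) le_rfl hst
    have hS : SubCx (fixingSubgroup Γ (t : Set ι)) (wi Y t) (wi Y t ∩ low Y lv l) := by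
      refine ⟨Set.inter_subset_left, ?_, ?_⟩
      · rintro σ ⟨h1, i, h2, h3⟩ τ hτ hn
        exact ⟨hZ.down σ h1 τ hτ hn, i, h2, hW.down i σ h3 τ hτ hn⟩
      · rintro g σ ⟨h1, i, h2, h3⟩
        exact ⟨hZ.inv g σ h1, g.1 • i, by rw [hW.lv_smul]; exact h2, hW.smul g.1 i σ h3⟩
    exact BMfd.lfW hZ hS (acyc_or hZ h.1) h.2
  · exact ⟨m, hm, h⟩

end

end SingerCub
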